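import Pool.Agent.Work.MP_8f87b2_h58.InA0
import Pool.Agent.Work.MP_8f87b2_h27.Inn5
import Pool.Agent.Work.MP_8f87b2_h99.Ty9
import Pool.Agent.Work.MP_8f87b2_h62.W3f

/-!
MP_8f87b2_co: the inner words of the windows A, A0, T against the nine words of JV = `Is9 nil nil S` (helper33).

`JVok S`: `S = [c] Y` with `c` its smallest part `>= 3`, all parts `2` or `>= c`, and no bead `(())` in the two gaps at the
first maximum of `S`.
-/

set_option autoImplicit false

namespace Pool.OddHC

open Finset Equiv BinaryTree Pool.Agent.Work.MP_8f87b2_co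

open H1

variable {k : ℕ}

/-- **what the rows A, A0, T need of the phase `S` of JV** (no condition on where the smallest soliton is, except `gap`) -/
structure JVw (S : BinaryTree Unit) : Prop where
  one : 1 ∉ cont S
  /-- at least two parts `>= 3` -/
  two : ∃ x y M, 3 ≤ x ∧ 3 ≤ y ∧ cont S = x ::ₘ y ::ₘ M
  /-- row A, `V = (4, 3)`, `a = 1` -/
  exA : wd S ≠ [true, true, true, true, false, false, false, true, true, true, false, false, false, false]
  /-- row A, `V = (4, 3^b)`, `a = 2` -/
  exB : ∀ b, wd S ≠ wd (lv3' b .nil) ++ [true, true, true, true, false, false, true, true, false, false, false, false]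
  /-- row A0: only if `S` has exactly one smallest part `q + 1` and all the others are `>= q + 3` -/
  gap : ∀ q, 1 ≤ q → q + 3 < ht S → (cont S).count (q + 1) = 1 → (∀ x ∈ cont S, x = q + 1 ∨ q + 3 ≤ x) → ∃ a b, FM S a b ∧
    (∀ u, a ≠ u ++ (List.replicate (q + 1) false ++ List.replicate (q + 1) true)) ∧
    ∀ v, b ≠ List.replicate (q + 1) false ++ (List.replicate (q + 1) true ++ v)

/-- the phases of JV: START and LOW -/
structure JVok (S : BinaryTree Unit) : Prop where
  start : ∃ c Y, 3 ≤ c ∧ S = app (ch c) Y ∧ c ≤ ht Y ∧ ∀ x ∈ cont S, x = 2 ∨ c ≤ x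
  low : ∀ a b, FM S a b → (∀ u, a ≠ u ++ [false, false, true, true]) ∧
    ∀ v, b ≠ false :: false :: true :: true :: v

variable {S : BinaryTree Unit} {F F' : Set (Cyc k)} {g g' : DG k}

theorem JVok.one (h : JVok S) : 1 ∉ cont S := by
  obtain ⟨c, Y, h1, _, _, h4⟩ := h.start
  intro h5
  rcases h4 1 h5 with h6 | h6 <;> omega

theorem JVok.ne (h : JVok S) : S ≠ .nil := by
  obtain ⟨c, Y, h1, rfl, h3, _⟩ := h.start
  obtain ⟨n, rfl⟩ : ∃ n, c = n + 1 := ⟨c - 1, by omega⟩
  rw [ch_succ]
  simp [app]

theorem JVw.ht3 (h : JVw S) : 3 ≤ ht S := by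
  obtain ⟨x, y, M, h1, h2, h3⟩ := h.two
  rw [OddHC.ht_eq, h3, Multiset.sup_cons]
  exact le_trans h1 le_sup_left

theorem JVw.ne (h : JVw S) : S ≠ .nil := by
  rintro rfl
  have := h.ht3
  revert this
  decide

/-- the parts below the maximum are not changed by `raise` -/
theorem count_raise_lt {M : Multiset ℕ} {x : ℕ} (hx : x < M.sup) : (raise M).count x = M.count x := by
  unfold raise
  rw [Multiset.count_cons_of_ne (by omega), Multiset.count_erase_of_ne (by omega)]

theorem count_raise2 {M : Multiset ℕ} {x : ℕ} (hx : x < M.sup) :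
    (raise (raise M)).count x = M.count x := by
  rw [count_raise_lt (by rw [sup_raise]; omega), count_raise_lt hx]

theorem one_raise_iff {M : Multiset ℕ} (h2 : 2 ≤ M.sup) : 1 ∈ raise M ↔ 1 ∈ M := by
  rw [← Multiset.count_pos, ← Multiset.count_pos, count_raise_lt (by omega)]

/-- the words of a pair JV -/
theorem Is9.cases9 (h : Is9 .nil .nil S F g) {w : X k} (hw : w ∈ g.B) :
    w.1 = app S ((.nil △ .nil) △ .nil) ∨ w.1 = (.nil △ .nil) △ S ∨ w.1 = (.nil △ S) △ .nil ∨
    w.1 = (S △ .nil) △ .nil ∨ w.1 = (app S (.nil △ .nil)) △ .nil ∨ w.1 = S △ (.nil △ .nil) ∨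
    (∃ v : X k, v.1 = (S △ .nil) △ .nil ∧ TT (TT v) = w) ∨
    ((∃ Z, w.1 = app Z (.nil △ .nil)) ∧ ∃ v : X k, v.1 = (app S (.nil △ .nil)) △ .nil ∧ TT (TT v) = w) ∨
    ((∃ Z, w.1 = .nil △ Z) ∧ ∃ v : X k, v.1 = S △ (.nil △ .nil) ∧ TT (TT v) = w) := by
  obtain ⟨u, h1, rfl, rfl⟩ := h
  obtain ⟨i, hi, rfl⟩ := mem_gad9.1 hw
  obtain ⟨a3, a4, a5⟩ := h1.arcs
  have e := h1.word i hi
  have e3 : (u 3).1 = (S △ .nil) △ .nil := h1.word 3 (by norm_num)
  have e4 : (u 4).1 = (app S (.nil △ .nil)) △ .nil := h1.word 4 (by norm_num)
  have e5 : (u 5).1 = S △ (.nil △ .nil) := h1.word 5 (by norm_num)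
  interval_cases i
  · exact Or.inl e
  · exact Or.inr (Or.inl e)
  · exact Or.inr (Or.inr (Or.inl e))
  · exact Or.inr (Or.inr (Or.inr (Or.inl e)))
  · exact Or.inr (Or.inr (Or.inr (Or.inr (Or.inl e))))
  · exact Or.inr (Or.inr (Or.inr (Or.inr (Or.inr (Or.inl e)))))
  · exact Or.inr (Or.inr (Or.inr (Or.inr (Or.inr (Or.inr (Or.inl ⟨u 3, e3, a3⟩))))))
  · exact Or.inr (Or.inr (Or.inr (Or.inr (Or.inr (Or.inr (Or.inr (Or.inl
      ⟨⟨xT S, e⟩, u 4, e4, a4⟩)))))))
  · exact Or.inr (Or.inr (Or.inr (Or.inr (Or.inr (Or.inr (Or.inr (Or.inr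
      ⟨⟨xT S, e⟩, u 5, e5, a5⟩)))))))

theorem Is9.two9 (h : Is9 .nil .nil S F g) : ht S < S.numNodes := by
  obtain ⟨u, h1, rfl, rfl⟩ := h
  exact h1.two

/-- the height of the group -/
theorem Is9.exF (h : Is9 .nil .nil S F g) : ∃ d ∈ F, htc d = ht S := by
  have h2 := h.htp'
  obtain ⟨u, h1, rfl, rfl⟩ := h
  exact ⟨_, Or.inl rfl, h2 _ (Or.inl rfl)⟩

/-- the content of the words 3 and 6 -/
theorem cont_three {v : X k} (hv : v.1 = (S △ .nil) △ .nil) : cont v.1 = raise (raise (cont S)) := by
  rw [hv, cont_node, cont_node, cont_nil, add_zero, add_zero]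

theorem cont_six {v w : X k} (hv : v.1 = (S △ .nil) △ .nil) (e : TT (TT v) = w) :
    cont w.1 = raise (raise (cont S)) := by
  rw [← e, cont_TT, cont_TT, cont_three hv]

/-- the first maximum of `((S))` -/
theorem _root_.Pool.OddHC.H1.FM.three {a b : List Bool} (h : FM S a b) :
    FM ((S △ .nil) △ .nil) (true :: true :: a) (b ++ [false, false]) := by
  have h1 := h.node (Z := .nil) (by change 0 ≤ _; omega)
  have h2 := h1.node (Z := .nil) (by change 0 ≤ _; omega)
  have e : b ++ false :: wd .nil ++ false :: wd .nil = b ++ [false, false] := by simp [wd]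
  rw [e] at h2
  exact h2

theorem wdT_three {v : X k} (hv : v.1 = (S △ .nil) △ .nil) {a b : List Bool} (h : FM S a b) :
    wd (TT v).1 = b.map not ++ (true :: true :: false :: false :: false :: a.map not) := by
  have h1 := h.three
  rw [← hv] at h1
  rw [h1.wdT]
  simp

theorem exFMJV {t : BinaryTree Unit} (h : t ≠ .nil) : ∃ a b, FM t a b := by
  obtain ⟨a, c, h1, _⟩ := FM.ex h
  exact ⟨_, _, h1⟩

theorem _root_.Pool.OddHC.H1.FM.len_b {a b : List Bool} (h : FM S a b) : ht S ≤ b.length := by
  have h1 := h.bal
  have h2 := List.count_le_length (l := b) (a := false)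
  have h3 := h.top
  have e : Tsq.ht S = ht S := H1.ht_eq S
  omega

theorem _root_.Pool.OddHC.H1.FM.len_a {a b : List Bool} (h : FM S a b) : ht S ≤ a.length + 1 := by
  have h2 := List.count_le_length (l := a) (a := true)
  have h3 := h.top
  have e : Tsq.ht S = ht S := H1.ht_eq S
  omega


/-! ### Lists -/

theorem rep_neJV {x : Bool} {n m : ℕ} (h : n < m) {u v : List Bool} :
    List.replicate n x ++ (!x) :: u ≠ List.replicate m x ++ v := by
  obtain ⟨d, rfl⟩ : ∃ d, m = n + (d + 1) := ⟨m - n - 1, by omega⟩
  intro e
  rw [List.replicate_add, List.append_assoc] at e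
  have := List.append_cancel_left e
  rw [List.replicate_succ, List.cons_append, List.cons.injEq] at this
  cases x <;> simp at this

theorem rep_ne_endJV {x : Bool} {n m : ℕ} (h : n < m) {u v : List Bool} :
    u ++ (!x) :: List.replicate n x ≠ v ++ List.replicate m x := by
  intro e
  have e1 := congrArg List.reverse e
  rw [List.reverse_append, List.reverse_append, List.reverse_replicate, List.reverse_cons,
    List.reverse_replicate, List.append_assoc, List.singleton_append] at e1
  exact rep_neJV h e1

/-- first letters `1^p`, `p` larger than `n`, are not `1^n 0` -/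
theorem pre_ne {n : ℕ} {b r t : List Bool} (hb : ∃ v, b = List.replicate (n + 1) false ++ v)
    (e : b.map not ++ r = List.replicate n true ++ false :: t) : False := by
  obtain ⟨v, rfl⟩ := hb
  rw [List.map_append, List.map_replicate, Bool.not_false, List.append_assoc] at e
  exact rep_neJV (x := true) (n := n) (m := n + 1) (by omega) e.symm

/-- a word `x^n y^n t` against `b x ..`, `b` not too short -/
theorem pre_twoJV {x : Bool} {n : ℕ} {b r t : List Bool}
    (e : b ++ x :: r = List.replicate n x ++ (List.replicate n (!x) ++ t)) (hb : n ≤ b.length) :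
    ∃ v, b = List.replicate n x ++ (List.replicate n (!x) ++ v) := by
  rcases List.append_eq_append_iff.1 e with ⟨a', h1, h2⟩ | ⟨c', h1, h2⟩
  · -- `replicate n x = b ++ a'`
    have h3 : a' = [] := by
      have := congrArg List.length h1
      rw [List.length_append, List.length_replicate] at this
      exact List.length_eq_zero_iff.1 (by omega)
    subst h3
    rw [List.append_nil] at h1
    rw [List.nil_append] at h2
    rcases n with _ | n
    · exact ⟨[], by rw [← h1]; simp⟩
    · rw [List.replicate_succ, List.cons_append, List.cons.injEq] at h2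
      cases x <;> simp at h2
  · subst h1
    rcases List.append_eq_append_iff.1 h2 with ⟨a', h3, h4⟩ | ⟨c2, h3, h4⟩
    · exact ⟨a', by rw [h3]⟩
    · rcases c2 with _ | ⟨y, c2⟩
      · rw [List.append_nil] at h3
        exact ⟨[], by rw [h3]; simp⟩
      · exfalso
        rw [List.cons_append, List.cons.injEq] at h4
        have h5 : y ∈ List.replicate n (!x) := by rw [h3]; simp
        have h6 := List.eq_of_mem_replicate h5
        have h7 := h4.1
        rw [h6] at h7
        cases x <;> simp at h7

/-! ### A0 -/

section A0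

variable {q : ℕ} {R B Sr : BinaryTree Unit}

/-- the facts for word 9 -/
structure Key (q : ℕ) (R S : BinaryTree Unit) : Prop where
  ok : JVw S
  q1 : 1 ≤ q
  top : q + 3 < ht R
  part : ∀ x ∈ cont R, q + 3 ≤ x
  hts : ht S = ht R
  ce : raise (raise (cont S)) = raise (raise (cont R)) + {q + 1}

/-- the small parts of `S` -/
theorem Key.cnt (h : Key q R S) : ∀ x, x < q + 3 → (cont S).count x = if x = q + 1 then 1 else 0 := by
  have htop := h.top
  have hts := h.hts
  have hsupS : (cont S).sup = ht S := (OddHC.ht_eq S).symm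
  have hsupR : (cont R).sup = ht R := (OddHC.ht_eq R).symm
  intro x hx
  have e1 := congrArg (Multiset.count x) h.ce
  rw [Multiset.count_add, count_raise2 (by omega), count_raise2 (by omega),
    Multiset.count_eq_zero_of_notMem (s := cont R) (fun h3 => by have := h.part x h3; omega),
    zero_add, Multiset.count_singleton] at e1
  exact e1

theorem Key.fm (h : Key q R S) : ∃ a b, FM S a b ∧
    (∀ u, a ≠ u ++ (List.replicate (q + 1) false ++ List.replicate (q + 1) true)) ∧
    ∀ v, b ≠ List.replicate (q + 1) false ++ (List.replicate (q + 1) true ++ v) := by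
  refine h.ok.gap q h.q1 (by rw [h.hts]; exact h.top) (by rw [h.cnt _ (by omega), if_pos rfl]) ?_
  intro x hx
  by_contra h3
  push Not at h3
  have h4 := h.cnt x h3.2
  rw [if_neg h3.1] at h4
  exact absurd hx (Multiset.count_eq_zero.1 h4)

/-- word 3 -/
theorem Key.not_three (h : Key q R S) {v : X k} (hv : v.1 = (S △ .nil) △ .nil) {t : List Bool}
    (e : wd (TT v).1 = List.replicate (q + 1) true ++ (List.replicate (q + 1) false ++ t)) : False := by
  have htop := h.top
  have hts := h.hts
  obtain ⟨a, b, h3, _, h5⟩ := h.fm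
  have h4 := h3.len_b
  rw [wdT_three hv h3] at e
  obtain ⟨v, hv'⟩ := pre_twoJV (x := true) (n := q + 1) (b := b.map not)
    (r := true :: false :: false :: false :: a.map not) (by rw [e]; rfl)
    (by rw [List.length_map]; omega)
  apply h5 (v.map not)
  have := congrArg (List.map not) hv'
  rw [List.map_map] at this
  have hn : (not ∘ not) = id := by funext x; cases x <;> rfl
  rw [hn, List.map_id] at this
  rw [this]
  simp

/-- word 6 -/
theorem Key.not_six (h : Key q R S) {v : X k} (hv : v.1 = (S △ .nil) △ .nil) {t : List Bool}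
    (e : wd (TT v).1 = t ++ (List.replicate (q + 1) true ++ List.replicate (q + 1) false)) : False := by
  have htop := h.top
  have hts := h.hts
  obtain ⟨a, b, h3, h5, _⟩ := h.fm
  have h4 := h3.len_a
  rw [wdT_three hv h3] at e
  have e1 := congrArg List.reverse e
  obtain ⟨v, hv'⟩ := pre_twoJV (x := false) (n := q + 1) (b := (a.map not).reverse) (t := t.reverse)
    (r := false :: false :: true :: true :: (b.map not).reverse) (by
      have : List.replicate (q + 1) (!false) = List.replicate (q + 1) true := rfl
      rw [this]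
      rw [List.reverse_append, List.reverse_append, List.reverse_append, List.reverse_replicate,
        List.reverse_replicate] at e1
      rw [← List.append_assoc, ← e1]
      simp) (by rw [List.length_reverse, List.length_map]; omega)
  apply h5 (v.reverse.map not)
  have := congrArg List.reverse hv'
  rw [List.reverse_reverse] at this
  have h6 := congrArg (List.map not) this
  rw [List.map_map] at h6
  have hn : (not ∘ not) = id := by funext x; cases x <;> rfl
  rw [hn, List.map_id] at h6
  rw [h6]
  simp

/-- the inner words of both orientations start with `1^3` and end with `0^3`: only words 3 and 6 -/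
theorem _root_.Pool.OddHC.H1.InnP.only {g0 : ℕ} {w : X k} (h : InnP g0 w.1) (h' : Is9 .nil .nil S F' g') (hw : w ∈ g'.B) :
    w.1 = (S △ .nil) △ .nil ∨ ∃ v : X k, v.1 = (S △ .nil) △ .nil ∧ TT (TT v) = w := by
  have g3 := h.g3
  rcases h'.cases9 hw with e | e | e | e | e | e | e | ⟨⟨Z, e⟩, _⟩ | ⟨⟨Z, e⟩, _⟩
  · exfalso
    have h1 := h.stop (n := 2) (v := wd S ++ [true]) (by
      rw [e, wd_app, wd_node, wd_node]; simp [wd])
    omega
  · exfalso
    have h1 := h.start (n := 2) (v := false :: wd S) (by
      rw [e, wd_node, wd_node]; simp [wd])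
    omega
  · exfalso
    have h1 := h.start (n := 2) (v := wd S ++ [false]) (by
      rw [e, wd_node, wd_node]; simp [wd])
    omega
  · exact Or.inl e
  · exfalso
    have h1 := h.stop (n := 2) (v := true :: wd S) (by
      rw [e, wd_node, wd_app, wd_node]; simp [wd])
    omega
  · exact absurd e (h.not_last (Y := S △ .nil))
  · exact Or.inr e
  · exact absurd e h.not_last
  · exact absurd e h.not_first

/-- **A0 - JV** (one inner word) -/
theorem _root_.Pool.OddHC.HM.NodeM.not_JV (h : HM.NodeM k q R B Sr) (w0 : X k) {i : ℕ}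
    (hi : i ∈ [0, 1, 3, 6, 8, 9]) (h' : Is9 .nil .nil S F' g') (hS : JVw S) (hh : ht R ≤ ht S) :
    Tsq.mirX (TT (wX R B Sr q w0 i)) ∉ g'.B := by
  intro hw
  have hin := (h.inn w0 hi).2
  obtain ⟨c1, c2, c3⟩ := h.winn w0 hi (w := Tsq.mirX (TT (wX R B Sr q w0 i))) (Or.inr rfl)
  have h36 := hin.only h' hw
  set w := Tsq.mirX (TT (wX R B Sr q w0 i)) with hwd
  have hone := hS.one
  have hS3 := hS.ht3
  have htop := h.top
  have hsupS : (cont S).sup = ht S := (OddHC.ht_eq S).symm
  have hsupR : (cont R).sup = ht R := (OddHC.ht_eq R).symm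
  have hce : cont w.1 = raise (raise (cont S)) := by
    rcases h36 with e | ⟨v, e, e1⟩
    · exact cont_three e
    · exact cont_six e e1
  rw [c1] at hce
  have hno1 : (cont (W R (ch (q + 1)) B Sr i)).count 1 = 0 := by
    rw [hce, count_raise2 (by omega)]
    exact Multiset.count_eq_zero_of_notMem hone
  have hsup : ht (W R (ch (q + 1)) B Sr i) = ht S + 2 := by
    rw [OddHC.ht_eq, hce, sup_raise, sup_raise, hsupS]
  have h00 : OddHC.ht (BinaryTree.nil : BinaryTree Unit) = 0 := rfl
  have r0 : (raise (cont (BinaryTree.nil : BinaryTree Unit))).count 1 = 1 := by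
    rw [cont_nil, raise_zero]; rfl
  have hQ := ch_ht (q + 1)
  have hQ2 := ch_ht (q + 2)
  simp only [List.mem_cons, List.not_mem_nil, or_false] at hi
  rcases hi with rfl | rfl | rfl | rfl | rfl | rfl
  · simp only [W, ht_app, ht_node, hQ, h00] at hsup
    omega
  · simp only [W, ht_app, ht_node, hQ, h00] at hsup
    omega
  · -- word 3 of the window has a part 1
    simp only [W, cont_node, cont_nil, add_zero] at hno1
    rw [count_raise_lt (by
      rw [cont_app, Multiset.sup_add, hsupR]
      exact lt_of_lt_of_le (show 1 < ht R by omega) le_sup_left), cont_app, Multiset.count_add,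
      cont_node, Multiset.count_add, r0] at hno1
    omega
  · simp only [W, ht_app, ht_node, hQ, h00] at hsup
    omega
  · simp only [W, cont_app, cont_node, Multiset.count_add, r0] at hno1
    omega
  · -- word 9
    have hW9 : cont (W R (ch (q + 1)) B Sr 9) = raise (raise (cont R)) + {q + 1} := by
      simp only [W, cont_node, cont_nil, add_zero, ch_cont]
    have hq1 : 1 ≤ q := by
      by_contra hq
      obtain rfl : q = 0 := by omega
      rw [hW9, Multiset.count_add] at hno1
      simp at hno1
    simp only [W, ht_app, ht_node, hQ, h00] at hsup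
    have key : Key q R S := ⟨hS, hq1, htop, h.part, by omega, by rw [← hce, hW9]⟩
    have hx : ∀ {j : ℕ}, j < 20 → (wX R B Sr q w0 j).1 = W R (ch (q + 1)) B Sr j :=
      fun hj => wX_eq h.dat h.size w0 hj
    rcases h36 with e | ⟨v, e, e1⟩
    · -- `T w` is the mirror image of word 9
      have h5 : TT w = Tsq.mirX (wX R B Sr q w0 9) := Tsq.TT_mir _
      have h6 : wd (TT w).1 = List.replicate (q + 1) true ++ (List.replicate (q + 1) false ++
          (true :: true :: (((wd R).map not).reverse ++ [false, false]))) := by
        rw [h5]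
        change wd (Tsq.mir (wX R B Sr q w0 9).1) = _
        rw [hx (by norm_num), Tsq.wd_mir]
        simp only [W, wd_node, wd_ch]
        simp [wd]
      exact key.not_three e h6
    · -- `T v` is the mirror image of word 17
      have h5 : TT v = HM.mX R B Sr q w0 17 := by
        apply TT.injective
        rw [e1, hwd, ← inner_mir h w0 (i := 9) (j := 17) (by simp)]
      have h6 : wd (TT v).1 = (true :: (((wd (Sr △ B)).map not).reverse ++ [false])) ++
          (List.replicate (q + 1) true ++ List.replicate (q + 1) false) := by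
        rw [h5]
        change wd (Tsq.mir (wX R B Sr q w0 17).1) = _
        rw [hx (by norm_num), Tsq.wd_mir]
        simp only [W, wd_app, wd_node, wd_ch]
        simp [wd]
      exact key.not_six e h6

end A0

open HM in
/-- **A0 - JV** -/
theorem TyA0.inner_JV (h : TyA0 F g) (h' : Is9 .nil .nil S F' g') (hS : JVw S)
    (hh : ∀ c ∈ F, ∀ d ∈ F', htc c ≤ htc d) : ∀ p ∈ g.arcs, ∀ w ∈ innA p, w ∉ g'.B := by
  obtain ⟨q, R, B, Sr, w0, h1, rfl, h2⟩ := h.inn
  intro p hp w hw
  obtain ⟨i, hi, e⟩ := h2 p hp
  rw [e] at hw
  obtain rfl : w = _ := hw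
  obtain ⟨d, hd, e1⟩ := h'.exF
  refine h1.not_JV w0 hi h' hS ?_
  have h3 := hh _ rfl d hd
  rw [e1, htc_cyc, h1.word w0 (by norm_num)] at h3
  have h4 : ht (w20M (Tsq.mir R) (pc (q + 1)) (Tsq.mir B) (Tsq.mir Sr) 0) = ht R := by
    rw [← h1.word w0 (by norm_num)]
    change ht (Tsq.mir (wX R B Sr q w0 0).1) = _
    rw [OddHC.ht_mir, wX_eq h1.dat h1.size w0 (by norm_num)]
    have hQ := ch_ht (q + 1)
    have h00 : OddHC.ht (BinaryTree.nil : BinaryTree Unit) = 0 := rfl
    have := h1.top
    simp only [W, ht_app, ht_node, hQ, h00]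
    omega
  rw [h4] at h3
  exact h3


/-! ### A -/

/-- the first maximum of the linked words: a suffix of the part before it -/
theorem FM_Wsuf {q : ℕ} {R B Sr : BinaryTree Unit} {a b : List Bool} (h : FM R a b)
    (hq : q + 3 ≤ Tsq.ht R) : ∀ i ∈ [0, 1, 3, 6, 8, 9],
    ∃ u b', FM (W R (ch (q + 1)) B Sr i) (u ++ a) b' := by
  intro i hi
  have hn : Tsq.ht (.nil : BinaryTree Unit) = 0 := rfl
  have hc : ∀ n, Tsq.ht (ch n) = n := fun n => by rw [H1.ht_eq, ch_ht]
  simp only [List.mem_cons, List.not_mem_nil, or_false] at hi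
  rcases hi with rfl | rfl | rfl | rfl | rfl | rfl
  · exact ⟨[], _, h.app_right (Z := ch (q + 3)) (by rw [hc]; exact hq)⟩
  · exact ⟨[], _, h.app_right (Z := .nil △ app (ch (q + 1)) (.nil △ .nil)) (by
      rw [Tsq.ht_node, Tsq.ht_app, Tsq.ht_node, hc, hn]; omega)⟩
  · exact ⟨[true], _, (h.app_right (Z := .nil △ ch (q + 1)) (by
      rw [Tsq.ht_node, hc, hn]; omega)).node (Z := .nil) (by rw [hn]; omega)⟩
  · exact ⟨[true], _, h.node (Z := ch (q + 2)) (by rw [hc]; omega)⟩
  · have k3 := (h.node (Z := .nil) (by rw [hn]; omega)).app_left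
      (P := app (ch (q + 1)) (.nil △ .nil)) (by
        rw [Tsq.ht_node, Tsq.ht_app, Tsq.ht_node, hc, hn]; omega)
    have e : W R (ch (q + 1)) B Sr 8 = app (app (ch (q + 1)) (.nil △ .nil)) (R △ .nil) := by
      rw [H1.app_assoc]; rfl
    rw [e]
    exact ⟨wd (app (ch (q + 1)) (.nil △ .nil)) ++ [true], _, by
      rw [List.append_assoc]; exact k3⟩
  · exact ⟨[true, true], _, (h.node (Z := .nil) (by rw [hn]; omega)).node (Z := ch (q + 1)) (by
      rw [Tsq.ht_node, hc, hn]; omega)⟩

/-- the inner words of a window of height at least 5 end with `000` -/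
theorem NodeG.end5 {q : ℕ} {B1 H s B : BinaryTree Unit} (h : NodeG k q B1 H s B) (h4 : 4 ≤ OddHC.ht s)
    (w0 : X k) {i : ℕ} (hi : i ∈ [0, 1, 3, 6, 8, 9]) :
    ∃ v, wd (TT (gX q B1 H s B w0 i)).1 = v ++ [false, false, false] := by
  have es : Tsq.ht s = OddHC.ht s := H1.ht_eq s
  have eB : Tsq.ht B = OddHC.ht B := H1.ht_eq B
  have eB1 : Tsq.ht B1 = OddHC.ht B1 := H1.ht_eq B1
  have hH2 := bl_ht h.light
  have h1 := h.low
  have h2 := h.top
  have hbig := h.big
  obtain ⟨a, b, h5, h6⟩ := hg_Bef (g := 3) (by norm_num) (hg_hv h.hs) (by omega)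
  obtain ⟨u, hu⟩ : ∃ u, a = u ++ [true, true, true] := by
    rcases h6 with rfl | ⟨u, rfl⟩ | ⟨u, rfl⟩
    · exact ⟨[], rfl⟩
    · exact ⟨u ++ [true], by simp [List.replicate_succ]⟩
    · exact ⟨u ++ [false, false, false], by simp [List.replicate_succ]⟩
  have k1 := h5.app_left (P := H) (by omega)
  have e1 : Tsq.ht (app H s) = Tsq.ht s := by rw [Tsq.ht_app]; omega
  have k2 := k1.node (Z := B) (by rw [e1]; omega)
  have e2 : Tsq.ht (app H s △ B) = Tsq.ht s + 1 := by rw [Tsq.ht_node, e1]; omega
  have k3 := k2.app_left (P := B1) (by rw [e2]; omega)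
  have hi' : i < 20 := by
    simp only [List.mem_cons, List.not_mem_nil, or_false] at hi
    omega
  have e3 : Tsq.ht (gR B1 H s B) = Tsq.ht s + 1 := by
    unfold gR
    rw [Tsq.ht_app, e2]
    omega
  obtain ⟨u', b', k4⟩ := FM_Wsuf (q := q) (B := B) (Sr := (Tsq.sq (gR B1 H s B)).1) (R := gR B1 H s B)
    k3 (by rw [e3]; omega) i hi
  rw [← h.word w0 hi'] at k4
  rw [k4.wdT, hu]
  refine ⟨b'.map not ++ false :: (u'.map not ++ ((wd B1).map not ++ false :: ((wd H).map not ++
    u.map not))), ?_⟩
  simp

/-- a prefix of the word of a tree -/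
theorem pre_leJV {t : BinaryTree Unit} {l r : List Bool} (e : wd t ++ [true, false, false] = l ++ r)
    (hr : 3 ≤ r.length) : l.count false ≤ l.count true := by
  have h1 : l.length ≤ (wd t).length := by
    have := congrArg List.length e
    simp only [List.length_append, List.length_cons, List.length_nil] at this
    omega
  have h2 : l = (wd t).take l.length := by
    have := congrArg (List.take l.length) e
    rw [List.take_left, List.take_append_of_le_length h1] at this
    exact this.symm
  rw [h2]
  exact wd_take t _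

/-- the end of the inner words of the windows of height 4 -/
theorem endHJV {t H : BinaryTree Unit} {pre : List Bool} {b : ℕ}
    (e : wd t ++ [true, false, false] = pre ++ El b H) (hp : pre.count true = pre.count false + 2)
    (hl : bl H = true) (h0 : H ≠ .nil) (h1 : (cont H).count 1 ≤ 1) :
    wd t = pre ++ [false, false] ∧ b = 0 ∧ H = .nil △ .nil := by
  have hb : b = 0 := by
    by_contra hb
    obtain ⟨b', rfl⟩ : ∃ b', b = b' + 1 := ⟨b - 1, by omega⟩
    have e1 : El (b' + 1) H = [false, false, false] ++ (true :: true :: true ::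
        (co (wd (lv3' b' .nil)) ++ false :: (co (wd H) ++ [false, false]))) := by
      unfold El
      rw [wd_three]
      simp [co]
    have h2 := pre_leJV (t := t) (l := pre ++ [false, false, false]) (r := _)
      (by rw [e, e1, List.append_assoc]) (by simp)
    simp only [List.count_append, List.count_cons, List.count_nil] at h2
    simp at h2
    omega
  subst hb
  have e0 : El 0 H = false :: (co (wd H) ++ [false, false]) := rfl
  rw [e0] at e
  rcases bl_cases hl with rfl | ⟨H1, hl1, rfl⟩ | ⟨H1, hl1, rfl⟩
  · exact absurd rfl h0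
  · rcases bl_cases hl1 with rfl | ⟨H2, _, rfl⟩ | ⟨H2, _, rfl⟩
    · refine ⟨?_, rfl, rfl⟩
      have e1 : false :: (co (wd (BinaryTree.nil △ BinaryTree.nil)) ++ [false, false]) =
          [false, false] ++ [true, false, false] := rfl
      rw [e1, ← List.append_assoc] at e
      exact List.append_cancel_right e
    · exfalso
      simp only [cont_node, cont_nil, raise_zero, Multiset.count_add,
        Multiset.count_singleton_self] at h1
      omega
    · exfalso
      have e1 : false :: (co (wd (BinaryTree.nil △ ((BinaryTree.nil △ BinaryTree.nil) △ H2))) ++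
          [false, false]) = [false, false, true, false, false] ++ (true :: true ::
            (co (wd H2) ++ [false, false])) := by
        simp [wd, wd_node, co]
      have h2 := pre_leJV (t := t) (l := pre ++ [false, false, true, false, false]) (r := _)
        (by rw [e, e1, List.append_assoc]) (by simp)
      simp only [List.count_append, List.count_cons, List.count_nil] at h2
      simp at h2
      omega
  · exfalso
    have e1 : false :: (co (wd ((BinaryTree.nil △ BinaryTree.nil) △ H1)) ++
        [false, false]) = [false, false, false] ++ (true :: true ::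
          (co (wd H1) ++ [false, false])) := by
      simp [wd, wd_node, co]
    have h2 := pre_leJV (t := t) (l := pre ++ [false, false, false]) (r := _)
      (by rw [e, e1, List.append_assoc]) (by simp)
    simp only [List.count_append, List.count_cons, List.count_nil] at h2
    simp at h2
    omega

theorem not_two_of {x y : ℕ} (hx : x = 2) (e : ∃ a b M, 3 ≤ a ∧ 3 ≤ b ∧ cont S = a ::ₘ b ::ₘ M)
    (h : cont S = {y, x}) : False := by
  obtain ⟨a, b, M, h1, h2, h3⟩ := e
  have hc := congrArg Multiset.card (h3.symm.trans h)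
  simp only [Multiset.card_cons, Multiset.insert_eq_cons, Multiset.card_singleton] at hc
  have hM : M = 0 := Multiset.card_eq_zero.1 (by omega)
  subst hM
  have h4 : x ∈ cont S := by rw [h]; simp
  rw [h3] at h4
  simp only [Multiset.mem_cons, Multiset.notMem_zero, or_false] at h4
  omega

/-- **A - JV, word 4** -/
theorem NodeG.not_four {q : ℕ} {B1 H s B : BinaryTree Unit} (h : NodeG k q B1 H s B) (w0 : X k) {i : ℕ}
    (hi : i ∈ [0, 1, 3, 6, 8, 9]) (hS : JVw S) (hm : 1 ∈ cont (gR B1 H s B))
    (hh : ht (gR B1 H s B) ≤ ht S) :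
    (TT (gX q B1 H s B w0 i)).1 ≠ (app S (.nil △ .nil)) △ .nil := by
  intro e
  have hi' : i < 20 := by
    simp only [List.mem_cons, List.not_mem_nil, or_false] at hi
    omega
  have hwd : wd (TT (gX q B1 H s B w0 i)).1 = true :: (wd S ++ [true, false, false]) := by
    rw [e, wd_node, wd_app, wd_node]
    simp [wd]
  by_cases h4 : 4 ≤ OddHC.ht s
  · obtain ⟨v, hv⟩ := NodeG.end5 h h4 w0 hi
    rw [hwd] at hv
    have := congrArg List.reverse hv
    simp at this
  · have h3 : OddHC.ht s ≤ 3 := by omega
    have hone := hS.one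
    have hS3 := hS.ht3
    have hht := h.ht
    have hs3 := h.hs3
    have hbig := h.big
    have hq : q ≤ 1 := by omega
    have hsupS : (cont S).sup = ht S := (OddHC.ht_eq S).symm
    have hsupR : (cont (gR B1 H s B)).sup = ht (gR B1 H s B) := (OddHC.ht_eq _).symm
    have h00 : OddHC.ht (BinaryTree.nil : BinaryTree Unit) = 0 := rfl
    have r0 : (raise (cont (BinaryTree.nil : BinaryTree Unit))).count 1 = 1 := by
      rw [cont_nil, raise_zero]; rfl
    have hQ := ch_ht (q + 1)
    -- content
    have hce : cont (W (gR B1 H s B) (ch (q + 1)) B (Tsq.sq (gR B1 H s B)).1 i) =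
        raise (cont S + {1}) := by
      rw [← h.word w0 hi', ← cont_TT, e, cont_node, cont_app, cont_node, cont_nil, add_zero, add_zero,
        raise_zero]
    have hs1 : ((cont S + {1}).sup : ℕ) = ht S := by
      rw [Multiset.sup_add, hsupS, Multiset.sup_singleton]
      exact max_eq_left (by omega)
    have hcount : (cont (W (gR B1 H s B) (ch (q + 1)) B (Tsq.sq (gR B1 H s B)).1 i)).count 1 = 1 := by
      rw [hce, count_raise_lt (by omega), Multiset.count_add,
        Multiset.count_eq_zero_of_notMem hone]
      simp
    have hsup : ht (W (gR B1 H s B) (ch (q + 1)) B (Tsq.sq (gR B1 H s B)).1 i) = ht S + 1 := by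
      rw [OddHC.ht_eq, hce, sup_raise, hs1]
    have hm' : 1 ≤ (cont (gR B1 H s B)).count 1 := Multiset.count_pos.2 hm
    have hHR : (cont H).count 1 ≤ (cont (gR B1 H s B)).count 1 := by
      have e1 : cont (gR B1 H s B) = cont B1 + (raise (cont H + cont s) + cont B) := by
        unfold gR
        rw [cont_app, cont_node, cont_app]
      have h5 : (cont s).sup = ht s := (OddHC.ht_eq s).symm
      rw [e1, Multiset.count_add, Multiset.count_add, count_raise_lt (by
        rw [Multiset.sup_add, h5]
        exact lt_of_lt_of_le (show 1 < ht s by omega) le_sup_right), Multiset.count_add]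
      omega
    obtain ⟨b, p, rfl, rfl, -⟩ := h.four h3
    rw [h.TW w0 hi] at hwd
    obtain ⟨e0, e1, e3, e6, e8, e9⟩ := Yl_eq q b H
    have hi69 : (i = 6 ∧ (cont (gR (lv3' b .nil) H (lv3' (p + 1) .nil) B)).count 1 ≤ 1) ∨
        (i = 9 ∧ q = 1 ∧ (cont (gR (lv3' b .nil) H (lv3' (p + 1) .nil) B)).count 1 ≤ 1) := by
      simp only [List.mem_cons, List.not_mem_nil, or_false] at hi
      rcases hi with rfl | rfl | rfl | rfl | rfl | rfl
      · exfalso
        simp only [W, ht_app, ht_node, hQ, h00] at hsup
        omega
      · exfalso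
        simp only [W, ht_app, ht_node, hQ, h00] at hsup
        omega
      · exfalso
        simp only [W, cont_node, cont_nil, add_zero] at hcount
        rw [count_raise_lt (by
          rw [cont_app, Multiset.sup_add, hsupR]
          exact lt_of_lt_of_le (show 1 < _ by omega) le_sup_left), cont_app, Multiset.count_add,
          cont_node, Multiset.count_add, r0] at hcount
        omega
      · refine Or.inl ⟨rfl, ?_⟩
        have e5 : cont (W (gR (lv3' b .nil) H (lv3' (p + 1) .nil) B) (ch (q + 1)) B
            (Tsq.sq (gR (lv3' b .nil) H (lv3' (p + 1) .nil) B)).1 6) =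
            raise (cont (gR (lv3' b .nil) H (lv3' (p + 1) .nil) B)) +
              (raise (cont (ch (q + 1))) + cont .nil) := by
          simp only [W, cont_node]
        rw [e5, Multiset.count_add, count_raise_lt (by rw [hsupR]; omega)] at hcount
        omega
      · exfalso
        have e5 : cont (W (gR (lv3' b .nil) H (lv3' (p + 1) .nil) B) (ch (q + 1)) B
            (Tsq.sq (gR (lv3' b .nil) H (lv3' (p + 1) .nil) B)).1 8) = {q + 1} + ({1} +
            raise (cont (gR (lv3' b .nil) H (lv3' (p + 1) .nil) B))) := by
          simp only [W, cont_app, cont_node, cont_nil, add_zero, ch_cont, raise_zero]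
        rw [e5, Multiset.count_add, Multiset.count_add, count_raise_lt (by rw [hsupR]; omega)] at hcount
        simp only [Multiset.count_singleton_self] at hcount
        omega
      · right
        have e5 : cont (W (gR (lv3' b .nil) H (lv3' (p + 1) .nil) B) (ch (q + 1)) B
            (Tsq.sq (gR (lv3' b .nil) H (lv3' (p + 1) .nil) B)).1 9) =
            raise (raise (cont (gR (lv3' b .nil) H (lv3' (p + 1) .nil) B))) + {q + 1} := by
          simp only [W, cont_node, cont_nil, add_zero, ch_cont]
        rw [e5, Multiset.count_add, count_raise2 (by omega)] at hcount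
        refine ⟨rfl, ?_, by omega⟩
        by_contra hq1
        obtain rfl : q = 0 := by omega
        simp only [zero_add, Multiset.count_singleton_self] at hcount
        omega
    rw [List.cons.injEq] at hwd
    obtain ⟨-, hwd⟩ := hwd
    have hwd := hwd.symm
    have hp0 : p = 0 := by
      by_contra hp
      obtain ⟨p', rfl⟩ : ∃ p', p = p' + 1 := ⟨p - 1, by omega⟩
      rw [wd_three] at hwd
      have h6 := pre_leJV (t := S) (l := [true, true, false, false, false]) (r := _)
        (by rw [hwd]; simp [co]; rfl) (by simp)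
      simp at h6
    subst hp0
    have hwd : wd S ++ [true, false, false] = true :: true :: true :: (co (wd B) ++ Yl q b H i) := hwd
    have hcB := wd_counts B
    have hcoB : (co (wd B)).count true = B.numNodes ∧ (co (wd B)).count false = B.numNodes := by
      refine ⟨?_, ?_⟩
      · rw [show (co (wd B)).count true = (wd B).count false from Tsq.count_not_true _]
        omega
      · rw [show (co (wd B)).count false = (wd B).count true from Tsq.count_not_false _]
        omega
    have hYl : 3 ≤ (Yl q b H i).length := by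
      rcases hi69 with ⟨rfl, _⟩ | ⟨rfl, _⟩
      · rw [e6]; simp; omega
      · rw [e9]; simp; omega
    -- `B` is empty for `q = 1`
    have hBq : q = 1 → B = .nil := by
      rintro rfl
      by_contra hB0
      obtain ⟨v', hv'⟩ := hg_start (g := 4) (by norm_num)
        (hg_of_cont (by norm_num) (t := B) (fun x hx => h.bare x hx)) hB0
      rw [hv'] at hwd
      have h6 := pre_leJV (t := S) (l := [true, true, true, false, false, false, false])
        (r := co v' ++ Yl 1 b H i) (by rw [hwd]; simp [co, List.replicate_succ])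
        (by rw [List.length_append]; omega)
      simp at h6
    have q01 : q = 0 ∨ q = 1 := by omega
    rcases hi69 with ⟨rfl, h1R⟩ | ⟨rfl, rfl, h1R⟩
    · rw [e6] at hwd
      rcases q01 with rfl | rfl
      · -- `q = 0`
        have h7 : wd S ++ [true, false, false] = (true :: true :: true :: (co (wd B) ++
            [true, false, false, true, true, false, false])) ++ El b H := by
          rw [hwd]
          simp [co, ch, wd]
        obtain ⟨h8, rfl, rfl⟩ := endHJV h7 (by
          simp only [List.count_cons, List.count_append, List.count_nil]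
          rw [hcoB.1, hcoB.2]
          simp) h.light h.H0 (le_trans hHR h1R)
        -- the height of `B`
        have hB3 : Tsq.ht B ≤ 3 := by
          by_cases hB0 : B = .nil
          · subst hB0
            change 0 ≤ 3
            omega
          · obtain ⟨x, y, hxy⟩ := exFMJV hB0
            have h9 := hxy.eq
            have h10 := hxy.top
            have h11 := pre_leJV (t := S) (l := true :: true :: true :: (co x ++ [false]))
              (r := co y ++ ([true, false, false, true, true, false, false] ++ El 0 (.nil △ .nil))) (by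
              rw [h7, h9]
              simp [co]) (by simp; omega)
            simp only [List.count_cons, List.count_append, List.count_nil] at h11
            rw [show (co x).count true = x.count false from Tsq.count_not_true _,
              show (co x).count false = x.count true from Tsq.count_not_false _] at h11
            simp at h11
            omega
        obtain ⟨β, rfl⟩ := hv_three h.hB hB3
        apply hS.exB β
        rw [h8]
        have h12 : ∀ n, true :: true :: true :: co (wd (lv3' n .nil)) =
            wd (lv3' n .nil) ++ [true, true, true] := by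
          intro n
          induction n with
          | zero => rfl
          | succ n ih =>
            rw [wd_three]
            simp only [co, List.map_cons, Bool.not_true, Bool.not_false, List.cons_append,
              List.cons.injEq, true_and]
            exact ih
        have h13 : (true :: true :: true :: (co (wd (lv3' β .nil)) ++
            [true, false, false, true, true, false, false])) ++ [false, false] =
            (true :: true :: true :: co (wd (lv3' β .nil))) ++
              [true, false, false, true, true, false, false, false, false] := by simp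
        rw [h13, h12]
        simp
      · -- `q = 1`
        obtain rfl := hBq rfl
        have h7 : wd S ++ [true, false, false] = [true, true, true, true, false, false, false, true,
            true, true, false, false] ++ El b H := by
          rw [hwd]
          simp [co, ch, wd]
        obtain ⟨h8, rfl, rfl⟩ := endHJV h7 (by decide) h.light h.H0 (le_trans hHR h1R)
        exact hS.exA (by rw [h8]; rfl)
    · obtain rfl := hBq rfl
      rw [e9] at hwd
      have h7 : wd S ++ [true, false, false] = [true, true, true, true, true, false, false, true,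
          true, false, false, false] ++ El b H := by
        rw [hwd]
        simp [co, ch, wd]
      obtain ⟨h8, rfl, rfl⟩ := endHJV h7 (by decide) h.light h.H0 (le_trans hHR h1R)
      have h9 : S = (((((BinaryTree.nil △ .nil) △ ((.nil △ .nil) △ .nil)) △ .nil) △ .nil) △ .nil) := by
        refine (wd_inj _ _ [] [] ?_).1
        rw [h8]
        rfl
      refine not_two_of (S := S) (x := 2) (y := 5) rfl hS.two ?_
      rw [h9]
      decide

/-- **A - JV** -/
theorem TyA.inner_JV (h : TyA F g) (h' : Is9 .nil .nil S F' g') (hS : JVw S)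
    (hb : ∀ c ∈ F, 1 ∈ contc c) (hh : ∀ c ∈ F, ∀ d ∈ F', htc c ≤ htc d) {a : X k × X k}
    (ha : a ∈ g.arcs) : ∀ w ∈ innA a, w ∉ g'.B := by
  intro w hw hw'
  have h1 := h.one hb ha w hw
  have hone := hS.one
  have hS3 := hS.ht3
  have hsupS : (cont S).sup = ht S := (OddHC.ht_eq S).symm
  have n3 : 1 ∉ raise (raise (cont S)) := by
    rw [one_raise_iff (by rw [sup_raise]; omega), one_raise_iff (by omega)]
    exact hone
  have hof := h.inner_of ha (w := w)
  rcases h'.cases9 hw' with e | e | e | e | e | e | ⟨v, e, e1⟩ | ⟨⟨Z, e⟩, _⟩ | ⟨⟨Z, e⟩, _⟩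
  · rw [e, cont_app, Multiset.mem_add] at h1
    rcases h1 with h1 | h1
    · exact hone h1
    · revert h1
      decide
  · refine hof (Or.inr (Or.inl ⟨false :: wd S, ?_⟩)) hw
    rw [e, wd_node, wd_node]; simp [wd]
  · refine hof (Or.inr (Or.inl ⟨wd S ++ [false], ?_⟩)) hw
    rw [e, wd_node, wd_node]; simp [wd]
  · rw [cont_three e] at h1
    exact n3 h1
  · -- word 4
    obtain ⟨d, hd, e1⟩ := h'.exF
    obtain ⟨q, B1, H, s, B, w0, hG, rfl, rfl⟩ := h
    obtain ⟨i, hi, e2⟩ := arcs_cases ha
    rw [e2] at hw
    obtain rfl : w = _ := hw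
    have h2 := hG.cont0 w0
    have h3 : 1 ∈ cont (gX q B1 H s B w0 0).1 := hb _ rfl
    rw [h2, Multiset.mem_add, Multiset.mem_singleton] at h3
    have h4 : 1 ∈ cont (gR B1 H s B) := by
      rcases h3 with h3 | h3
      · exact h3
      · omega
    have h5 := hh _ rfl d hd
    rw [e1, htc_cyc, OddHC.ht_eq (gX q B1 H s B w0 0).1, h2, Multiset.sup_add] at h5
    refine NodeG.not_four hG w0 hi hS h4 ?_ e
    rw [OddHC.ht_eq]
    exact le_trans le_sup_left h5
  · refine hof (Or.inr (Or.inr (Or.inl ⟨true :: (wd S ++ [false]), ?_⟩))) hw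
    rw [e, wd_node, wd_node]; simp [wd]
  · rw [cont_six e e1] at h1
    exact n3 h1
  · refine hof (Or.inr (Or.inr (Or.inl ⟨wd Z, ?_⟩))) hw
    rw [e, wd_app, wd_node]; simp [wd]
  · refine hof (Or.inl ⟨wd Z, ?_⟩) hw
    rw [e, wd_node]; simp [wd]

/-- **T - JV** -/
theorem TyT.inner_JV (h : TyT F g) (h' : Is9 .nil .nil S F' g') (hS : JVw S) :
    ∀ p ∈ g.arcs, ∀ w ∈ innA p, w ∉ g'.B := by
  intro p hp w hw hw'
  obtain ⟨b, m, a, i, hm, e0⟩ := h.innerm p hp w hw
  have hlv : ∀ n : ℕ, cont (lv n .nil) = Multiset.replicate n 1 := by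
    intro n
    induction n with
    | zero => rfl
    | succ n ih =>
      change cont (BinaryTree.nil △ lv n .nil) = _
      rw [cont_node, ih, cont_nil, raise_zero, Multiset.replicate_succ]
      rfl
  have h1 : 1 ∈ cont w.1 := by
    obtain ⟨m, rfl⟩ : ∃ n, m = n + 1 := ⟨m - 1, by omega⟩
    rw [e0, Y3_eq, cont_node, Multiset.mem_add]
    left
    unfold t3F
    rw [cont_app, hlv, cont_node, cont_nil, raise_zero, add_zero]
    unfold raise
    refine Multiset.mem_cons_of_mem ?_
    have e2 : (Multiset.replicate (m + 1) 1 + ({1} : Multiset ℕ)).sup = 1 := by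
      apply le_antisymm
      · apply Multiset.sup_le.2
        intro x hx
        rcases Multiset.mem_add.1 hx with h | h
        · exact le_of_eq (Multiset.eq_of_mem_replicate h)
        · exact le_of_eq (Multiset.mem_singleton.1 h)
      · exact Multiset.le_sup (by simp)
    rw [← Multiset.count_pos, e2, Multiset.count_erase_self, Multiset.count_add,
      Multiset.count_replicate_self, Multiset.count_singleton_self]
    omega
  have hone := hS.one
  have hS3 := hS.ht3
  have hsupS : (cont S).sup = ht S := (OddHC.ht_eq S).symm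
  have n3 : 1 ∉ raise (raise (cont S)) := by
    rw [one_raise_iff (by rw [sup_raise]; omega), one_raise_iff (by omega)]
    exact hone
  have hlen := len_Y3 (b := b) (m := m) (a := a) i
  have hlast := lastB_Y3 (b := b) (m := m) (a := a) i
  have hlight := light_Y3 (b := b) (m := m) (a := a) i
  have hfb := fb_Y3 (b := b) (m := m) (a := a) i
  have hhd : t3hd (t3Y b m a i) = t3F m := rfl
  rw [← e0] at hlen hlast hlight hfb hhd
  rcases h'.cases9 hw' with e | e | e | e | e | e | ⟨v, e, e1⟩ | ⟨⟨Z, e⟩, _⟩ | ⟨⟨Z, e⟩, _⟩
  · rw [e, lastI_app (by simp)] at hlight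
    exact absurd hlight (by simp [lastI, light, isNil])
  · rw [e] at hhd
    obtain ⟨m, rfl⟩ : ∃ n, m = n + 1 := ⟨m - 1, by omega⟩
    have : t3hd ((BinaryTree.nil △ BinaryTree.nil) △ S) = BinaryTree.nil △ BinaryTree.nil := rfl
    rw [this] at hhd
    unfold t3F at hhd
    have e3 : app (lv (m + 1) .nil) (BinaryTree.nil △ BinaryTree.nil) =
        BinaryTree.nil △ app (lv m .nil) (BinaryTree.nil △ BinaryTree.nil) := rfl
    rw [e3] at hhd
    have := (node_inj hhd).2
    cases m <;> simp [lv, app] at this
  · rw [e] at hlen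
    simp [len] at hlen
  · rw [e] at hlen
    simp [len] at hlen
  · rw [e] at hlen
    simp [len] at hlen
  · rw [e] at hlast
    simp [lastB, isNil] at hlast
  · rw [cont_six e e1] at h1
    exact n3 h1
  · rw [e, lastB_app (by simp)] at hlast
    simp [lastB, isNil] at hlast
  · rw [e] at hfb
    simp [fb, isNil] at hfb


/-! ### START and LOW are enough -/

/-- the tree `1111 0011 0000` -/
def T42 : BinaryTree Unit := (((BinaryTree.nil △ .nil) △ ((.nil △ .nil) △ .nil)) △ .nil) △ .nil

theorem T42_FM : FM T42 [true, true, true] [false, false, true, true, false, false, false, false] := by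
  refine ⟨rfl, ?_, by decide⟩
  intro m
  have e : Tsq.ht T42 = 4 := by decide
  rw [e]
  rcases m with _ | _ | _ | m <;> simp

theorem JVok.w (h : JVok S) : JVw S := by
  obtain ⟨c, Y, c3, hS, hcY, hp⟩ := h.start
  have hcS : cont S = {c} + cont Y := by
    obtain ⟨d, rfl⟩ : ∃ d, c = d + 1 := ⟨c - 1, by omega⟩
    rw [hS, cont_app, ch_cont]
  have hY0 : cont Y ≠ 0 := by
    intro h0
    rw [OddHC.ht_eq, h0] at hcY
    simp at hcY
    omega
  have hsY : (cont Y).sup = ht Y := (OddHC.ht_eq Y).symm
  have hmY : ht Y ∈ cont Y := by rw [← hsY]; exact sup_mem hY0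
  refine ⟨h.one, ?_, ?_, ?_, ?_⟩
  · obtain ⟨M, hM⟩ := Multiset.exists_cons_of_mem hmY
    exact ⟨c, ht Y, M, c3, le_trans c3 hcY, by rw [hcS, Multiset.singleton_add, hM]⟩
  · intro e
    rw [hS, wd_app, wd_ch] at e
    obtain ⟨d, rfl⟩ : ∃ d, c = d + 3 := ⟨c - 3, by omega⟩
    rcases d with _ | _ | d
    · simp [List.replicate_succ] at e
    · simp [List.replicate_succ] at e
    · simp [List.replicate_succ] at e
  · intro b e
    have h1 : S = app (lv3' b .nil) T42 := by
      refine (wd_inj _ _ [] [] ?_).1
      rw [e, wd_app]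
      rfl
    have h2 := T42_FM.app_left (P := lv3' b .nil) (by
      have := ht_three b
      have e : Tsq.ht T42 = 4 := by decide
      omega)
    rw [← h1] at h2
    exact (h.low _ _ h2).2 [false, false, false, false] rfl
  · intro q hq hqt hc hx
    rcases Nat.lt_or_ge q 2 with h2 | h2
    · obtain rfl : q = 1 := by omega
      obtain ⟨a, b, h3⟩ := exFMJV h.ne
      have h4 := h.low a b h3
      exact ⟨a, b, h3, h4.1, h4.2⟩
    · have hcm : c ∈ cont S := by rw [hcS]; simp
      have hqm : q + 1 ∈ cont S := Multiset.count_pos.1 (by omega)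
      have hcq : c = q + 1 := by
        rcases hp (q + 1) hqm with h3 | h3
        · omega
        · rcases hx c hcm with h5 | h5 <;> omega
      subst hcq
      have hY : ∀ x ∈ cont Y, q + 3 ≤ x := by
        intro x hxY
        rcases hx x (by rw [hcS]; exact Multiset.mem_add.2 (Or.inr hxY)) with h5 | h5
        · exfalso
          subst h5
          rw [hcS, Multiset.count_add, Multiset.count_singleton_self] at hc
          have := Multiset.count_pos.2 hxY
          omega
        · exact h5
      have hhY : ht Y = ht S := by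
        have h6 : ht S = max (q + 1) (ht Y) := by rw [hS, ht_app, ch_ht]
        omega
      have hgY : hg (q + 3) Y := hg_of_cont (by omega) hY
      obtain ⟨a, b, h7⟩ := hg_FMT (by omega) hgY (by rw [H1.ht_eq]; omega)
      refine ⟨wd (ch (q + 1)) ++ a, b, ?_, ?_, ?_⟩
      · rw [hS]
        exact h7.fm.app_left (by rw [H1.ht_eq, H1.ht_eq, ch_ht]; omega)
      · intro u e
        have r1 : List.replicate (q + 3) true = [true] ++ List.replicate (q + 2) true := rfl
        have r2 : List.replicate (q + 3 + 1) true = [true, true] ++ List.replicate (q + 2) true := rfl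
        obtain ⟨a', ha⟩ : ∃ a', a = a' ++ List.replicate (q + 2) true := by
          rcases h7.up with rfl | ⟨a', ha⟩ | ⟨a', ha⟩
          · exact ⟨[true], r1⟩
          · exact ⟨a' ++ [true, true], by rw [ha, r2]; simp⟩
          · exact ⟨a' ++ (List.replicate (q + 3) false ++ [true]), by rw [ha, r1]; simp⟩
        rw [ha, ← List.append_assoc] at e
        refine rep_ne_endJV (x := true) (n := q + 1) (m := q + 2) (by omega)
          (u := u ++ List.replicate q false) (v := wd (ch (q + 1)) ++ a') ?_
        rw [e, List.replicate_succ' (n := q) (a := false)]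
        simp
      · intro v e
        have r1 : List.replicate (q + 3) false = List.replicate (q + 1 + 1) false ++ [false] := by
          rw [List.replicate_succ' (n := q + 2)]
        have r2 : List.replicate (q + 3 + 1) false =
            List.replicate (q + 1 + 1) false ++ [false, false] := by
          rw [List.replicate_succ' (n := q + 3), r1]
          simp
        obtain ⟨r, hr⟩ : ∃ r, b = List.replicate (q + 1 + 1) false ++ r := by
          rcases h7.dn with ⟨r, hr⟩ | ⟨r, hr⟩
          · exact ⟨[false, false] ++ r, by rw [hr, r2, List.append_assoc]⟩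
          · exact ⟨[false] ++ (List.replicate (q + 3) true ++ r), by
              rw [hr, r1, List.append_assoc]⟩
        rw [hr] at e
        exact rep_neJV (x := false) (n := q + 1) (m := q + 1 + 1) (by omega)
          (u := List.replicate q true ++ v) (v := r) e.symm

end Pool.OddHC
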