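import Pool.Agent.Work.MP_8f87b2_h54.JVmw
import Pool.Agent.Work.MP_8f87b2_h60.TyB0
import Pool.Agent.Work.MP_8f87b2_h13.R3In

/-!
MP_8f87b2_co: the inner words of the windows R3, S3, B0 against the nine words of the pair gadgets JV = `Is9 nil nil S`
and JVm = `Is9M nil nil S` (helper33; A, A0, T: h33/InJV, h54/JVmw). No side condition on `S` besides `1 ∉ cont S`, `3 ≤ ht S`.

`JVw.of_end`, `JVw.mir_end`: every `S = Y(())` without part 1 and with two parts `≥ 3` satisfies `JVw S` and `JVw (mir S)`.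
-/

set_option autoImplicit false

namespace Pool.OddHC

open Finset Equiv BinaryTree Pool.Agent.Work.MP_8f87b2_co

open H1

variable {k : ℕ} {S : BinaryTree Unit} {F F' : Set (Cyc k)} {g g' : DG k}

/-- the content of the words 3 and 6 of both gadgets -/
theorem cont36 {w : X k} (h : w.1 = (S △ .nil) △ .nil ∨ ∃ v : X k, v.1 = (S △ .nil) △ .nil ∧
    (TT (TT v) = w ∨ TT (TT w) = v)) : cont w.1 = raise (raise (cont S)) := by
  rcases h with e | ⟨v, e, e1 | e1⟩
  · exact cont_three e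
  · exact cont_six e e1
  · exact JVM.cont6 e e1

section Bare

variable {q : ℕ} {R B Sr : BinaryTree Unit}

/-- **bare windows, both orientations**: only the inner word of the link 9 > 17 can have the content of `((S))` -/
theorem _root_.Pool.OddHC.HM.NodeM.nine (h : HM.NodeM k q R B Sr) (w0 : X k) {i : ℕ}
    (hi : i ∈ [0, 1, 3, 6, 8, 9]) {w : X k}
    (hw : w = TT (wX R B Sr q w0 i) ∨ w = Tsq.mirX (TT (wX R B Sr q w0 i)))
    (hone : 1 ∉ cont S) (hS3 : 3 ≤ ht S) (hh : ht R ≤ ht S) (hce : cont w.1 = raise (raise (cont S))) :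
    i = 9 ∧ 1 ≤ q ∧ ht S = ht R ∧ raise (raise (cont S)) = raise (raise (cont R)) + {q + 1} := by
  obtain ⟨c1, c2, c3⟩ := h.winn w0 hi hw
  have htop := h.top
  have hsupS : (cont S).sup = ht S := (OddHC.ht_eq S).symm
  have hsupR : (cont R).sup = ht R := (OddHC.ht_eq R).symm
  rw [c1] at hce
  have hno1 : (cont (W R (ch (q + 1)) B Sr i)).count 1 = 0 := by
    rw [hce, count_raise2 (by omega)]
    exact Multiset.count_eq_zero_of_notMem hone
  have hsup : ht (W R (ch (q + 1)) B Sr i) = ht S + 2 := by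
    rw [OddHC.ht_eq, hce, sup_raise, sup_raise, hsupS]
  have h00 : OddHC.ht (BinaryTree.nil : BinaryTree Unit) = 0 := rfl
  have r0 : (raise (cont (BinaryTree.nil : BinaryTree Unit))).count 1 = 1 := by
    rw [cont_nil, raise_zero]; rfl
  have hQ := ch_ht (q + 1)
  have hQ2 := ch_ht (q + 2)
  simp only [List.mem_cons, List.not_mem_nil, or_false] at hi
  rcases hi with rfl | rfl | rfl | rfl | rfl | rfl
  · exfalso
    simp only [W, ht_app, ht_node, hQ, h00] at hsup
    omega
  · exfalso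
    simp only [W, ht_app, ht_node, hQ, h00] at hsup
    omega
  · exfalso
    simp only [W, cont_node, cont_nil, add_zero] at hno1
    rw [count_raise_lt (by
      rw [cont_app, Multiset.sup_add, hsupR]
      exact lt_of_lt_of_le (show 1 < ht R by omega) le_sup_left), cont_app, Multiset.count_add,
      cont_node, Multiset.count_add, r0] at hno1
    omega
  · exfalso
    simp only [W, ht_node, hQ, h00] at hsup
    omega
  · exfalso
    simp only [W, cont_app, cont_node, Multiset.count_add, r0] at hno1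
    omega
  · have hW9 : cont (W R (ch (q + 1)) B Sr 9) = raise (raise (cont R)) + {q + 1} := by
      simp only [W, cont_node, cont_nil, add_zero, ch_cont]
    have hq1 : 1 ≤ q := by
      by_contra hq
      obtain rfl : q = 0 := by omega
      rw [hW9, Multiset.count_add] at hno1
      simp at hno1
    simp only [W, ht_node, hQ, h00] at hsup
    exact ⟨rfl, hq1, by omega, by rw [← hce, hW9]⟩

/-- **bare windows, both orientations, against JV and JVm**, words other than 9, or `q = 0`: no side condition -/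
theorem _root_.Pool.OddHC.HM.NodeM.not_JVb (h : HM.NodeM k q R B Sr) (w0 : X k) {i : ℕ}
    (hi : i ∈ [0, 1, 3, 6, 8, 9]) (hi9 : i = 9 → q = 0) {w : X k}
    (hw : w = TT (wX R B Sr q w0 i) ∨ w = Tsq.mirX (TT (wX R B Sr q w0 i)))
    (hone : 1 ∉ cont S) (hS3 : 3 ≤ ht S) (hh : ht R ≤ ht S)
    (h' : Is9 .nil .nil S F' g' ∨ Is9M .nil .nil S F' g') : w ∉ g'.B := by
  intro hm
  have hin : InnP (q + 3) w.1 := by
    rcases hw with rfl | rfl
    · exact (h.inn w0 hi).1
    · exact (h.inn w0 hi).2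
  have h36 : w.1 = (S △ .nil) △ .nil ∨ ∃ v : X k, v.1 = (S △ .nil) △ .nil ∧
      (TT (TT v) = w ∨ TT (TT w) = v) := by
    rcases h' with h' | h'
    · rcases hin.only h' hm with e | ⟨v, e, e1⟩
      · exact Or.inl e
      · exact Or.inr ⟨v, e, Or.inl e1⟩
    · rcases hin.onlyM h' hm with e | ⟨v, e, e1⟩
      · exact Or.inl e
      · exact Or.inr ⟨v, e, Or.inr e1⟩
  obtain ⟨h9, hq, _, _⟩ := h.nine w0 hi hw hone hS3 hh (cont36 h36)
  have := hi9 h9
  omega

end Bare

/-! ### The rows -/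

/-- the height of the group of a right window -/
theorem _root_.Pool.OddHC.HM.NodeM.ht0r {q : ℕ} {R B Sr : BinaryTree Unit} (h : HM.NodeM k q R B Sr) (w0 : X k) :
    htc (cyc (wX R B Sr q w0 0)) = ht R := by
  have hQ := ch_ht (q + 1)
  have h00 : OddHC.ht (BinaryTree.nil : BinaryTree Unit) = 0 := rfl
  have := h.top
  rw [htc_cyc, wX_eq h.dat h.size w0 (by norm_num)]
  simp only [W, ht_app, ht_node, hQ, h00]
  omega

theorem JVb.exF (h : Is9 .nil .nil S F g ∨ Is9M .nil .nil S F g) : ∃ d ∈ F, htc d = ht S := by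
  rcases h with h | h
  · exact h.exF
  · exact JVM.exF h

open HM in
/-- **I-R3-JV, I-R3-JVm** -/
theorem TyR3.inner_JVb (h : TyR3 F g) (h' : Is9 .nil .nil S F' g' ∨ Is9M .nil .nil S F' g')
    (hone : 1 ∉ cont S) (hS3 : 3 ≤ ht S) (hh : ∀ c ∈ F, ∀ d ∈ F', htc c ≤ htc d) :
    ∀ p ∈ g.arcs, ∀ w ∈ innA p, w ∉ g'.B := by
  intro p hp w hw
  obtain ⟨R, B, Sr, w0, i, h1, hi, rfl, hm⟩ := h.inn0 p hp w hw
  obtain ⟨d, hd, e1⟩ := JVb.exF h'
  have h3 := hh _ hm d hd
  rw [e1, h1.ht0r w0] at h3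
  exact h1.not_JVb w0 hi (fun _ => rfl) (Or.inl rfl) hone hS3 h3 h'

open HM in
/-- **I-S3-JV, I-S3-JVm** -/
theorem TyS3.inner_JVb (h : TyS3 F g) (h' : Is9 .nil .nil S F' g' ∨ Is9M .nil .nil S F' g')
    (hone : 1 ∉ cont S) (hS3 : 3 ≤ ht S) (hh : ∀ c ∈ F, ∀ d ∈ F', htc c ≤ htc d) :
    ∀ p ∈ g.arcs, ∀ w ∈ innA p, w ∉ g'.B := by
  intro p hp w hw
  obtain ⟨R, B, Sr, w0, i, h1, hi, rfl, hm⟩ := h.inn0 p hp w hw
  obtain ⟨d, hd, e1⟩ := JVb.exF h'
  have h3 := hh _ hm d hd
  rw [e1, h1.ht0r w0] at h3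
  exact h1.not_JVb w0 (mem_S3_R3 hi) (fun _ => rfl) (Or.inl rfl) hone hS3 h3 h'

open HM in
/-- **I-B0-JV, I-B0-JVm** -/
theorem TyB0.inner_JVb (h : TyB0 F g) (h' : Is9 .nil .nil S F' g' ∨ Is9M .nil .nil S F' g')
    (hone : 1 ∉ cont S) (hS3 : 3 ≤ ht S) (hh : ∀ c ∈ F, ∀ d ∈ F', htc c ≤ htc d) :
    ∀ p ∈ g.arcs, ∀ w ∈ innA p, w ∉ g'.B := by
  obtain ⟨q, R, B, Sr, w0, h1, hne, h12, h18, rfl, rfl⟩ := h
  intro p hp w hw
  obtain ⟨d, hd, e1⟩ := JVb.exF h'
  have h3 := hh _ (Or.inl rfl) d hd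
  rw [e1, htc_cyc, h1.ht012 w0 (Or.inl rfl)] at h3
  have key : ∀ i j, (i, j) ∈ [(0, 10), (1, 11), (3, 12), (6, 15), (8, 14), (9, 17)] → i ∈ [0, 1, 3, 6, 8, 9] →
      i ≠ 9 → p = (mX R B Sr q w0 j, mX R B Sr q w0 i) → w ∉ g'.B := by
    rintro i j hij hi hi9 rfl
    have hw' : w = TT (mX R B Sr q w0 j) := hw
    rw [inner_mir h1 w0 hij] at hw'
    exact h1.not_JVb w0 hi (fun h9 => absurd h9 hi9) (Or.inr hw') hone hS3 h3 h'
  have hp' : p = (mX R B Sr q w0 12, mX R B Sr q w0 3) ∨ p = (mX R B Sr q w0 15, mX R B Sr q w0 6) ∨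
      p = (mX R B Sr q w0 14, mX R B Sr q w0 8) := hp
  rcases hp' with e | e | e
  · exact key 3 12 (by simp) (by simp) (by norm_num) e
  · exact key 6 15 (by simp) (by simp) (by norm_num) e
  · exact key 8 14 (by simp) (by simp) (by norm_num) e

/-! ### Phases `S = Y(())` -/

/-- both sides of the first maximum of a tree with all parts at least `q + 3` -/
theorem _root_.Pool.OddHC.H1.FMT.ends {q : ℕ} {Y : BinaryTree Unit} {a b : List Bool} (h : FMT (q + 3) Y a b) :
    (∃ a', a = a' ++ List.replicate (q + 2) true) ∧ ∃ r, b = List.replicate (q + 2) false ++ r := by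
  have r1 : List.replicate (q + 3) true = [true] ++ List.replicate (q + 2) true := rfl
  have r2 : List.replicate (q + 3 + 1) true = [true, true] ++ List.replicate (q + 2) true := rfl
  have r3 : List.replicate (q + 3) false = List.replicate (q + 2) false ++ [false] := by
    rw [List.replicate_succ' (n := q + 2)]
  have r4 : List.replicate (q + 3 + 1) false = List.replicate (q + 2) false ++ [false, false] := by
    rw [List.replicate_succ' (n := q + 3), r3]
    simp
  constructor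
  · rcases h.up with rfl | ⟨a', ha⟩ | ⟨a', ha⟩
    · exact ⟨[true], r1⟩
    · exact ⟨a' ++ [true, true], by rw [ha, r2]; simp⟩
    · exact ⟨a' ++ (List.replicate (q + 3) false ++ [true]), by rw [ha, r1]; simp⟩
  · rcases h.dn with ⟨r, hr⟩ | ⟨r, hr⟩
    · exact ⟨[false, false] ++ r, by rw [hr, r4, List.append_assoc]⟩
    · exact ⟨[false] ++ (List.replicate (q + 3) true ++ r), by rw [hr, r3, List.append_assoc]⟩

/-- the condition `gap` for one bead `(())`, `c ≥ 4`: `S = P Y Z`, all parts of `Y` at least 4 -/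
theorem gap_of {P Y Z : BinaryTree Unit} (hS : S = app P (app Y Z)) (hY : ∀ x ∈ cont Y, 4 ≤ x) (h4 : 4 < ht Y)
    (hP : ht P < ht Y) (hZ : ht Z ≤ ht Y) : ∃ a b, FM S a b ∧
      (∀ u, a ≠ u ++ (List.replicate 2 false ++ List.replicate 2 true)) ∧
      ∀ v, b ≠ List.replicate 2 false ++ (List.replicate 2 true ++ v) := by
  have hgY : hg (1 + 3) Y := hg_of_cont (by omega) hY
  obtain ⟨a, b, h7⟩ := hg_FMT (by omega) hgY (by rw [H1.ht_eq]; omega)
  obtain ⟨⟨a', rfl⟩, r, rfl⟩ := h7.ends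
  have h8 := (h7.fm.app_right (Z := Z) (by rw [H1.ht_eq, H1.ht_eq]; exact hZ)).app_left (P := P) (by
    rw [Tsq.ht_app, H1.ht_eq, H1.ht_eq, H1.ht_eq]; omega)
  rw [← hS] at h8
  refine ⟨_, _, h8, ?_, ?_⟩
  · intro u e
    refine rep_ne_endJV (x := true) (n := 2) (m := 3) (by omega) (u := u ++ [false]) (v := wd P ++ a') ?_
    have e2 : u ++ [false] ++ (!true) :: List.replicate 2 true =
        u ++ (List.replicate 2 false ++ List.replicate 2 true) := by
      simp [List.replicate_succ]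
    rw [e2, ← e, List.append_assoc]
  · intro v e
    refine rep_neJV (x := false) (n := 2) (m := 3) (by omega) (u := [true] ++ v) (v := r ++ wd Z) ?_
    have e2 : List.replicate 2 false ++ (!false) :: ([true] ++ v) =
        List.replicate 2 false ++ (List.replicate 2 true ++ v) := by
      simp [List.replicate_succ]
    rw [e2, ← e, List.append_assoc]

/-- the parts of a phase with one bead `(())` at an end -/
theorem parts_end {Y : BinaryTree Unit} {q : ℕ} (hq : 1 ≤ q) (hc : (cont Y + {2}).count (q + 1) = 1)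
    (hx : ∀ x ∈ cont Y + {2}, x = q + 1 ∨ q + 3 ≤ x) : q = 1 ∧ ∀ x ∈ cont Y, 4 ≤ x := by
  have h2 := hx 2 (by simp)
  obtain rfl : q = 1 := by omega
  refine ⟨rfl, ?_⟩
  intro x hxY
  rcases hx x (Multiset.mem_add.2 (Or.inl hxY)) with h3 | h3
  · exfalso
    have h4 := Multiset.count_pos.2 hxY
    have h5 : ({2} : Multiset ℕ).count (1 + 1) = 1 := rfl
    rw [h3] at h4
    rw [Multiset.count_add, h5] at hc
    omega
  · exact h3

/-- **every phase `Y(())`** -/
theorem JVw.of_end {Y : BinaryTree Unit} (hS : S = app Y ((.nil △ .nil) △ .nil)) (one : 1 ∉ cont S)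
    (two : ∃ x y M, 3 ≤ x ∧ 3 ≤ y ∧ cont S = x ::ₘ y ::ₘ M) : JVw S := by
  have hcS : cont S = cont Y + {2} := by rw [hS, cont_app]; rfl
  refine ⟨one, two, ?_, ?_, ?_⟩
  · intro e
    rw [hS, wd_app] at e
    have e1 := congrArg List.reverse e
    simp [wd] at e1
  · intro b e
    rw [hS, wd_app] at e
    have e1 := congrArg List.reverse e
    simp [wd] at e1
  · intro q hq hqt hc hx
    rw [hcS] at hc hx
    obtain ⟨rfl, hY⟩ := parts_end hq hc hx
    have h2 : ht ((BinaryTree.nil △ .nil : BinaryTree Unit) △ .nil) = 2 := rfl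
    have hhS : ht S = max (ht Y) 2 := by rw [hS, ht_app, h2]
    have h00 : OddHC.ht (BinaryTree.nil : BinaryTree Unit) = 0 := rfl
    exact gap_of (P := .nil) (Z := (.nil △ .nil) △ .nil) (Y := Y) (by rw [hS]; rfl) hY (by omega) (by omega)
      (by omega)

/-- **the mirror image of every phase `Y(())`** -/
theorem JVw.mir_end {Y : BinaryTree Unit} (hS : S = app Y ((.nil △ .nil) △ .nil)) (one : 1 ∉ cont S)
    (two : ∃ x y M, 3 ≤ x ∧ 3 ≤ y ∧ cont S = x ::ₘ y ::ₘ M) : JVw (Tsq.mir S) := by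
  have hcS : cont S = cont Y + {2} := by rw [hS, cont_app]; rfl
  have hm : Tsq.mir S = app ((.nil △ .nil) △ .nil) (Tsq.mir Y) := by
    rw [hS, Tsq.mir_app]; rfl
  refine ⟨by rw [HM.cont_mir]; exact one, by rw [HM.cont_mir]; exact two, ?_, ?_, ?_⟩
  · intro e
    rw [hm, wd_app] at e
    simp [wd] at e
  · intro b e
    rw [hm, wd_app] at e
    cases b with
    | zero => simp [wd, lv3'] at e
    | succ b => rw [wd_three] at e; simp [wd] at e
  · intro q hq hqt hc hx
    rw [HM.cont_mir, hcS] at hc hx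
    obtain ⟨rfl, hY⟩ := parts_end hq hc hx
    have h2 : ht ((BinaryTree.nil △ .nil : BinaryTree Unit) △ .nil) = 2 := rfl
    have hhS : ht S = max (ht Y) 2 := by rw [hS, ht_app, h2]
    have h00 : OddHC.ht (BinaryTree.nil : BinaryTree Unit) = 0 := rfl
    rw [OddHC.ht_mir] at hqt
    exact gap_of (P := (.nil △ .nil) △ .nil) (Z := .nil) (Y := Tsq.mir Y) (by rw [hm, H1.app_nil])
      (by rw [HM.cont_mir]; exact hY) (by rw [OddHC.ht_mir]; omega) (by rw [OddHC.ht_mir]; omega) (by omega)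

end Pool.OddHC
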