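import Pool.Agent.Work.MP_8f87b2_h33.InJVm
import Pool.Agent.Work.MP_8f87b2_h13.TyRq

/-!
MP_8f87b2_co: the inner words of the right bare windows `TyRq q`, `TySq q` (every `q`) against JV = `Is9 nil nil S` and
JVm = `Is9M nil nil S` (helper33).

`HM.NodeM.nine_JV`: word 9 of a right window against JV: only `T (w 9) = ((S))` or `T² ((S))`, excluded by `JVw S` (`gap`).
`HM.NodeM.nine_JVm`: against JVm, excluded by `JVw S` and `JVw (mir S)`.
-/

set_option autoImplicit false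

namespace Pool.OddHC

open Finset Equiv BinaryTree Pool.Agent.Work.MP_8f87b2_co

open H1

variable {k : ℕ} {S : BinaryTree Unit} {F F' : Set (Cyc k)} {g g' : DG k}

section Bare

variable {q : ℕ} {R B Sr : BinaryTree Unit}

/-- the word of word 9 -/
theorem _root_.Pool.OddHC.HM.NodeM.wd9 (h : HM.NodeM k q R B Sr) (w0 : X k) :
    wd (wX R B Sr q w0 9).1 = (true :: true :: (wd R ++ [false, false])) ++
      (List.replicate (q + 1) true ++ List.replicate (q + 1) false) := by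
  rw [wX_eq h.dat h.size w0 (by norm_num)]
  simp only [W, wd_node, wd_ch]
  simp [wd]

/-- the word of word 17 -/
theorem _root_.Pool.OddHC.HM.NodeM.wd17 (h : HM.NodeM k q R B Sr) (w0 : X k) :
    wd (wX R B Sr q w0 17).1 = List.replicate (q + 1) true ++ (List.replicate (q + 1) false ++
      (true :: (wd (Sr △ B) ++ [false]))) := by
  rw [wX_eq h.dat h.size w0 (by norm_num)]
  simp only [W, wd_app, wd_node, wd_ch]
  simp [wd]

/-- the mirror image of word 17 -/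
theorem _root_.Pool.OddHC.HM.NodeM.wd17m (h : HM.NodeM k q R B Sr) (w0 : X k) :
    wd (Tsq.mirX (wX R B Sr q w0 17)).1 = (true :: (((wd (Sr △ B)).map not).reverse ++ [false])) ++
          (List.replicate (q + 1) true ++ List.replicate (q + 1) false) := by
  change wd (Tsq.mir (wX R B Sr q w0 17).1) = _
  rw [Tsq.wd_mir, h.wd17 w0]
  simp

/-- **word 9 of a right window against JV** -/
theorem _root_.Pool.OddHC.HM.NodeM.nine_JV (h : HM.NodeM k q R B Sr) (w0 : X k)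
    (h' : Is9 .nil .nil S F' g') (hS : JVw S) (hh : ht R ≤ ht S) : TT (wX R B Sr q w0 9) ∉ g'.B := by
  intro hm
  have hi : (9 : ℕ) ∈ [0, 1, 3, 6, 8, 9] := by simp
  have hin := (h.inn w0 hi).1
  have h36 := hin.only h' hm
  obtain ⟨-, hq, hts, hce⟩ := h.nine w0 hi (Or.inl rfl) hS.one hS.ht3 hh (cont36 (by
    rcases h36 with e | ⟨v, e, e1⟩
    · exact Or.inl e
    · exact Or.inr ⟨v, e, Or.inl e1⟩))
  have key : Key q R S := ⟨hS, hq, h.top, h.part, hts, hce⟩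
  rcases h36 with e | ⟨v, e, e1⟩
  · have h5 : TT (TT (wX R B Sr q w0 9)) = wX R B Sr q w0 17 := wX_link h.dat h.size w0 (by simp)
    exact key.not_three e (by rw [h5]; exact h.wd17 w0)
  · have h5 : TT v = wX R B Sr q w0 9 := TT.injective e1
    exact key.not_six e (by rw [h5]; exact h.wd9 w0)

/-- **word 9 of a right window against JVm** -/
theorem _root_.Pool.OddHC.HM.NodeM.nine_JVm (h : HM.NodeM k q R B Sr) (w0 : X k)
    (h' : Is9M .nil .nil S F' g') (hS : JVw S) (hSm : JVw (Tsq.mir S)) (hh : ht R ≤ ht S) :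
    TT (wX R B Sr q w0 9) ∉ g'.B := by
  intro hm
  have hi : (9 : ℕ) ∈ [0, 1, 3, 6, 8, 9] := by simp
  have hin := (h.inn w0 hi).1
  have h36 := hin.onlyM h' hm
  obtain ⟨-, hq, hts, hce⟩ := h.nine w0 hi (Or.inl rfl) hS.one hS.ht3 hh (cont36 (by
    rcases h36 with e | ⟨v, e, e1⟩
    · exact Or.inl e
    · exact Or.inr ⟨v, e, Or.inr e1⟩))
  have h5 : TT (TT (wX R B Sr q w0 9)) = wX R B Sr q w0 17 := wX_link h.dat h.size w0 (by simp)
  rcases h36 with e | ⟨v, e, e1⟩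
  · have key : Key q R S := ⟨hS, hq, h.top, h.part, hts, hce⟩
    exact key.not_three e (by rw [h5]; exact h.wd17 w0)
  · have key : Key q R (Tsq.mir S) := ⟨hSm, hq, h.top, h.part, by rw [OddHC.ht_mir]; exact hts, by
      rw [HM.cont_mir]; exact hce⟩
    have h7 : TT (Tsq.mirX v) = Tsq.mirX (wX R B Sr q w0 17) := by
      rw [← e1, h5]
      exact Tsq.TT_mir _
    have h9 : (Tsq.mirX v).1 = (Tsq.mir S △ .nil) △ .nil := by
      change Tsq.mir v.1 = _
      apply wd_ext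
      rw [Tsq.wd_mir, e]
      simp only [wd_node, Tsq.wd_mir]
      simp [wd]
    exact key.not_six h9 (by rw [h7]; exact h.wd17m w0)

end Bare

open HM in
/-- **I-Rq-JV** -/
theorem TyRq.inner_JV {q : ℕ} (h : TyRq q F g) (h' : Is9 .nil .nil S F' g') (hS : JVw S)
    (hh : ∀ c ∈ F, ∀ d ∈ F', htc c ≤ htc d) : ∀ p ∈ g.arcs, ∀ w ∈ innA p, w ∉ g'.B := by
  intro p hp w hw
  obtain ⟨R, B, Sr, w0, i, h1, hi, rfl, hm⟩ := h.inn0 p hp w hw
  obtain ⟨d, hd, e1⟩ := h'.exF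
  have h3 := hh _ hm d hd
  rw [e1, h1.ht0r w0] at h3
  by_cases h9 : i = 9
  · subst h9
    exact h1.nine_JV w0 h' hS h3
  · exact h1.not_JVb w0 hi (fun h => absurd h h9) (Or.inl rfl) hS.one hS.ht3 h3 (Or.inl h')

open HM in
/-- **I-Rq-JVm** -/
theorem TyRq.inner_JVm {q : ℕ} (h : TyRq q F g) (h' : Is9M .nil .nil S F' g') (hS : JVw S)
    (hSm : JVw (Tsq.mir S)) (hh : ∀ c ∈ F, ∀ d ∈ F', htc c ≤ htc d) :
    ∀ p ∈ g.arcs, ∀ w ∈ innA p, w ∉ g'.B := by
  intro p hp w hw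
  obtain ⟨R, B, Sr, w0, i, h1, hi, rfl, hm⟩ := h.inn0 p hp w hw
  obtain ⟨d, hd, e1⟩ := JVM.exF h'
  have h3 := hh _ hm d hd
  rw [e1, h1.ht0r w0] at h3
  by_cases h9 : i = 9
  · subst h9
    exact h1.nine_JVm w0 h' hS hSm h3
  · exact h1.not_JVb w0 hi (fun h => absurd h h9) (Or.inl rfl) hS.one hS.ht3 h3 (Or.inr h')

open HM in
/-- **I-Sq-JV, I-Sq-JVm**: no side condition -/
theorem TySq.inner_JVb {q : ℕ} (h : TySq q F g) (h' : Is9 .nil .nil S F' g' ∨ Is9M .nil .nil S F' g')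
    (hone : 1 ∉ cont S) (hS3 : 3 ≤ ht S) (hh : ∀ c ∈ F, ∀ d ∈ F', htc c ≤ htc d) :
    ∀ p ∈ g.arcs, ∀ w ∈ innA p, w ∉ g'.B := by
  intro p hp w hw
  obtain ⟨R, B, Sr, w0, i, h1, hi, rfl, hm⟩ := h.inn0 p hp w hw
  obtain ⟨d, hd, e1⟩ := JVb.exF h'
  have h3 := hh _ hm d hd
  rw [e1, h1.ht0r w0] at h3
  have h9 : i ≠ 9 := by
    rintro rfl
    simp at hi
  exact h1.not_JVb w0 (by
    simp only [List.mem_cons, List.not_mem_nil, or_false] at hi ⊢
    omega) (fun h => absurd h h9) (Or.inl rfl) hone hS3 h3 h'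

end Pool.OddHC
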