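import Pool.Agent.Work.MP_8f87b2_h33.HvG3
import Pool.Agent.Work.MP_8f87b2_h63.BWr
import Pool.Agent.Work.MP_8f87b2_h12.RqA

/-!
MP_8f87b2_co: **rows of the right windows with all parts at least 3, `q ≥ 1` (TyBw with a marker `≥ 3`, TyRq q / TySq q
with `1 ≤ q`, ...) against ALL windows A** (TyA with every light `H`: TyAp, TyAq, TyAz): inner rows, both directions,
without any condition; word rows against TyAo (TyAp, TyAz), TyAq (helper33).
-/

set_option autoImplicit false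

namespace Pool.OddHC

open Finset Equiv BinaryTree HM Pool.Agent.Work.MP_8f87b2_co

variable {k q : ℕ} {F F' : Set (Cyc k)} {g g' : DG k}

theorem HM.HvW.bare {R B S : BinaryTree Unit} (h : HvW k q R B S) : Bare R B S where
  hR := H1.hv_of_cont h.p3
  R0 := h.ne
  hB := H1.hv_of_cont h.pB
  hS := H1.hv_of_cont h.pS
  S0 := by
    rintro rfl
    have h1 := h.dat.htS
    have h2 := h.top
    have h3 : OddHC.ht (BinaryTree.nil : BinaryTree Unit) = 0 := rfl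
    omega

/-- **word row** -/
theorem HM.HvW.disjG {R B S : BinaryTree Unit} (h : HvW k q R B S) {q' : ℕ} {B1 H s B' : BinaryTree Unit}
    (h' : H1.NodeG k q' B1 H s B') (hH : Hok q H s ∨ q' < q) (w0 w0' : X k) {i j : ℕ} (hi : i < 20)
    (hj : j < 20) : H1.wX R B S q w0 i ≠ H1.gX q' B1 H s B' w0' j := by
  intro e
  have e1 := congrArg Subtype.val e
  rw [h'.word w0' hj, H1.wX_eq h.dat h.size w0 hi] at e1
  rcases hH with hH | hq
  · refine W_Wr h'.adm h.bare ?_ hj hi e1.symm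
    intro X Y hX X0 hq e2
    unfold H1.gR at e2
    have hB1 := h'.h1
    cases B1 with
    | nil => exact hH hq X hX X0 (H1.node_inj e2).1
    | node _ A C =>
      have e3 : A = app (H1.ch (q + 1)) (.nil △ X) := (H1.node_inj e2).1
      rcases hB1.1 with e4 | ⟨_, e4⟩
      · rw [e4] at e3
        have := congrArg H1.len e3
        rw [H1.ch_succ] at this
        simp [H1.len, app] at this
      · rw [e3] at e4
        have := H1.hv_sb e4
        rw [H1.ch_succ] at this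
        simp [H1.sb, H1.fb, H1.isNil, app] at this
  · exact W_Wq h'.adm h.bare hq h.dat.bare hj hi e1.symm

/-- the words and inner words of a gadget are those of right windows with all parts at least 3, `q ≥ 1` -/
structure HvD (g : DG k) : Prop where
  words : ∀ w ∈ g.B, ∃ (q : ℕ) (R B S : BinaryTree Unit) (w0 : X k) (i : ℕ),
    HvW k q R B S ∧ R ≠ app (pc 3) (pc 4) ∧ i < 20 ∧ w = H1.wX R B S q w0 i
  inn : ∀ p ∈ g.arcs, ∀ w ∈ innA p, ∃ (q : ℕ) (R B S : BinaryTree Unit) (w0 : X k) (i : ℕ),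
    HvW k q R B S ∧ R ≠ app (pc 3) (pc 4) ∧ i ∈ [0, 1, 3, 6, 8, 9] ∧ w = TT (H1.wX R B S q w0 i)

/-- the inner words of a window A -/
theorem TyA.inn33 (h : TyA F g) : ∀ p ∈ g.arcs, ∀ w ∈ innA p, ∃ (q : ℕ) (B1 H s B : BinaryTree Unit) (w0 : X k)
    (i : ℕ), H1.NodeG k q B1 H s B ∧ i ∈ [0, 1, 3, 6, 8, 9] ∧ w = TT (H1.gX q B1 H s B w0 i) := by
  obtain ⟨q, B1, H, s, B, w0, h1, rfl, rfl⟩ := h
  intro p hp w hw
  have hw' : w = TT p.1 := hw
  subst hw'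
  have hp' : p = (H1.gX q B1 H s B w0 0, _) ∨ p = (H1.gX q B1 H s B w0 1, _) ∨
      p = (H1.gX q B1 H s B w0 3, _) ∨ p = (H1.gX q B1 H s B w0 6, _) ∨
      p = (H1.gX q B1 H s B w0 8, _) ∨ p = (H1.gX q B1 H s B w0 9, _) := hp
  rcases hp' with rfl | rfl | rfl | rfl | rfl | rfl
  · exact ⟨q, B1, H, s, B, w0, 0, h1, by simp, rfl⟩
  · exact ⟨q, B1, H, s, B, w0, 1, h1, by simp, rfl⟩
  · exact ⟨q, B1, H, s, B, w0, 3, h1, by simp, rfl⟩
  · exact ⟨q, B1, H, s, B, w0, 6, h1, by simp, rfl⟩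
  · exact ⟨q, B1, H, s, B, w0, 8, h1, by simp, rfl⟩
  · exact ⟨q, B1, H, s, B, w0, 9, h1, by simp, rfl⟩

theorem TyA.words33 (h : TyA F g) : ∀ w ∈ g.B, ∃ (q : ℕ) (B1 H s B : BinaryTree Unit) (w0 : X k)
    (i : ℕ), H1.NodeG k q B1 H s B ∧ i < 20 ∧ w = H1.gX q B1 H s B w0 i := by
  obtain ⟨q, B1, H, s, B, w0, h1, rfl, rfl⟩ := h
  intro w hw
  obtain ⟨i, hi, rfl⟩ := mem_gad20.1 hw
  exact ⟨q, B1, H, s, B, w0, i, h1, hi, rfl⟩

/-- **inner words of the window, ALL windows A** -/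
theorem HvD.inner_A (h : HvD g) (h' : TyA F' g') : ∀ p ∈ g.arcs, ∀ w ∈ innA p, w ∉ g'.B := by
  intro p hp w hw hw'
  obtain ⟨q, R, B, S, w0, i, h1, h2, hi, rfl⟩ := h.inn p hp w hw
  obtain ⟨q', B1, H, s, B', w0', j, h3, hj, e⟩ := h'.words33 _ hw'
  exact h1.rinner_GG h2 w0 hi h3 w0' hj e

/-- **inner words of ALL windows A, the window** -/
theorem HvD.A_inner (h : HvD g) (h' : TyA F' g') : ∀ p ∈ g'.arcs, ∀ w ∈ innA p, w ∉ g.B := by
  intro p hp w hw hw'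
  obtain ⟨q, R, B, S, w0, j, h1, h2, hj, e⟩ := h.words w hw'
  obtain ⟨q', B1, H, s, B', w0', i, h3, hi, rfl⟩ := h'.inn33 p hp w hw
  exact h1.rinner_GG' h2 w0 hj h3 w0' hi e

/-- **word row**, TyAo (TyAp, TyAz) -/
theorem HvD.disA (h : HvD g) (h' : TyAo F' g') : ∀ w ∈ g.B, w ∉ g'.B := by
  intro w hw hw'
  obtain ⟨q, R, B, S, w0, i, h1, -, hi, rfl⟩ := h.words w hw
  obtain ⟨q', B1', H', s', B', w0', h1', hH, rfl, rfl⟩ := h'
  obtain ⟨j, hj, e⟩ := mem_gad20.1 hw'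
  exact h1.disjG h1' (Or.inl (hH q)) w0 w0' hi hj e.symm

/-- **word row**, TyAq -/
theorem HvD.disAq (h : HvD g) (h' : TyAq F' g') : ∀ w ∈ g.B, w ∉ g'.B := by
  intro w hw hw'
  obtain ⟨q, R, B, S, w0, i, h1, -, hi, rfl⟩ := h.words w hw
  obtain ⟨a, B1', s', B', w0', h1', rfl, rfl⟩ := h'
  obtain ⟨j, hj, e⟩ := mem_gad20.1 hw'
  exact h1.disjG h1' (Or.inr h1.q1) w0 w0' hi hj e.symm

/-! ### Instances -/

theorem NodeBw.hvW {c : ℕ} {R B S : BinaryTree Unit} (h : NodeBw k c q R B S) (c3 : 3 ≤ c) : HvW k q R B S where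
  q1 := by
    have := h.lt
    omega
  dat := h.dat
  p3 := by
    intro x hx
    have := h.lt
    rcases h.part x hx with h1 | h1 <;> omega
  size := h.size

theorem NodeBw.ne34 {c : ℕ} {R B S : BinaryTree Unit} (h : NodeBw k c q R B S) (c3 : 3 ≤ c) :
    R ≠ app (pc 3) (pc 4) := by
  intro e
  have h1 : c ∈ cont R := h.memR
  rw [e, cont_app, cont_pc, cont_pc, Multiset.mem_add, Multiset.mem_singleton, Multiset.mem_singleton] at h1
  rcases h1 with h1 | h1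
  · subst h1
    exact h.st (pc 4) (by rw [e, H1.ch_eq])
  · have h2 := h.top
    have h3 := h.lt
    have h4 : (3 : ℕ) ∈ cont R := by
      rw [e, cont_app, cont_pc, cont_pc]
      simp
    rcases h.part 3 h4 with h5 | h5 <;> omega

theorem TyBw.hvD (h : TyBw F g) (h2 : ∀ d ∈ F, 2 ∉ contc d) : HvD g where
  words := by
    intro w hw
    obtain ⟨c, q, R, B, S, w0, i, h1, hi, rfl, hm⟩ := h.words w hw
    have c3 := h1.c3 w0 (h2 _ hm)
    exact ⟨q, R, B, S, w0, i, h1.hvW c3, h1.ne34 c3, hi, rfl⟩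
  inn := by
    intro p hp w hw
    obtain ⟨c, q, R, B, S, w0, i, h1, hi, rfl, hm⟩ := h.inn0 p hp w hw
    have c3 := h1.c3 w0 (h2 _ hm)
    exact ⟨q, R, B, S, w0, i, h1.hvW c3, h1.ne34 c3, hi, rfl⟩

theorem HM.NodeM.hvW {R B S : BinaryTree Unit} (h : NodeM k q R B S) (hq : 1 ≤ q) : HvW k q R B S where
  q1 := hq
  dat := h.dat
  p3 := by
    intro x hx
    have := h.part x hx
    omega
  size := h.size

theorem HM.NodeM.ne34 {R B S : BinaryTree Unit} (h : NodeM k q R B S) (hq : 1 ≤ q) : R ≠ app (pc 3) (pc 4) := by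
  intro e
  have h4 : (3 : ℕ) ∈ cont R := by
    rw [e, cont_app, cont_pc, cont_pc]
    simp
  have := h.part 3 h4
  omega

theorem TyRq.hvD (h : TyRq q F g) (hq : 1 ≤ q) : HvD g where
  words := by
    intro w hw
    obtain ⟨R, B, S, w0, i, h1, hi, rfl, hm⟩ := h.words w hw
    exact ⟨q, R, B, S, w0, i, h1.hvW hq, h1.ne34 hq, hi, rfl⟩
  inn := by
    intro p hp w hw
    obtain ⟨R, B, S, w0, i, h1, hi, e, hm⟩ := h.inn p hp
    have hw' : w = TT p.1 := hw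
    exact ⟨q, R, B, S, w0, i, h1.hvW hq, h1.ne34 hq, hi, by rw [hw', e]⟩

theorem TySq.hvD (h : TySq q F g) (hq : 1 ≤ q) : HvD g where
  words := by
    intro w hw
    obtain ⟨R, B, S, w0, i, h1, hi, h9, rfl, hm⟩ := h.words w hw
    exact ⟨q, R, B, S, w0, i, h1.hvW hq, h1.ne34 hq, hi, rfl⟩
  inn := by
    intro p hp w hw
    obtain ⟨R, B, S, w0, i, h1, hi, e, hm⟩ := h.inn p hp
    have hw' : w = TT p.1 := hw
    refine ⟨q, R, B, S, w0, i, h1.hvW hq, h1.ne34 hq, ?_, by rw [hw', e]⟩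
    simp only [List.mem_cons, List.not_mem_nil, or_false] at hi ⊢
    omega

/-- **row I-Bw-A** (marker `≥ 3`, every A: Ap, Aq, Az) -/
theorem TyBw.inner_A (h : TyBw F g) (h2 : ∀ d ∈ F, 2 ∉ contc d) (h' : TyA F' g') :
    ∀ p ∈ g.arcs, ∀ w ∈ innA p, w ∉ g'.B := (h.hvD h2).inner_A h'

/-- **row I-A-Bw** (marker `≥ 3`, every A: Ap, Aq, Az) -/
theorem TyA.inner_Bw (h : TyA F g) (h' : TyBw F' g') (h2 : ∀ d ∈ F', 2 ∉ contc d) :
    ∀ p ∈ g.arcs, ∀ w ∈ innA p, w ∉ g'.B := (h'.hvD h2).A_inner h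

/-- **row W-Bw-A** (TyAo: TyAp, TyAz) -/
theorem TyBw.disA (h : TyBw F g) (h2 : ∀ d ∈ F, 2 ∉ contc d) (h' : TyAo F' g') : ∀ w ∈ g.B, w ∉ g'.B :=
  (h.hvD h2).disA h'

/-- **row W-Bw-Aq** -/
theorem TyBw.disAq (h : TyBw F g) (h2 : ∀ d ∈ F, 2 ∉ contc d) (h' : TyAq F' g') : ∀ w ∈ g.B, w ∉ g'.B :=
  (h.hvD h2).disAq h'

/-- **row I-Rq-A** (`1 ≤ q`, every A) -/
theorem TyRq.inner_A33 (h : TyRq q F g) (hq : 1 ≤ q) (h' : TyA F' g') :
    ∀ p ∈ g.arcs, ∀ w ∈ innA p, w ∉ g'.B := (h.hvD hq).inner_A h'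

/-- **row I-A-Rq** (`1 ≤ q`, every A) -/
theorem TyA.inner_Rq33 (h : TyA F g) (h' : TyRq q F' g') (hq : 1 ≤ q) :
    ∀ p ∈ g.arcs, ∀ w ∈ innA p, w ∉ g'.B := (h'.hvD hq).A_inner h

/-- **row I-Sq-A** (`1 ≤ q`, every A) -/
theorem TySq.inner_A33 (h : TySq q F g) (hq : 1 ≤ q) (h' : TyA F' g') :
    ∀ p ∈ g.arcs, ∀ w ∈ innA p, w ∉ g'.B := (h.hvD hq).inner_A h'

/-- **row I-A-Sq** (`1 ≤ q`, every A) -/
theorem TyA.inner_Sq33 (h : TyA F g) (h' : TySq q F' g') (hq : 1 ≤ q) :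
    ∀ p ∈ g.arcs, ∀ w ∈ innA p, w ∉ g'.B := (h'.hvD hq).A_inner h

end Pool.OddHC
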