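import Pool.Agent.Work.MP_8f87b2_h33.HvW

/-!
MP_8f87b2_co: inner words of the right windows with all parts of `R` at least 3, `q ≥ 1`, against ALL windows with
light beads (`NodeG`, every `H`): core lemmas and word forms (helper33).
-/

set_option autoImplicit false
set_option linter.unusedSimpArgs false

namespace Pool.OddHC

namespace HM

open BinaryTree H1 List

variable {k q : ℕ} {R B S : BinaryTree Unit} {B1 H s : BinaryTree Unit}

/-- a list of equal pairs of entries 1, 2 -/
inductive PL : List ℕ → Prop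
  | nil : PL []
  | cons (d : ℕ) (l : List ℕ) (hd : d = 1 ∨ d = 2) (h : PL l) : PL (d :: d :: l)

theorem PL.even {l : List ℕ} (h : PL l) : Even l.length := by
  induction h with
  | nil => simp
  | cons d l hd h ih =>
    rw [List.length_cons, List.length_cons]
    exact ih.add (by decide : Even (1 + 1))

theorem PL.mem {l : List ℕ} (h : PL l) : ∀ x ∈ l, x = 1 ∨ x = 2 := by
  induction h with
  | nil => simp
  | cons d l hd h ih =>
    intro x hx
    simp only [List.mem_cons] at hx
    rcases hx with rfl | rfl | hx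
    · exact hd
    · exact hd
    · exact ih x hx

theorem PL.app {l l' : List ℕ} (h : PL l) (h' : PL l') : PL (l ++ l') := by
  induction h with
  | nil => exact h'
  | cons d l hd h ih => exact PL.cons d _ hd ih

theorem PL.rev {l : List ℕ} (h : PL l) : PL l.reverse := by
  induction h with
  | nil => exact PL.nil
  | cons d l hd h ih =>
    have e : (d :: d :: l).reverse = l.reverse ++ [d, d] := by simp
    rw [e]
    exact ih.app (PL.cons d [] hd PL.nil)

theorem bl_PL : ∀ {H : BinaryTree Unit}, bl H = true → ∃ l, PL l ∧ wd H = ex true l := by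
  intro H
  induction H with
  | nil => intro _; exact ⟨[], PL.nil, rfl⟩
  | node _ A X _ ih =>
    intro h
    rw [bl, Bool.and_eq_true] at h
    obtain ⟨l, h1, h2⟩ := ih h.2
    rcases light_cases h.1 with rfl | rfl
    · refine ⟨1 :: 1 :: l, PL.cons 1 l (Or.inl rfl) h1, ?_⟩
      rw [wd_node, h2]
      simp [ex, wd]
    · refine ⟨2 :: 2 :: l, PL.cons 2 l (Or.inr rfl) h1, ?_⟩
      rw [wd_node, h2]
      simp [ex, wd, List.replicate_succ]

theorem bl_two {H : BinaryTree Unit} (h : bl H = true) (h0 : H ≠ .nil) : ∃ (c : ℕ) (t : List ℕ),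
    (c = 1 ∨ c = 2) ∧ PL t ∧ wd H = ex true (c :: c :: t) := by
  obtain ⟨l, h1, h2⟩ := bl_PL h
  cases h1 with
  | nil =>
    exfalso
    cases H with
    | nil => exact h0 rfl
    | node _ A X =>
      rw [wd_node] at h2
      simp [ex] at h2
  | cons d l hd h => exact ⟨d, l, hd, h, h2⟩

/-- the block after a heavy beginning -/
theorem bead_genG (hB1 : hv B1) {c : ℕ} {t : List ℕ} (hc : c = 1 ∨ c = 2) (ht : PL t)
    (e : wd H = ex true (c :: c :: t)) (j : ℕ) : ∃ (p : List ℕ) (x : ℕ),
    (∀ w : List ℕ, List.replicate j true ++ (wd B1 ++ true :: (wd H ++ ex true w)) =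
      ex true (p ++ (x :: (c :: (t ++ w))))) ∧
    Even p.length ∧ Ge 3 p ∧ ((x = c + 1 ∧ p ≠ [] ∧ B1 ≠ .nil) ∨ (p = [] ∧ x = j + (c + 1) ∧ B1 = .nil)) := by
  obtain ⟨r1, e1, e2, e3, e4⟩ := hv_runs (c := 3) (by norm_num) B1 (cont_of_hv hB1)
  have hH : ∀ w : List ℕ, true :: (wd H ++ ex true w) = ex true ((c + 1) :: (c :: (t ++ w))) := by
    intro w
    have hl : Even (c :: c :: t).length := (PL.cons c t hc ht).even
    rw [e, ← ex_even hl, List.cons_append, List.cons_append, ex_succ]
  cases r1 with
  | nil =>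
    refine ⟨[], j + (c + 1), ?_, by simp, fun _ h => absurd h List.not_mem_nil, Or.inr ⟨rfl, rfl, ?_⟩⟩
    · intro w
      rw [e1, ex_nil, List.nil_append, List.nil_append, hH, ex_rep, Nat.add_comm (c + 1) j]
    · by_contra h0
      exact e4 h0 rfl
  | cons y r1 =>
    refine ⟨(y + j) :: r1, c + 1, ?_, by simpa using e2, ?_, Or.inl ⟨rfl, by simp, ?_⟩⟩
    · intro w
      have hl : Even ((y + j) :: r1).length := by simpa using e2
      rw [e1, hH, ex_even hl, ← ex_rep j y true r1, List.append_assoc]
    · intro z hz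
      rcases List.mem_cons.1 hz with rfl | hz
      · have := e3 y (by simp)
        omega
      · exact e3 z (by simp [hz])
    · rintro rfl
      have hy := e3 y (by simp)
      obtain ⟨y', rfl⟩ : ∃ y', y = y' + 1 := ⟨y - 1, by omega⟩
      rw [← ex_succ] at e1
      exact absurd e1 (by simp [wd])

/-- the word form with the block -/
def BFG (c : ℕ) (t : List ℕ) (P : Prop) (w : List Bool) : Prop :=
  ∃ (p : List ℕ) (x v : ℕ) (r : List ℕ), w = ex true (p ++ (x :: (c :: (t ++ (v :: r))))) ∧
    Even p.length ∧ Ge 3 p ∧ (x = c + 1 ∨ (p = [] ∧ c + 1 ≤ x)) ∧ (3 ≤ v ∨ (v = 2 ∧ P)) ∧ Ge 1 r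

theorem BFG_of3 {P : Prop} (hB1 : hv B1) {c : ℕ} {t : List ℕ} (hc : c = 1 ∨ c = 2) (ht : PL t)
    (e : wd H = ex true (c :: c :: t)) (j : ℕ) (w : List Bool) : BFG c t P (List.replicate j true ++
    (wd B1 ++ true :: (wd H ++ true :: true :: true :: w))) := by
  obtain ⟨p, x, h1, h2, h3, h4⟩ := bead_genG hB1 hc ht e j
  obtain ⟨r, g1, g2, g3⟩ := exists_ex (true :: w) true
  obtain ⟨v, r', rfl, g4⟩ := g3 w rfl
  refine ⟨p, x, v + 1, r', ?_, h2, h3, ?_, Or.inl (by omega), fun z hz => g1 z (by simp [hz])⟩
  · rw [← h1, ← ex_succ, ← g2]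
  · rcases h4 with ⟨h4, _⟩ | ⟨h4, h5, _⟩
    · exact Or.inl h4
    · exact Or.inr ⟨h4, by omega⟩

theorem BFG_of2 {P : Prop} (hP : P) (hB1 : hv B1) {c : ℕ} {t : List ℕ} (hc : c = 1 ∨ c = 2) (ht : PL t)
    (e : wd H = ex true (c :: c :: t)) (j : ℕ) (w : List Bool) : BFG c t P (List.replicate j true ++
    (wd B1 ++ true :: (wd H ++ true :: true :: w))) := by
  obtain ⟨p, x, h1, h2, h3, h4⟩ := bead_genG hB1 hc ht e j
  obtain ⟨r, g1, g2, g3⟩ := exists_ex (true :: w) true
  obtain ⟨v, r', rfl, g4⟩ := g3 w rfl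
  refine ⟨p, x, v, r', ?_, h2, h3, ?_, ?_, fun z hz => g1 z (by simp [hz])⟩
  · rw [← h1, ← g2]
  · rcases h4 with ⟨h4, _⟩ | ⟨h4, h5, _⟩
    · exact Or.inl h4
    · exact Or.inr ⟨h4, by omega⟩
  · rcases Nat.lt_or_ge v 3 with hv | hv
    · exact Or.inr ⟨by omega, hP⟩
    · exact Or.inl hv

/-- **inner words of the windows against the words with a block** -/
theorem core_AG {q i x c v : ℕ} {ζ η p t r : List ℕ} (hq : 1 ≤ q) (hi : i ∈ [0, 1, 3, 6, 8, 9])
    (hζ : Odd ζ.length) (hη : Odd η.length) (gz : Ge 3 ζ) (gη : Ge 3 η) (hp : Even p.length) (gp : Ge 3 p)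
    (hc : c = 1 ∨ c = 2) (ht : PL t) (hx : x = c + 1 ∨ (p = [] ∧ c + 1 ≤ x)) (hv : 2 ≤ v)
    (e : ζ ++ (mr q i ++ η) = p ++ (x :: (c :: (t ++ (v :: r))))) :
    i = 9 ∧ q = 1 ∧ c = 2 ∧ t = [] ∧ v = 2 := by
  obtain ⟨h0, η', rfl⟩ := odd_ne hη
  have hh : 3 ≤ h0 := gη h0 (by simp)
  have hmem : (∃ y ∈ mr q i, y < 3) := by
    have h2 : c ∈ ζ ++ (mr q i ++ (h0 :: η')) := by rw [e]; simp
    rw [List.mem_append, List.mem_append] at h2
    rcases h2 with h2 | h2 | h2
    · have := gz c h2; omega
    · exact ⟨c, h2, by omega⟩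
    · have := gη c h2; omega
  -- after the block
  have tail1 : ∀ (l : List ℕ), 1 :: l = t ++ (v :: r) → ∃ l', l = 1 :: l' := by
    intro l hl
    cases ht with
    | nil => simp at hl; omega
    | cons d l2 hd h2 =>
      simp only [List.cons_append, List.cons.injEq] at hl
      obtain ⟨rfl, hl⟩ := hl
      exact ⟨_, hl⟩
  by_cases hx3 : 3 ≤ x
  · have gx : Ge 3 (p ++ [x]) := by
      intro y hy
      rcases List.mem_append.1 hy with hy | hy
      · exact gp y hy
      · simp at hy; omega
    have ox : Odd (p ++ [x]).length := by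
      rw [List.length_append, List.length_singleton]; exact hp.add_one
    have e0 : ζ ++ (mr q i ++ (h0 :: η')) = (p ++ [x]) ++ (c :: (t ++ (v :: r))) := by
      rw [e]; simp
    simp only [List.mem_cons, List.not_mem_nil, or_false] at hi
    rcases hi with rfl | rfl | rfl | rfl | rfl | rfl
    · simp [mr] at hmem
    · exfalso
      obtain ⟨_, h3, h4⟩ := first_small ζ (p ++ [x]) 1 c _ _ gz gx (by omega) (by omega) e0
      obtain ⟨l', h5⟩ := tail1 _ h4
      simp at h5
      omega
    · exfalso
      obtain ⟨_, h3, h4⟩ := first_small ζ (p ++ [x]) 1 c _ _ gz gx (by omega) (by omega) e0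
      obtain ⟨l', h5⟩ := tail1 _ h4
      simp at h5
      omega
    · obtain ⟨y, h1, h2⟩ := hmem
      simp [mr] at h1
      omega
    · exfalso
      rcases Nat.lt_or_ge q 2 with hq2 | hq2
      · obtain rfl : q = 1 := by omega
        have e' : (ζ ++ [3]) ++ (2 :: (1 :: 1 :: h0 :: η')) = (p ++ [x]) ++ (c :: (t ++ (v :: r))) := by
          rw [← e0]; simp [mr]
        obtain ⟨h3, _, _⟩ := first_small (ζ ++ [3]) (p ++ [x]) 2 c _ _ (by
          intro y hy
          rcases List.mem_append.1 hy with hy | hy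
          · exact gz y hy
          · simp at hy; omega) gx (by omega) (by omega) e'
        have h4 := congrArg List.length h3
        rw [List.length_append, List.length_append, List.length_singleton, List.length_singleton] at h4
        have h5 : ζ.length = p.length := by omega
        rw [h5] at hζ
        exact (Nat.not_even_iff_odd.2 hζ) hp
      · have e' : (ζ ++ [q + 2, q + 1]) ++ (1 :: (1 :: h0 :: η')) = (p ++ [x]) ++ (c :: (t ++ (v :: r))) := by
          rw [← e0]; simp [mr]
        obtain ⟨_, _, h4⟩ := first_small (ζ ++ [q + 2, q + 1]) (p ++ [x]) 1 c _ _ (by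
          intro y hy
          rcases List.mem_append.1 hy with hy | hy
          · exact gz y hy
          · simp at hy; omega) gx (by omega) (by omega) e'
        obtain ⟨l', h5⟩ := tail1 _ h4
        simp at h5
        omega
    · rcases Nat.lt_or_ge q 2 with hq2 | hq2
      · obtain rfl : q = 1 := by omega
        have e' : ζ ++ (2 :: (2 :: h0 :: η')) = (p ++ [x]) ++ (c :: (t ++ (v :: r))) := by
          rw [← e0]; simp [mr]
        obtain ⟨_, h3, h4⟩ := first_small ζ (p ++ [x]) 2 c _ _ gz gx (by omega) (by omega) e'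
        cases ht with
        | nil =>
          simp at h4
          exact ⟨rfl, rfl, h3.symm, rfl, h4.1.symm⟩
        | cons d l2 hd h2 =>
          exfalso
          simp only [List.cons_append, List.cons.injEq] at h4
          omega
      · exfalso
        obtain ⟨y, h1, h2⟩ := hmem
        simp [mr] at h1
        omega
  · exfalso
    obtain rfl : c = 1 := by omega
    obtain rfl : x = 2 := by omega
    have m1 : 1 ∈ mr q i := by
      have h2 : 1 ∈ ζ ++ (mr q i ++ (h0 :: η')) := by rw [e]; simp
      rw [List.mem_append, List.mem_append] at h2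
      rcases h2 with h2 | h2 | h2
      · have := gz 1 h2; omega
      · exact h2
      · have := gη 1 h2; omega
    simp only [List.mem_cons, List.not_mem_nil, or_false] at hi
    rcases hi with rfl | rfl | rfl | rfl | rfl | rfl
    · simp [mr] at m1
    · obtain ⟨_, h3, _⟩ := first_small ζ p 1 2 _ _ gz gp (by omega) (by omega) e
      omega
    · obtain ⟨_, h3, _⟩ := first_small ζ p 1 2 _ _ gz gp (by omega) (by omega) e
      omega
    · simp [mr] at m1
    · rcases Nat.lt_or_ge q 2 with hq2 | hq2
      · obtain rfl : q = 1 := by omega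
        have e' : (ζ ++ [3]) ++ (2 :: (1 :: 1 :: h0 :: η')) = p ++ (2 :: (1 :: (t ++ (v :: r)))) := by
          rw [← e]; simp [mr]
        obtain ⟨_, _, h4⟩ := first_small (ζ ++ [3]) p 2 2 _ _ (by
          intro y hy
          rcases List.mem_append.1 hy with hy | hy
          · exact gz y hy
          · simp at hy; omega) gp (by omega) (by omega) e'
        rw [List.cons.injEq] at h4
        obtain ⟨l', h5⟩ := tail1 _ h4.2
        simp at h5
        omega
      · have e' : (ζ ++ [q + 2, q + 1]) ++ (1 :: (1 :: h0 :: η')) = p ++ (2 :: (1 :: (t ++ (v :: r)))) := by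
          rw [← e]; simp [mr]
        obtain ⟨_, h3, _⟩ := first_small (ζ ++ [q + 2, q + 1]) p 1 2 _ _ (by
          intro y hy
          rcases List.mem_append.1 hy with hy | hy
          · exact gz y hy
          · simp at hy; omega) gp (by omega) (by omega) e'
        omega
    · simp [mr] at m1
      omega

/-- the beginnings -/
theorem core_PG {q q' i : ℕ} {ζ η r N : List ℕ} (hq : 1 ≤ q) (hi : i ∈ [0, 1, 3, 6, 8, 9]) (hζ : Odd ζ.length)
    (hη : Odd η.length) (gz : Ge 3 ζ) (gη : Ge 3 η) (hN : N ∈ NP q')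
    (hr : N = [q' + 1, q' + 1, 2, 1] → ∀ l, r ≠ 1 :: l) (e : ζ ++ (mr q i ++ η) = N ++ r) : False := by
  obtain ⟨h0, η', rfl⟩ := odd_ne hη
  have hh : 3 ≤ h0 := gη h0 (by simp)
  rcases odd_cases hζ with ⟨y, rfl⟩ | ⟨y1, y2, y3, t, rfl⟩
  · have y3 : 3 ≤ y := gz y (by simp)
    simp only [List.mem_cons, List.not_mem_nil, or_false] at hi
    simp only [NP, List.mem_cons, List.not_mem_nil, or_false] at hN
    rcases hN with rfl | rfl | rfl | rfl
    · rcases hi with rfl | rfl | rfl | rfl | rfl | rfl <;> simp [mr] at e <;> omega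
    · rcases hi with rfl | rfl | rfl | rfl | rfl | rfl <;> simp [mr] at e <;> omega
    · rcases hi with rfl | rfl | rfl | rfl | rfl | rfl
      · simp [mr] at e <;> omega
      · simp [mr] at e <;> omega
      · simp [mr] at e <;> omega
      · simp [mr] at e <;> omega
      · simp [mr] at e
        exact hr rfl _ e.2.2.2.symm
      · simp [mr] at e <;> omega
    · rcases hi with rfl | rfl | rfl | rfl | rfl | rfl <;> simp [mr] at e <;> omega
  · have g3 : 3 ≤ y3 := gz y3 (by simp)
    simp only [NP, List.mem_cons, List.not_mem_nil, or_false] at hN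
    rcases hN with rfl | rfl | rfl | rfl <;> simp at e <;> omega

/-- (a) a word which ends with at most four small entries -/
theorem core_TG {A T r N : List ℕ} {c : ℕ} (hc : c < 3) (hT : 4 ≤ T.length) (hr : Ge 3 r) (hN : N.length ≤ 4)
    (e : A ++ (c :: T) = r ++ N) : False := by
  rcases List.append_eq_append_iff.1 e with ⟨l, h1, h2⟩ | ⟨l, h1, h2⟩
  · cases l with
    | nil =>
      have := congrArg List.length h2
      simp at this
      omega
    | cons y l =>
      simp only [List.cons_append, List.cons.injEq] at h2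
      have := hr y (by rw [h1]; simp)
      omega
  · have := congrArg List.length h2
    simp at this
    omega

/-- (b) a word which begins with small entries -/
theorem core_HG {q c x : ℕ} {A u T r N : List ℕ} (hq : 1 ≤ q) (hA : Odd A.length)
    (hA3 : Ge 3 A ∨ ∃ y, A = [y] ∧ 2 ≤ y) (hu : PL u) (hc : c = 1 ∨ c = 2) (hx : c + 1 ≤ x)
    (hN : N ∈ NQ q) (hr : Ge 3 r) (e : A ++ (u ++ (c :: x :: T)) = N ++ r) :
    q = 1 ∧ A = [2] ∧ r = x :: T ∧ ((N = [2, 2] ∧ u = [] ∧ c = 2) ∨ (N = [2, 2, 2, 1] ∧ u = [2, 2] ∧ c = 1)) := by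
  have g1 : c ∈ r → False := fun h => by have := hr c h; omega
  rcases odd_cases hA with ⟨y, rfl⟩ | ⟨y1, y2, y3, t, rfl⟩
  · have hy : 2 ≤ y := by
      rcases hA3 with h | ⟨y', h1, h2⟩
      · have := h y (by simp); omega
      · simp only [List.cons.injEq, and_true] at h1
        omega
    cases hu with
    | nil =>
      simp only [NQ, List.mem_cons, List.not_mem_nil, or_false] at hN
      rcases hN with rfl | rfl | rfl | rfl | rfl | rfl | rfl <;>
        simp only [List.cons_append, List.nil_append, List.cons.injEq] at e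
      · omega
      · omega
      · omega
      · omega
      · omega
      · omega
      · obtain ⟨e1, e2, e3⟩ := e
        have hc2 : c = 2 := by omega
        have hq1 : q = 1 := by omega
        subst hq1
        refine ⟨rfl, ?_, e3.symm, Or.inl ⟨rfl, rfl, hc2⟩⟩
        rw [e1]
    | cons d u' hd hu' =>
      simp only [NQ, List.mem_cons, List.not_mem_nil, or_false] at hN
      rcases hN with rfl | rfl | rfl | rfl | rfl | rfl | rfl <;>
        simp only [List.cons_append, List.nil_append, List.cons.injEq] at e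
      · omega
      · omega
      · obtain ⟨e1, e2, e3, e4⟩ := e
        have hq1 : q = 1 := by omega
        subst hq1
        cases hu' with
        | nil =>
          simp only [List.nil_append, List.cons.injEq] at e4
          refine ⟨rfl, ?_, e4.2.symm, Or.inr ⟨rfl, ?_, e4.1⟩⟩
          · rw [e1]
          · rw [e3]
        | cons d' u'' hd' hu'' =>
          exfalso
          simp only [List.cons_append, List.cons.injEq] at e4
          have := hr d' (by rw [← e4.2]; simp)
          omega
      · omega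
      · omega
      · omega
      · exfalso
        have := hr d (by rw [← e.2.2]; simp)
        omega
  · exfalso
    have h3 : 3 ≤ y3 := by
      rcases hA3 with h | ⟨y', h1, _⟩
      · exact h y3 (by simp)
      · simp at h1
    simp only [NQ, List.mem_cons, List.not_mem_nil, or_false] at hN
    rcases hN with rfl | rfl | rfl | rfl | rfl | rfl | rfl <;>
      simp only [List.cons_append, List.nil_append, List.cons.injEq] at e
    · omega
    · omega
    · omega
    · omega
    · omega
    · exact g1 (by rw [← e.2.2]; simp)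
    · exact g1 (by rw [← e.2.2]; simp)

end HM

end Pool.OddHC
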