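import Pool.Agent.Work.MP_8f87b2_h33.HvG

/-!
MP_8f87b2_co: the word forms and the runs of the inner words of a window with light beads, every `H` (helper33).
-/

set_option autoImplicit false
set_option linter.unusedSimpArgs false

namespace Pool.OddHC

namespace HM

open BinaryTree H1 List

variable {k q : ℕ} {R B S : BinaryTree Unit} {B1 H s : BinaryTree Unit}

theorem hv_ttt {s : BinaryTree Unit} (h : hv s) (h0 : s ≠ .nil) : ∃ u, wd s = true :: true :: true :: u := by
  obtain ⟨r, e1, _, e3, e4⟩ := hv_runs (c := 3) (by norm_num) s (cont_of_hv h)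
  cases r with
  | nil => exact absurd rfl (e4 h0)
  | cons y r =>
    have hy := e3 y (by simp)
    obtain ⟨y', rfl⟩ : ∃ y', y = y' + 1 + 1 + 1 := ⟨y - 3, by omega⟩
    refine ⟨ex true (y' :: r), ?_⟩
    rw [e1, ← ex_succ, ← ex_succ, ← ex_succ]

theorem aa_ttt {s : BinaryTree Unit} (h : hv s) (h0 : s ≠ .nil) (h4 : 4 ≤ Tsq.ht s) :
    ∃ u, aa s = true :: true :: true :: u := by
  obtain ⟨y, l, e1, _, _, e4, e5⟩ := aa_runs (c := 3) (by norm_num) s h0 (cont_of_hv h)
  have hy : 3 ≤ y := by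
    by_cases hl : l = []
    · have := e4 hl; omega
    · have := e5 hl; omega
  obtain ⟨y, rfl⟩ : ∃ x', y = x' + 1 + 1 + 1 := ⟨y - 3, by omega⟩
  refine ⟨ex true (y :: l), ?_⟩
  rw [e1, ex_succ, ex_succ, ex_succ]

theorem NodeG.wR3 (h : NodeG k q B1 H s B) (w : List Bool) : ∃ w', wd (gR B1 H s B) ++ w =
    wd B1 ++ true :: (wd H ++ true :: true :: true :: w') := by
  obtain ⟨u, e⟩ := hv_ttt h.hs h.s0
  refine ⟨u ++ (false :: (wd B ++ w)), ?_⟩
  unfold gR
  rw [wd_app, wd_node, wd_app, e]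
  simp

theorem NodeG.wS3 (h : NodeG k q B1 H s B) (h4 : 4 ≤ OddHC.ht s) (w : List Bool) :
    ∃ w', wd (Tsq.sq (gR B1 H s B)).1 ++ w =
      true :: (wd B1 ++ true :: (wd H ++ true :: true :: true :: w')) := by
  obtain ⟨u, e⟩ := aa_ttt h.hs h.s0 (by rw [H1.ht_eq]; exact h4)
  refine ⟨u ++ (false :: (H1.cc (gR B1 H s B) ++ w)), ?_⟩
  rw [sq1_ac _ (NodeG.gR_ne h), (NodeG.acR h).1, e]
  simp

theorem NodeG.tt (h : NodeG k q B1 H s B) (w : List Bool) : ∃ u, wd (gR B1 H s B) ++ w = true :: true :: u := by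
  obtain ⟨w', e⟩ := NodeG.wR3 h w
  rw [e]
  by_cases h0 : B1 = .nil
  · subst h0
    obtain ⟨c, t, h1, h2, h3⟩ := bl_two h.light h.H0
    have : ∃ u, wd H = true :: u := by
      rcases h1 with rfl | rfl
      · exact ⟨_, h3⟩
      · exact ⟨_, h3⟩
    obtain ⟨u, hu⟩ := this
    rw [hu]
    exact ⟨_, rfl⟩
  · obtain ⟨u, hu⟩ := hv_ttt h.h1 h0
    rw [hu]
    exact ⟨_, rfl⟩

/-- **the forms of the words `0 .. 9, 13, 16, 18, 19` of a window with beads** -/
theorem NodeG.formAG (h : NodeG k q B1 H s B) {c : ℕ} {t : List ℕ} (hc : c = 1 ∨ c = 2)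
    (ht : PL t) (eH : wd H = ex true (c :: c :: t)) {j : ℕ}
    (hj : j ∈ [0, 1, 2, 3, 4, 5, 6, 7, 8, 9, 13, 16, 18, 19]) :
    BFG c t (j ∈ [13, 16, 19] ∧ OddHC.ht s = 3) (wd (W (gR B1 H s B) (pc (q + 1)) B
      (Tsq.sq (gR B1 H s B)).1 j)) ∨
    (∃ r N : List ℕ, Ge 1 r ∧ N ∈ NP q ∧ (N = [q + 1, q + 1, 2, 1] → ∀ l, r ≠ 1 :: l) ∧ wd (W (gR B1 H s B) (pc (q + 1)) B
      (Tsq.sq (gR B1 H s B)).1 j) = ex true (N ++ r)) ∨
    (∃ u, wd (W (gR B1 H s B) (pc (q + 1)) B
      (Tsq.sq (gR B1 H s B)).1 j) = true :: false :: u) ∨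
    (∃ u, wd (W (gR B1 H s B) (pc (q + 1)) B
      (Tsq.sq (gR B1 H s B)).1 j) = u ++ [true, false]) := by
  have hR := NodeG.wR3 h
  have hS := NodeG.wS h
  have hS3 := NodeG.wS3 h
  have bf := fun m w => BFG_of3 (P := (j ∈ [13, 16, 19] ∧ OddHC.ht s = 3)) h.h1 hc ht eH m w
  have bf2 := fun (h3 : (j ∈ [13, 16, 19] ∧ OddHC.ht s = 3)) m w => BFG_of2 h3 h.h1 hc ht eH m w
  have hs3 := h.hs3
  have tt := NodeG.tt h
  have hR0 := NodeG.gR_ne h
  have hS0 : (Tsq.sq (gR B1 H s B)).1 ≠ .nil := Tsq.sq_ne hR0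
  generalize gR B1 H s B = R at hR hS hS3 hR0 hS0 tt ⊢
  generalize (Tsq.sq R).1 = S at hS hS3 hS0 ⊢
  have tR : ∀ w, ∃ u, wd R ++ w = true :: u := by
    intro w
    cases R with
    | nil => exact absurd rfl hR0
    | node _ A C => exact ⟨_, rfl⟩
  have tS : ∀ w, ∃ u, wd S ++ w = true :: u := by
    intro w
    cases S with
    | nil => exact absurd rfl hS0
    | node _ A C => exact ⟨_, rfl⟩
  have np2 : ∀ (N : List ℕ) (w : List Bool), N ∈ NP q → ∃ r : List ℕ, Ge 1 r ∧ (∀ l, r ≠ 1 :: l) ∧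
      (ex true N ++ true :: true :: w) = ex true (N ++ r) := by
    intro N w hN
    obtain ⟨r, g1, g2, g3⟩ := exists_ex (true :: w) true
    obtain ⟨v, r', rfl, g4⟩ := g3 w rfl
    have hl : Even N.length := by
      simp only [NP, List.mem_cons, List.not_mem_nil, or_false] at hN
      rcases hN with rfl | rfl | rfl | rfl <;> simp <;> decide
    refine ⟨_, g1, ?_, by rw [g2, ex_even hl]⟩
    intro l e
    rw [List.cons.injEq] at e
    omega
  have np : ∀ (N : List ℕ) (w : List Bool), N ∈ NP q → ∃ r : List ℕ, Ge 1 r ∧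
      (ex true N ++ true :: w) = ex true (N ++ r) := by
    intro N w hN
    obtain ⟨r, g1, g2, _⟩ := exists_ex w true
    have hl : Even N.length := by
      simp only [NP, List.mem_cons, List.not_mem_nil, or_false] at hN
      rcases hN with rfl | rfl | rfl | rfl <;> simp <;> decide
    exact ⟨r, g1, by rw [g2, ex_even hl]⟩
  simp only [List.mem_cons, List.not_mem_nil, or_false] at hj
  rcases hj with rfl | rfl | rfl | rfl | rfl | rfl | rfl | rfl | rfl | rfl | rfl | rfl | rfl | rfl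
  · -- 0
    left
    obtain ⟨w', e⟩ := hR (wd (pc (q + 3)))
    change BFG c t _ (wd (app R (pc (q + 3))))
    rw [wd_app, e]
    exact bf 0 w'
  · -- 1
    right; right; right
    refine ⟨wd R ++ (true :: false :: wd (pc (q + 1))), ?_⟩
    change wd (app R (.nil △ app (pc (q + 1)) (.nil △ .nil))) = _
    rw [wd_app, wd_node, wd_app, wd_node]
    simp [wd]
  · -- 2
    right; right; left
    exact ⟨_, rfl⟩
  · -- 3
    left
    obtain ⟨w', e⟩ := hR (wd (.nil △ pc (q + 1)) ++ (false :: []))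
    change BFG c t _ (wd (app R (.nil △ pc (q + 1)) △ .nil))
    rw [wd_node, wd_app, List.append_assoc]
    change BFG c t _ (true :: (wd R ++ (wd (.nil △ pc (q + 1)) ++ (false :: []))))
    rw [e]
    exact bf 1 w'
  · -- 4
    right; left
    obtain ⟨u, hu⟩ := tR []
    rw [List.append_nil] at hu
    obtain ⟨r, g1, g2⟩ := np [q + 2, q + 1, 1, 2] u (by simp [NP])
    refine ⟨r, [q + 2, q + 1, 1, 2], g1, by simp [NP], by intro e; simp at e, ?_⟩
    rw [← g2]
    change wd (app (pc (q + 1)) (.nil △ .nil) △ R) = _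
    rw [wd_node, wd_app, wd_node, wd_q, hu]
    simp [ex, wd, rep1, List.replicate_succ]
  · -- 5
    right; left
    obtain ⟨u, hu⟩ := tR []
    rw [List.append_nil] at hu
    obtain ⟨r, g1, g2⟩ := np [q + 2, q + 2, 1, 1] u (by simp [NP])
    refine ⟨r, [q + 2, q + 2, 1, 1], g1, by simp [NP], by intro e; simp at e, ?_⟩
    rw [← g2]
    change wd (pc (q + 1) △ (.nil △ R)) = _
    rw [wd_node, wd_node, wd_q, hu]
    simp [ex, wd, rep1, List.replicate_succ]
  · -- 6
    left
    obtain ⟨w', e⟩ := hR (false :: wd (pc (q + 1) △ .nil))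
    change BFG c t _ (wd (R △ (pc (q + 1) △ .nil)))
    rw [wd_node]
    rw [e]
    exact bf 1 w'
  · -- 7
    right; left
    obtain ⟨u, hu⟩ := tt [false]
    obtain ⟨r, g1, g3, g2⟩ := np2 [q + 1, q + 1, 2, 1] u (by simp [NP])
    refine ⟨r, [q + 1, q + 1, 2, 1], g1, by simp [NP], fun _ => g3, ?_⟩
    rw [← g2, ← hu]
    change wd (app (pc (q + 1)) ((.nil △ R) △ .nil)) = _
    rw [wd_app, wd_node, wd_node, wd_q]
    simp [ex, wd]
  · -- 8
    right; left
    obtain ⟨u, hu⟩ : ∃ u, wd (R △ .nil) = true :: u := ⟨_, rfl⟩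
    obtain ⟨r, g1, g2⟩ := np [q + 1, q + 1, 1, 1] u (by simp [NP])
    refine ⟨r, [q + 1, q + 1, 1, 1], g1, by simp [NP], by intro e; simp at e, ?_⟩
    rw [← g2]
    change wd (app (pc (q + 1)) (.nil △ (R △ .nil))) = _
    rw [wd_app, wd_node, hu, wd_q]
    simp [ex, wd]
  · -- 9
    left
    obtain ⟨w', e⟩ := hR (false :: (false :: wd (pc (q + 1))))
    change BFG c t _ (wd ((R △ .nil) △ pc (q + 1)))
    rw [wd_node, wd_node]
    change BFG c t _ (true :: (true :: (wd R ++ false :: []) ++ false :: wd (pc (q + 1))))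
    rw [List.cons_append, List.append_assoc]
    change BFG c t _ (true :: true :: (wd R ++ (false :: (false :: wd (pc (q + 1))))))
    rw [e]
    exact bf 2 w'
  · -- 13
    left
    change BFG c t _ (wd (app S (app B (.nil △ pc (q + 1)) △ .nil)))
    rw [wd_app]
    by_cases h4 : OddHC.ht s = 3
    · obtain ⟨w', e⟩ := hS (wd (app B (.nil △ pc (q + 1)) △ .nil))
      rw [e]
      exact bf2 ⟨by simp, h4⟩ 1 w'
    · obtain ⟨w', e⟩ := hS3 (by omega) (wd (app B (.nil △ pc (q + 1)) △ .nil))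
      rw [e]
      exact bf 1 w'
  · -- 16
    left
    change BFG c t _ (wd (app S (B △ (pc (q + 1) △ .nil))))
    rw [wd_app]
    by_cases h4 : OddHC.ht s = 3
    · obtain ⟨w', e⟩ := hS (wd (B △ (pc (q + 1) △ .nil)))
      rw [e]
      exact bf2 ⟨by simp, h4⟩ 1 w'
    · obtain ⟨w', e⟩ := hS3 (by omega) (wd (B △ (pc (q + 1) △ .nil)))
      rw [e]
      exact bf 1 w'
  · -- 18
    right; left
    obtain ⟨u, hu⟩ := tS (wd (B △ .nil))
    obtain ⟨r, g1, g2⟩ := np [q + 1, q + 1, 1, 1] u (by simp [NP])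
    refine ⟨r, [q + 1, q + 1, 1, 1], g1, by simp [NP], by intro e; simp at e, ?_⟩
    rw [← g2, ← hu]
    change wd (app (pc (q + 1)) (.nil △ app S (B △ .nil))) = _
    rw [wd_app, wd_node, wd_app, wd_q]
    simp [ex, wd]
  · -- 19
    left
    change BFG c t _ (wd (app S (B △ .nil) △ pc (q + 1)))
    rw [wd_node, wd_app, List.append_assoc]
    by_cases h4 : OddHC.ht s = 3
    · obtain ⟨w', e⟩ := hS (wd (B △ .nil) ++ (false :: wd (pc (q + 1))))
      rw [e]
      exact bf2 ⟨by simp, h4⟩ 2 w'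
    · obtain ⟨w', e⟩ := hS3 (by omega) (wd (B △ .nil) ++ (false :: wd (pc (q + 1))))
      rw [e]
      exact bf 2 w'

/-- what is used of the mirrored inner word -/
structure InnG (q i c : ℕ) (B1 s : BinaryTree Unit) (A tH : List ℕ) (x : ℕ) (T : List ℕ) : Prop where
  odd : Odd A.length
  head : Ge 3 A ∨ ∃ y, A = [y] ∧ y + 1 = OddHC.ht s
  hx : c + 1 ≤ x
  hb : x = c + 1 ∨ B1 = .nil
  len : 3 ≤ T.length
  pos : Ge 1 T
  last : ∃ T' z, T = T' ++ [z] ∧ 3 ≤ z
  even : Even (A ++ (tH.reverse ++ (c :: x :: T))).length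
  big : Ge 3 T → i = 0 ∨ (i = 6 ∧ 1 ≤ q) ∨ (i = 9 ∧ 2 ≤ q)

/-- **the runs of the mirrored inner words of a window with beads** -/
theorem NodeG.runsMG (h : NodeG k q B1 H s B) {c : ℕ} {tH : List ℕ} (hc0 : c = 1 ∨ c = 2)
    (htH : PL tH) (eH : wd H = ex true (c :: c :: tH)) (w0 : X k) {i : ℕ}
    (hi : i ∈ [0, 1, 3, 6, 8, 9]) : ∃ (A : List ℕ) (x : ℕ) (T : List ℕ), InnG q i c B1 s A tH x T ∧
      wd (Tsq.mirX (TT (gX q B1 H s B w0 i))).1 =
        ex true (A ++ (tH.reverse ++ (c :: x :: T))) := by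
  have hi20 : i < 20 := by
    simp only [List.mem_cons, List.not_mem_nil, or_false] at hi
    omega
  have hs3 : 3 ≤ Tsq.ht s := by rw [H1.ht_eq]; exact h.hs3
  have hRs : Tsq.ht (gR B1 H s B) = Tsq.ht s + 1 := by
    rw [H1.ht_eq, H1.ht_eq]; exact h.ht
  have hbig : q + 3 ≤ Tsq.ht s + 1 := by rw [H1.ht_eq]; exact h.big
  have hw := inn_gen (NodeG.gR_ne h) h.sq.1 (by rw [hRs]; exact hbig) (gX q B1 H s B w0 i)
    hi (by rw [NodeG.word h w0 hi20, ch_eq])
  obtain ⟨ha, hc⟩ := NodeG.acR h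
  rw [ha, hc] at hw
  -- the part `Z`
  obtain ⟨z, l, c1, c2, c3, c4, c5⟩ := cc_runs (c := 3) (by norm_num) s h.s0 (cont_of_hv h.hs)
  have hBs : ∀ x ∈ cont (Tsq.sq s).2, 3 ≤ x := by
    intro x hx
    apply cont_of_hv h.hs
    rw [← sq_cont h.s0]
    exact Multiset.mem_add.2 (Or.inl hx)
  obtain ⟨rs, d1, d2, d3, _⟩ := hv_runs (c := 3) (by norm_num) _ hBs
  obtain ⟨rB, b1, b2, b3, _⟩ := hv_runs (c := 3) (by norm_num) B (cont_of_hv h.hB)
  have hz : 3 ≤ z + 1 := by
    by_cases hl : l = []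
    · have := c4 hl; omega
    · have := c5 hl; omega
  have o1 : Odd (l ++ [z + 1]).length := by
    rw [List.length_append, List.length_singleton]
    exact c2.add_one
  have Z1 : co (H1.cc s ++ false :: wd (Tsq.sq s).2) = ex true ((l ++ [z + 1]) ++ rs) := by
    rw [co_app, co_cons, c1, d1, ex_co, ex_co, ex_odd o1]
    exact ex_last c2 true z _
  have o2 : Odd ((l ++ [z + 1]) ++ rs).length := by
    rw [List.length_append]
    exact o1.add_even d2
  have gU : Ge 3 ((l ++ [z + 1]) ++ rs) := by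
    intro y hy
    rw [List.mem_append, List.mem_append, List.mem_singleton] at hy
    rcases hy with (hy | rfl) | hy
    · exact c3 y hy
    · exact hz
    · exact d3 y hy
  obtain ⟨U, u, hU⟩ := exists_snoc (l := (l ++ [z + 1]) ++ rs) (by simp)
  rw [hU] at o2 gU Z1
  have eU : Even U.length := by
    rw [List.length_append, List.length_singleton] at o2
    by_contra h5
    rw [Nat.not_even_iff_odd] at h5
    exact (Nat.not_odd_iff_even.2 h5.add_one) o2
  have Z2 : co (H1.cc s ++ false :: wd (Tsq.sq s).2) ++ true :: co (wd B) =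
      ex true ((U ++ [u + 1]) ++ rB) := by
    have o3 : Odd (U ++ [u + 1]).length := by simpa using o2
    rw [Z1, b1, ex_co, ex_odd o3]
    exact ex_last eU true u _
  have o4 : Odd ((U ++ [u + 1]) ++ rB).length := by
    rw [List.length_append]
    exact (show Odd (U ++ [u + 1]).length by simpa using o2).add_even b2
  have gV : Ge 3 ((U ++ [u + 1]) ++ rB) := by
    intro y hy
    rw [List.mem_append] at hy
    rcases hy with hy | hy
    · exact ge_snoc gU 1 y hy
    · exact b3 y hy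
  obtain ⟨V, v, hV⟩ := exists_snoc (l := (U ++ [u + 1]) ++ rB) (by simp)
  rw [hV] at o4 gV Z2
  have eV : Even V.length := by
    rw [List.length_append, List.length_singleton] at o4
    by_contra h5
    rw [Nat.not_even_iff_odd] at h5
    exact (Nat.not_odd_iff_even.2 h5.add_one) o4
  -- the part `Y`
  obtain ⟨y, t, e1, e2, e3, e4, e5⟩ := aa_runs (c := 3) (by norm_num) s h.s0 (cont_of_hv h.hs)
  obtain ⟨p, x, g1, g2, g3, g4⟩ := bead_genG h.h1 hc0 htH eH 1
  have Y1 : false :: co (wd B1 ++ true :: (wd H ++ aa s)) =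
      ex false (p ++ (x :: (c :: (tH ++ (y :: t))))) := by
    have := congrArg co (g1 (y :: t))
    rw [ex_co, ← e1] at this
    exact this
  rw [Z2, Y1] at hw
  have hA : Ge 3 (y :: t).reverse ∨ ∃ y', (y :: t).reverse = [y'] ∧ y' + 1 = Tsq.ht s := by
    by_cases ht : t = []
    · subst ht
      exact Or.inr ⟨y, rfl, e4 rfl⟩
    · left
      intro w hw
      rw [List.mem_reverse, List.mem_cons] at hw
      rcases hw with rfl | hw
      · exact e5 ht
      · exact e3 w hw
  have oA : Odd (y :: t).reverse.length := by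
    rw [List.length_reverse, List.length_cons]
    exact e2.add_one
  obtain ⟨m1, m2, m3⟩ := mr_rev (q := q) hi
  have m4 : 2 ≤ (mr q (sg i)).length := by
    simp only [List.mem_cons, List.not_mem_nil, or_false] at hi
    rcases hi with rfl | rfl | rfl | rfl | rfl | rfl <;> simp [mr, sg]
  have m5 : Ge 1 (mr q (sg i)) := by
    intro w hw
    have h1 : Ge (q + 3) ([] : List ℕ) := fun _ h => absurd h List.not_mem_nil
    exact ge_mid (q := q) m2 h1 h1 w (by simpa using hw)
  -- the increments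
  obtain ⟨p', x', j1, j2, j3, j4⟩ : ∃ (p' : List ℕ) (x' : ℕ),
      ex true (V ++ [v]) ++ (midM q i ++ ex false (p ++ (x :: (c :: (tH ++ (y :: t)))))) =
      ex true ((V ++ [v + ez i]) ++ (mr q i ++ (p' ++ (x' :: (c :: (tH ++ (y :: t))))))) ∧
      Even p'.length ∧ Ge 3 p' ∧
      ((x' = c + 1) ∨ (B1 = .nil ∧ x' = c + 2 + ei i)) := by
    cases p with
    | nil =>
      rcases g4 with ⟨_, g4, _⟩ | ⟨_, g4, g5⟩
      · exact absurd rfl g4
      · refine ⟨[], x + ei i, ?_, by simp, fun _ h => absurd h List.not_mem_nil, Or.inr ⟨g5, by omega⟩⟩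
        rw [List.nil_append, runs_gen hi eV]
        rfl
    | cons w p =>
      rcases g4 with ⟨g4, _⟩ | ⟨g4, _⟩
      · refine ⟨(w + ei i) :: p, x, ?_, by simpa using g2, ge_cons g3 _, Or.inl g4⟩
        rw [List.cons_append, runs_gen hi eV]
        rfl
      · cases g4
  rw [j1] at hw
  have eL : Even ((V ++ [v + ez i]) ++ (mr q i ++ (p' ++ (x' :: (c :: (tH ++ (y :: t))))))).length := by
    have k1 : Odd (V ++ [v + ez i]).length := by simpa using o4
    have k2 : Odd (x' :: (c :: (tH ++ (y :: t)))).length := by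
      rw [List.length_cons, List.length_cons, List.length_append, List.length_cons]
      obtain ⟨c1, hc1⟩ := e2
      obtain ⟨c2, hc2⟩ := htH.even
      exact ⟨c1 + c2 + 1, by omega⟩
    rw [List.length_append (as := V ++ [v + ez i]), List.length_append (as := mr q i),
      List.length_append (as := p')]
    exact k1.add_odd (m3.add_odd (j2.add_odd k2))
  have hm := mir_ex hw eL
  have rv : ((V ++ [v + ez i]) ++ (mr q i ++ (p' ++ (x' :: (c :: (tH ++ (y :: t))))))).reverse =
      (y :: t).reverse ++ (tH.reverse ++ (c ::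
        x' :: (p'.reverse ++ (mr q (sg i) ++ (V ++ [v + ez i]).reverse)))) := by
    rw [List.reverse_append, List.reverse_append, m1, List.reverse_append, List.reverse_cons (a := x'),
      List.reverse_cons (a := c), List.reverse_append (as := tH)]
    simp only [List.append_assoc, List.singleton_append, List.cons_append, List.nil_append]
  rw [rv] at hm
  have gW : Ge 3 (V ++ [v + ez i]).reverse := ge_rev (ge_snoc gV _)
  have oW : Odd (V ++ [v + ez i]).reverse.length := by
    rw [List.length_reverse]; simpa using o4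
  refine ⟨(y :: t).reverse, x', p'.reverse ++ (mr q (sg i) ++ (V ++ [v + ez i]).reverse),
    ⟨oA, ?_, ?_, ?_, ?_, ?_, ?_, ?_, ?_⟩, hm⟩
  · rcases hA with hA | ⟨y', hA, hy⟩
    · exact Or.inl hA
    · exact Or.inr ⟨y', hA, by rw [← H1.ht_eq]; exact hy⟩
  · rcases j4 with j4 | ⟨_, j4⟩ <;> omega
  · rcases j4 with j4 | ⟨j4, _⟩
    · exact Or.inl j4
    · exact Or.inr j4
  · rw [List.length_append, List.length_append]
    obtain ⟨c, hc⟩ := oW
    omega
  · intro w hw
    rw [List.mem_append, List.mem_append, List.mem_reverse] at hw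
    rcases hw with hw | hw | hw
    · have := j3 w hw; omega
    · exact m5 w hw
    · have := gW w hw; omega
  · obtain ⟨W, w, hW⟩ := exists_snoc (l := (V ++ [v + ez i]).reverse) (by simp)
    refine ⟨p'.reverse ++ (mr q (sg i) ++ W), w, ?_, ?_⟩
    · rw [hW]; simp
    · exact gW w (by rw [hW]; simp)
  · rw [← rv, List.length_reverse]
    exact eL
  · intro hT
    have hm4 : Ge 3 (mr q (sg i)) := fun w hw => hT w (by simp [hw])
    simp only [List.mem_cons, List.not_mem_nil, or_false] at hi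
    rcases hi with rfl | rfl | rfl | rfl | rfl | rfl
    · exact Or.inl rfl
    · have := hm4 1 (by simp [mr, sg]); omega
    · have := hm4 1 (by simp [mr, sg]); omega
    · have := hm4 (q + 2) (by simp [mr, sg])
      exact Or.inr (Or.inl ⟨rfl, by omega⟩)
    · have := hm4 1 (by simp [mr, sg]); omega
    · have := hm4 (q + 1) (by simp [mr, sg])
      exact Or.inr (Or.inr ⟨rfl, by omega⟩)

end HM

end Pool.OddHC
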