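import Pool.Agent.Work.MP_8f87b2_h33.HvG2
import Pool.Agent.Work.MP_8f87b2_h71.H1Low
import Pool.Agent.Work.MP_8f87b2_mid.InAE

/-!
MP_8f87b2_co: **inner words of the right windows with all parts of `R` at least 3 and `q ≥ 1` (bare windows and windows
with markers `≥ 3`) against ALL windows with light beads (`NodeG`, every `H`), both directions** (helper33).
The only hit (`k = 11`, `R = [3][4]`, `q = 1`) is excluded by `hR`.
-/

set_option autoImplicit false
set_option linter.unusedSimpArgs false

namespace Pool.OddHC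

namespace HM

open BinaryTree H1 List

variable {k q : ℕ} {R B S : BinaryTree Unit} {B1 H s : BinaryTree Unit}

theorem crl {M : Multiset ℕ} {x : ℕ} (hx : x < M.sup) : (raise M).count x = M.count x := by
  unfold raise
  rw [Multiset.count_cons_of_ne (by omega), Multiset.count_erase_of_ne (by omega)]

theorem ge_mid1 {q i : ℕ} {ζ η : List ℕ} (hi : i ∈ [0, 1, 3, 6, 8, 9]) (h1 : Ge 3 ζ)
    (h2 : Ge 3 η) : Ge 1 (ζ ++ (mr q i ++ η)) := by
  intro x hx
  rcases List.mem_append.1 hx with hx | hx
  · have := h1 x hx; omega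
  · rcases List.mem_append.1 hx with hx | hx
    · have h0 : Ge (q + 3) ([] : List ℕ) := fun _ h => absurd h List.not_mem_nil
      exact ge_mid (q := q) hi h0 h0 x (by simpa using hx)
    · have := h2 x hx; omega

theorem two_mem {H : BinaryTree Unit} (h : bl H = true) {c : ℕ} {t : List ℕ} (e : wd H = ex true (c :: c :: t))
    (hc : c = 2) : 2 ∈ cont H := by
  subst hc
  rcases bl_cases h with rfl | ⟨H1, _, rfl⟩ | ⟨H1, _, rfl⟩
  · simp [ex, wd] at e
  · rw [wd_node] at e
    simp [ex, wd] at e
  · rw [cont_node]
    exact Multiset.mem_add.2 (Or.inl (by decide))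

theorem ht_TT (x : X k) : OddHC.ht (TT x).1 = OddHC.ht x.1 := by
  rw [OddHC.ht_eq, OddHC.ht_eq, cont_TT]

/-- data of a window of height 4 -/
theorem NodeG.small (h : NodeG k q B1 H s B) (h3 : OddHC.ht s = 3) : OddHC.ht (gR B1 H s B) = 4 ∧
    OddHC.ht (Tsq.sq (gR B1 H s B)).1 = 4 ∧ OddHC.ht B ≤ 4 ∧ q ≤ 1 := by
  have h1 := h.ht
  have h2 := h.dat.htS
  have h4 := h.top
  have h5 := h.big
  refine ⟨by omega, by omega, by omega, by omega⟩

/-- **an inner word of the window is not a word of a window with beads** (words `0 .. 9, 13, 16, 18, 19`) -/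
theorem HvW.rinner_lowAG (h : HvW k q R B S) (w0 : X k) {i : ℕ} (hi' : i ∈ [0, 1, 3, 6, 8, 9])
    {q' : ℕ} {B1 H s B' : BinaryTree Unit} (h' : NodeG k q' B1 H s B')
    (w0' : X k) {j : ℕ} (hj : j ∈ [0, 1, 2, 3, 4, 5, 6, 7, 8, 9, 13, 16, 18, 19])
    (e : TT (H1.wX R B S q w0 i) = gX q' B1 H s B' w0' j) : False := by
  have hj20 : j < 20 := by
    simp only [List.mem_cons, List.not_mem_nil, or_false] at hj
    omega
  have hi20 : i < 20 := by
    simp only [List.mem_cons, List.not_mem_nil, or_false] at hi'
    omega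
  have e00 := e
  obtain ⟨c, t, hc, ht, eH⟩ := bl_two h'.light h'.H0
  obtain ⟨ζ, η, e1, f2, f3, f4, f5⟩ := h.runs w0 hi'
  rw [e, NodeG.word h' w0' hj20, ch_eq] at e1
  have hl' := even3 (q := q) hi' f2 f3
  have g6 := ge_mid1 (q := q) hi' f4 f5
  rcases NodeG.formAG h' hc ht eH hj with ⟨p, x, v, r, k1, k2, k3, k4, k5, k6⟩ | ⟨r, N, k1, k2, k3, k4⟩ | ⟨u, k1⟩ |
    ⟨u, k1⟩
  · have tm : ∀ y ∈ t, y = 1 ∨ y = 2 := ht.mem
    have gp : Ge 1 (p ++ (x :: (c :: (t ++ (v :: r))))) := by
      intro y hy
      simp only [List.mem_append, List.mem_cons] at hy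
      rcases hy with hy | rfl | rfl | hy | rfl | hy
      · have := k3 y hy; omega
      · rcases k4 with k4 | k4 <;> omega
      · omega
      · have := tm y hy; omega
      · omega
      · exact k6 y hy
    have e2 := ex_inj _ _ true g6 gp (by rw [← k1, e1])
    obtain ⟨rfl, rfl, hc2, rfl, rfl⟩ := core_AG h.q1 hi' f2 f3 f4 f5 k2 k3 hc ht k4 (by omega) e2
    obtain ⟨hj3, hs3⟩ : j ∈ [13, 16, 19] ∧ OddHC.ht s = 3 := by
      rcases k5 with k5 | k5
      · omega
      · exact k5.2
    obtain ⟨s1, s2, s3, s4⟩ := NodeG.small h' hs3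
    have hW : OddHC.ht (TT (H1.wX R B S 1 w0 9)).1 = OddHC.ht (gX q' B1 H s B' w0' j).1 := by rw [e00]
    rw [ht_TT, wX_eq h.dat h.size w0 (by norm_num), NodeG.word h' w0' hj20] at hW
    have htop := h.top
    have h00 : OddHC.ht (BinaryTree.nil : BinaryTree Unit) = 0 := rfl
    have hW9 : OddHC.ht (W R (ch (1 + 1)) B S 9) = OddHC.ht R + 2 := by
      simp only [W, ht_node, ht_app, ch_ht, h00]
      omega
    rw [hW9] at hW
    simp only [List.mem_cons, List.not_mem_nil, or_false] at hj3
    rcases hj3 with rfl | rfl | rfl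
    · simp only [W, ht_node, ht_app, ch_ht, h00] at hW
      omega
    · simp only [W, ht_node, ht_app, ch_ht, h00] at hW
      omega
    · -- the word `19`
      have hW2 : cont (TT (H1.wX R B S 1 w0 9)).1 = cont (gX q' B1 H s B' w0' 19).1 := by rw [e00]
      rw [cont_TT, wX_eq h.dat h.size w0 (by norm_num), NodeG.word h' w0' hj20] at hW2
      simp only [W, cont_node, cont_app, ch_cont, cont_nil, add_zero] at hW2
      have hsR : (cont R).sup = OddHC.ht R := (OddHC.ht_eq R).symm
      have n1 : (cont R).count 1 = 0 := by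
        rw [Multiset.count_eq_zero]
        intro hm
        have := h.p3 1 hm
        omega
      have n2 : (cont R).count 2 = 0 := by
        rw [Multiset.count_eq_zero]
        intro hm
        have := h.p3 2 hm
        omega
      have hr1 : ∀ y, y < 3 → (raise (raise (cont R))).count y = (cont R).count y := by
        intro y hy
        rw [crl (by rw [sup_raise]; omega), crl (by omega)]
      set M := cont (Tsq.sq (gR B1 H s B')).1 + raise (cont B') with hM
      have hMs : 4 ≤ M.sup := by
        rw [hM, Multiset.sup_add, ← OddHC.ht_eq, s2]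
        exact le_sup_left
      have c1 := congrArg (Multiset.count 1) hW2
      have c2 := congrArg (Multiset.count 2) hW2
      rw [Multiset.count_add, Multiset.count_add, hr1 1 (by norm_num), crl (by omega), n1] at c1
      rw [Multiset.count_add, Multiset.count_add, hr1 2 (by norm_num), crl (by omega), n2] at c2
      have hq01 : q' = 0 ∨ q' = 1 := by omega
      rcases hq01 with rfl | rfl
      · simp at c1
      · have hmem : 2 ∈ cont (Tsq.sq (gR B1 H s B')).1 := by
          have m1 : 2 ∈ cont (gR B1 H s B') := by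
            have e9 : cont (gR B1 H s B') = cont B1 + (raise (cont (app H s)) + cont B') := by
              unfold gR
              rw [cont_app, cont_node]
            rw [e9]
            refine Multiset.mem_add.2 (Or.inr (Multiset.mem_add.2 (Or.inl ?_)))
            rw [← Multiset.one_le_count_iff_mem, crl (by
              rw [← OddHC.ht_eq, OddHC.ht_app, hs3]
              exact lt_of_lt_of_le (by norm_num) (le_max_right _ _)), Multiset.one_le_count_iff_mem, cont_app]
            exact Multiset.mem_add.2 (Or.inl (two_mem h'.light eH hc2))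
          rw [← h'.dat.cont] at m1
          rcases Multiset.mem_add.1 m1 with m2 | m2
          · have := h'.bare 2 m2
            omega
          · exact m2
        have hc3 : 1 ≤ M.count 2 := by
          rw [Multiset.one_le_count_iff_mem, hM]
          exact Multiset.mem_add.2 (Or.inl hmem)
        have c4 : Multiset.count 2 ({1 + 1} : Multiset ℕ) = 1 := by decide
        rw [c4] at c2
        omega
  · have gp : Ge 1 (N ++ r) := by
      intro x hx
      rcases List.mem_append.1 hx with hx | hx
      · exact (NP_len k2).2 x hx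
      · exact k1 x hx
    have e2 := ex_inj _ _ true g6 gp (by rw [← k4, e1])
    exact core_PG h.q1 hi' f2 f3 f4 f5 k2 k3 e2
  · obtain ⟨y, l, rfl⟩ := odd_ne f2
    have := f4 y (by simp)
    rw [k1] at e1
    exact start_tt (List.cons_append) (by omega) e1.symm
  · obtain ⟨l, y, rfl⟩ := exists_snoc (l := η) (by rintro rfl; simp at f3)
    have := f5 y (by simp)
    rw [k1] at e1
    exact end_ff hl' (L' := ζ ++ (mr q i ++ l)) (z := y) (by simp) (by omega) e1.symm

/-- a pile of height at least 4 at the beginning of a bare word of height 4 -/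
theorem four_start {B : BinaryTree Unit} (h : ∀ x ∈ cont B, 4 ≤ x) (h4 : OddHC.ht B ≤ 4) (h0 : B ≠ .nil) :
    ∃ u, wd B = true :: true :: true :: true :: false :: false :: false :: false :: u := by
  cases B with
  | nil => exact absurd rfl h0
  | node _ A C =>
    change ∀ x ∈ raise (cont A) + cont C, 4 ≤ x at h
    have hA : ∀ x ∈ raise (cont A), 4 ≤ x := fun x hx => h x (Multiset.mem_add.2 (Or.inl hx))
    have h5 : OddHC.ht A ≤ 3 := by
      rw [OddHC.ht_node] at h4
      omega
    rcases comp_cases (c := 4) (by norm_num) hA with ⟨x, rfl, hx⟩ | ⟨h1, h2⟩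
    · rw [ht_pc] at h5
      obtain rfl : x = 3 := by omega
      refine ⟨wd C, ?_⟩
      rw [wd_node, wd_pc]
      simp [List.replicate_succ]
    · exfalso
      have h3 : (cont A).sup ≤ 3 := by rw [← OddHC.ht_eq]; exact h5
      have h6 : cont A ≠ 0 := fun e => h1 (cont_eq_zero.1 e)
      obtain ⟨x, hx⟩ := Multiset.exists_mem_of_ne_zero h6
      have h7 := h2 x hx
      have h8 : x ≤ (cont A).sup := Multiset.le_sup hx
      omega

/-- the word `S` of the exception -/
def S34 : BinaryTree Unit := app (pc 3) (pc 3) △ .nil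

theorem sq34 : Tsq.sq (app (pc 3) (pc 4)) = (S34, .nil) := by
  rfl

theorem ht_le_num33 (t : BinaryTree Unit) : OddHC.ht t ≤ t.numNodes := by
  induction t with
  | nil => exact le_rfl
  | node _ A B hA hB =>
    rw [OddHC.ht_node]
    change max (OddHC.ht A + 1) (OddHC.ht B) ≤ A.numNodes + B.numNodes + 1
    omega

/-- **the exception** -/
theorem NodeG.excep (h : NodeG k 1 B1 H s B) (hs : OddHC.ht s = 3) (hB1 : B1 = .nil)
    (eH : wd H = ex true [1, 1, 2, 2]) (w0 : X k) {S : BinaryTree Unit} (hS : hv S) (hS0 : S ≠ .nil)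
    (hS4 : 4 ≤ OddHC.ht S)
    (e : wd (TT (gX 1 B1 H s B w0 6)).1 = wd (app S (.nil △ .nil) △ pc 2)) : wd S = wd S34 := by
  obtain ⟨b, p, h1, h2, -⟩ := h.four (by omega)
  obtain rfl : b = 0 := by
    rcases b with _ | b
    · rfl
    · exfalso
      rw [hB1] at h1
      exact absurd h1 (by simp [lv3'])
  subst h1 h2
  rw [h.TW w0 (by simp)] at e
  obtain ⟨u, hu⟩ := hv_ttt hS hS0
  have e1 : wd (app S (.nil △ .nil) △ pc 2) = true :: (wd S ++ [true, false, false, true, true, false, false]) := by
    rw [wd_node, wd_app, wd_node, wd_pc]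
    simp [wd, List.replicate_succ]
  rw [e1] at e
  rcases p with _ | p
  · have hBn : B = .nil := by
      by_contra hB0
      obtain ⟨v, hv⟩ := four_start (fun x hx => by have := h.bare x hx; omega) (by
        have := h.top
        omega) hB0
      rw [hv] at e
      have e2 := congrArg (List.drop 1) e
      have hlen : 8 ≤ (wd S).length := by
        rw [wd_length]
        have := ht_le_num33 S
        omega
      have e3 := congrArg (List.take 7) e2
      have e4 : (wd S ++ [true, false, false, true, true, false, false]).take 7 = (wd S).take 7 :=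
        List.take_append_of_le_length (by omega)
      simp only [List.drop_succ_cons, List.drop_zero] at e3
      rw [e4] at e3
      have e5 := wd_take S 7
      rw [← e3] at e5
      simp [co, lv3', wd] at e5
    subst hBn
    obtain ⟨-, -, -, e6, -, -⟩ := Yl_eq 1 0 H
    rw [e6] at e
    have e7 : El 0 H = false :: (co (wd H) ++ [false, false]) := by simp [El, lv3', wd, co]
    rw [e7, eH, wd_ch] at e
    have e8 : wd S34 ++ [true, false, false, true, true, false, false] =
        wd S ++ [true, false, false, true, true, false, false] := by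
      have e9 := (List.cons.inj e).2
      rw [← e9]
      simp [S34, wd_node, wd_app, wd_pc, lv3', wd, co, ex, List.replicate_succ]
    exact (List.append_cancel_right e8).symm
  · exfalso
    rw [wd_three, hu] at e
    simp [co] at e

/-- **an inner word of a window with beads is not a word of the window** (words `0 .. 9, 13, 16, 18, 19`) -/
theorem HvW.rinner_lowRG (h : HvW k q R B S) (hR : R ≠ app (pc 3) (pc 4)) (w0 : X k) {j : ℕ}
    (hj : j ∈ [0, 1, 2, 3, 4, 5, 6, 7, 8, 9, 13, 16, 18, 19])
    {q' : ℕ} {B1 H s B' : BinaryTree Unit} (h' : NodeG k q' B1 H s B')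
    (w0' : X k) {i : ℕ} (hi : i ∈ [0, 1, 3, 6, 8, 9])
    (e : TT (gX q' B1 H s B' w0' i) = H1.wX R B S q w0 j) : False := by
  have hj20 : j < 20 := by
    simp only [List.mem_cons, List.not_mem_nil, or_false] at hj
    omega
  have hi20 : i < 20 := by
    simp only [List.mem_cons, List.not_mem_nil, or_false] at hi
    omega
  obtain ⟨c, tH, hc, htH, eH⟩ := bl_two h'.light h'.H0
  obtain ⟨A, x, T, I, f1⟩ := NodeG.runsMG h' hc htH eH w0' hi
  have hs3 := h'.hs3
  set M := A ++ (tH.reverse ++ (c :: x :: T)) with hM
  have f0 : wd (TT (gX q' B1 H s B' w0' i)).1 = ex true M.reverse := by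
    have := mir_ex f1 I.even
    rw [← this]
    exact congrArg wd (Tsq.mir_mir _).symm
  have e00 := e
  rw [e, wX_eq h.dat h.size w0 hj20, ch_eq] at f0
  have hA3 : Ge 3 A ∨ ∃ y, A = [y] ∧ 2 ≤ y := by
    rcases I.head with h1 | ⟨y, h1, h2⟩
    · exact Or.inl h1
    · exact Or.inr ⟨y, h1, by omega⟩
  have g0 : Ge 1 A := by
    intro y hy
    rcases hA3 with h1 | ⟨z, rfl, h1⟩
    · have := h1 y hy; omega
    · simp at hy; omega
  have hx := I.hx
  have g6 : Ge 1 M := by
    intro y hy
    simp only [hM, List.mem_append, List.mem_cons, List.mem_reverse] at hy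
    rcases hy with hy | hy | rfl | rfl | hy
    · exact g0 y hy
    · have := htH.mem y hy; omega
    · omega
    · omega
    · exact I.pos y hy
  have g7 : Ge 1 M.reverse := ge_rev g6
  have m1 : c ∈ M := by
    rw [hM]; simp
  have h00 : OddHC.ht (BinaryTree.nil : BinaryTree Unit) = 0 := rfl
  rcases h.form3 hj with ⟨r, N, _, k1, k2, k3, _, k5, k6⟩ | ⟨r, N, k1, k2, k3⟩ | ⟨l, k1, k2⟩ | ⟨l, k1, k2⟩
  · have gN : Ge 1 N := by
      intro y hy
      simp only [NS, List.mem_cons, List.not_mem_nil, or_false] at k2
      rcases k2 with rfl | rfl | rfl | rfl | rfl | rfl | rfl <;> simp at hy <;> omega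
    have gp : Ge 1 (r ++ N) := by
      intro y hy
      rcases List.mem_append.1 hy with hy | hy
      · have := k1 y hy; omega
      · exact gN y hy
    have e2 := ex_inj _ _ true g7 gp (by rw [← k3, f0])
    have e3 : M = N.reverse ++ r.reverse := by
      rw [← List.reverse_append, ← e2, List.reverse_reverse]
    rcases NS_rev k2 with hN | hN
    · rw [hN] at e3
      rw [e3] at m1
      simp at m1
      rcases m1 with m1 | m1
      · omega
      · have := k1 c m1
        omega
    · obtain ⟨rfl, hA, hr, hcase⟩ := core_HG h.q1 I.odd hA3 htH.rev hc hx hN (ge_rev k1) e3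
      have hs : OddHC.ht s = 3 := by
        rcases I.head with h1 | ⟨y, h1, h2⟩
        · rw [hA] at h1
          have := h1 2 (by simp)
          omega
        · rw [hA] at h1
          simp at h1
          omega
      obtain ⟨s1, s2, s3, s4⟩ := NodeG.small h' hs
      have hT : Ge 3 T := by
        intro y hy
        have : y ∈ r.reverse := by rw [hr]; simp [hy]
        exact ge_rev k1 y this
      have hx3 : 3 ≤ x := by
        have : x ∈ r.reverse := by rw [hr]; simp
        exact ge_rev k1 x this
      have hW : OddHC.ht (TT (gX q' B1 H s B' w0' i)).1 = OddHC.ht (H1.wX R B S 1 w0 j).1 := by rw [e00]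
      rw [ht_TT, wX_eq h.dat h.size w0 hj20, NodeG.word h' w0' hi20] at hW
      have htop := h.top
      have htS := h.dat.htS
      -- the words `9` and `19`, `B ≠ nil`
      have big6 : j = 9 ∨ (j = 19 ∧ B ≠ .nil) → 6 ≤ OddHC.ht (W R (ch (1 + 1)) B S j) := by
        rintro (rfl | ⟨rfl, hB⟩)
        · simp only [W, ht_node, ht_app, ch_ht, h00]
          omega
        · have hB4 : 4 ≤ OddHC.ht B := by
            have h6 : cont B ≠ 0 := fun e => hB (cont_eq_zero.1 e)
            obtain ⟨y, hy⟩ := Multiset.exists_mem_of_ne_zero h6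
            have h7 := h.dat.bare y hy
            have h8 : y ≤ (cont B).sup := Multiset.le_sup hy
            rw [OddHC.ht_eq]
            omega
          simp only [W, ht_node, ht_app, ch_ht, h00]
          omega
      have big5 : j = 19 → 5 ≤ OddHC.ht (W R (ch (1 + 1)) B S j) := by
        rintro rfl
        simp only [W, ht_node, ht_app, ch_ht, h00]
        omega
      have sm : i = 0 → OddHC.ht (W (gR B1 H s B') (ch (q' + 1)) B' (Tsq.sq (gR B1 H s B')).1 i) ≤ 4 := by
        rintro rfl
        simp only [W, ht_node, ht_app, ch_ht, h00]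
        omega
      have sm6 : i = 6 → OddHC.ht (W (gR B1 H s B') (ch (q' + 1)) B' (Tsq.sq (gR B1 H s B')).1 i) ≤ 5 := by
        rintro rfl
        simp only [W, ht_node, ht_app, ch_ht, h00]
        omega
      have hi06 : i = 0 ∨ (i = 6 ∧ 1 ≤ q') := by
        rcases I.big hT with h1 | h1 | h1
        · exact Or.inl h1
        · exact Or.inr h1
        · omega
      have hle : OddHC.ht (W (gR B1 H s B') (ch (q' + 1)) B' (Tsq.sq (gR B1 H s B')).1 i) ≤ 5 := by
        rcases hi06 with h1 | h1
        · have := sm h1; omega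
        · exact sm6 h1.1
      rcases hcase with ⟨hN2, -, -⟩ | ⟨hN2, hu, rfl⟩
      · have hN3 : N = [1 + 1, 1 + 1] := by
          rw [← List.reverse_reverse N, hN2]; rfl
        have := big6 (k5 hN3)
        omega
      · have hN3 : N = [1, 2, 1 + 1, 1 + 1] := by
          rw [← List.reverse_reverse N, hN2]; rfl
        obtain ⟨rfl, rfl⟩ := k6 hN3
        have h5 := big5 rfl
        rcases hi06 with h1 | ⟨rfl, h1⟩
        · have := sm h1; omega
        · obtain rfl : q' = 1 := by omega
          have hB1 : B1 = .nil := by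
            rcases I.hb with h2 | h2
            · omega
            · exact h2
          have htH2 : tH = [2, 2] := by
            rw [← List.reverse_reverse tH, hu]; rfl
          rw [htH2] at eH
          have hS4 : 4 ≤ OddHC.ht S := by omega
          have hSn : S ≠ .nil := by
            rintro rfl
            rw [h00] at hS4
            omega
          have e5 : wd (TT (gX 1 B1 H s B' w0' 6)).1 = wd (app S (.nil △ .nil) △ pc 2) := by
            rw [e00, wX_eq h.dat h.size w0 hj20, ch_eq]
            rfl
          have e6 := NodeG.excep h' hs hB1 eH w0' (hv_of_cont h.pS) hSn hS4 e5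
          have e7 : S = S34 := (wd_inj S S34 [] [] (by rw [e6])).1
          apply hR
          apply H1.sq_inj h.ne (by simp [pc, app])
          rw [h.sq, sq34, e7]
  · obtain ⟨n1, n2⟩ := NP_len k2
    have gp : Ge 1 (N ++ r) := by
      intro y hy
      rcases List.mem_append.1 hy with hy | hy
      · exact n2 y hy
      · have := k1 y hy; omega
    have e2 := ex_inj _ _ true g7 gp (by rw [← k3, f0])
    have e3 : M = r.reverse ++ N.reverse := by
      rw [← List.reverse_append, ← e2, List.reverse_reverse]
    rw [hM] at e3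
    have e4 : (A ++ tH.reverse) ++ (c :: (x :: T)) = r.reverse ++ N.reverse := by
      rw [← e3]; simp
    refine core_TG (c := c) (by omega) (by rw [List.length_cons]; have := I.len; omega) (ge_rev k1)
      (by rw [List.length_reverse, n1]) e4
  · have gp : Ge 1 (1 :: l) := by
      intro y hy
      rcases List.mem_cons.1 hy with rfl | hy
      · exact le_rfl
      · exact k1 y hy
    have e2 := ex_inj _ _ true g7 gp (by rw [← k2, f0])
    obtain ⟨T', z, h1, h2⟩ := I.last
    have e3 : M.reverse = z :: (A ++ (tH.reverse ++ (c :: x :: T'))).reverse := by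
      rw [hM, h1]; simp
    rw [e3, List.cons.injEq] at e2
    omega
  · have gp : Ge 1 (l ++ [1]) := by
      intro y hy
      rcases List.mem_append.1 hy with hy | hy
      · exact k1 y hy
      · simp at hy; omega
    have e2 := ex_inj _ _ true g7 gp (by rw [← k2, f0])
    obtain ⟨y, l', rfl⟩ := odd_ne I.odd
    have hy : 2 ≤ y := by
      rcases hA3 with h1 | ⟨z, h0, h1⟩
      · have := h1 y (by simp); omega
      · simp at h0; omega
    have e3 := congrArg List.reverse e2
    rw [List.reverse_reverse, List.reverse_append, hM] at e3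
    simp only [List.cons_append, List.reverse_cons, List.reverse_nil, List.nil_append,
      List.cons.injEq] at e3
    omega

/-- **inner words of the window, words of a window with beads** -/
theorem HvW.rinner_GG (h : HvW k q R B S) (hR : R ≠ app (pc 3) (pc 4)) (w0 : X k) {i : ℕ}
    (hi : i ∈ [0, 1, 3, 6, 8, 9]) {q' : ℕ} {B1 H s B' : BinaryTree Unit} (h' : NodeG k q' B1 H s B')
    (w0' : X k) {j : ℕ} (hj : j < 20) :
    TT (H1.wX R B S q w0 i) ≠ gX q' B1 H s B' w0' j := by
  intro e
  by_cases hl : j ∈ [0, 1, 2, 3, 4, 5, 6, 7, 8, 9, 13, 16, 18, 19]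
  · exact h.rinner_lowAG w0 hi h' w0' hl e
  · have h3 : ∃ j' ∈ [0, 1, 3, 6, 8, 9],
        (j', j) ∈ [(0, 10), (1, 11), (3, 12), (6, 15), (8, 14), (9, 17)] := by
      simp only [List.mem_cons, List.not_mem_nil, or_false, not_or] at hl
      have : j = 10 ∨ j = 11 ∨ j = 12 ∨ j = 14 ∨ j = 15 ∨ j = 17 := by omega
      rcases this with rfl | rfl | rfl | rfl | rfl | rfl
      · exact ⟨0, by simp, by simp⟩
      · exact ⟨1, by simp, by simp⟩
      · exact ⟨3, by simp, by simp⟩
      · exact ⟨8, by simp, by simp⟩
      · exact ⟨6, by simp, by simp⟩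
      · exact ⟨9, by simp, by simp⟩
    obtain ⟨j', h4, h5⟩ := h3
    rw [← h'.link w0' h5] at e
    refine h.rinner_lowRG hR w0 (j := i) ?_ h' w0' h4 (TT.injective e).symm
    simp only [List.mem_cons, List.not_mem_nil, or_false] at hi ⊢
    omega

/-- **inner words of a window with beads, words of the window** -/
theorem HvW.rinner_GG' (h : HvW k q R B S) (hR : R ≠ app (pc 3) (pc 4)) (w0 : X k) {j : ℕ} (hj : j < 20)
    {q' : ℕ} {B1 H s B' : BinaryTree Unit} (h' : NodeG k q' B1 H s B')
    (w0' : X k) {i : ℕ} (hi : i ∈ [0, 1, 3, 6, 8, 9]) :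
    TT (gX q' B1 H s B' w0' i) ≠ H1.wX R B S q w0 j := by
  intro e
  by_cases hl : j ∈ [0, 1, 2, 3, 4, 5, 6, 7, 8, 9, 13, 16, 18, 19]
  · exact h.rinner_lowRG hR w0 hl h' w0' hi e
  · have h3 : ∃ j' ∈ [0, 1, 3, 6, 8, 9],
        (j', j) ∈ [(0, 10), (1, 11), (3, 12), (6, 15), (8, 14), (9, 17)] := by
      simp only [List.mem_cons, List.not_mem_nil, or_false, not_or] at hl
      have : j = 10 ∨ j = 11 ∨ j = 12 ∨ j = 14 ∨ j = 15 ∨ j = 17 := by omega
      rcases this with rfl | rfl | rfl | rfl | rfl | rfl
      · exact ⟨0, by simp, by simp⟩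
      · exact ⟨1, by simp, by simp⟩
      · exact ⟨3, by simp, by simp⟩
      · exact ⟨8, by simp, by simp⟩
      · exact ⟨6, by simp, by simp⟩
      · exact ⟨9, by simp, by simp⟩
    obtain ⟨j', h4, h5⟩ := h3
    rw [← wX_link h.dat h.size w0 h5] at e
    refine h.rinner_lowAG w0 h4 h' w0' (j := i) ?_ (TT.injective e).symm
    simp only [List.mem_cons, List.not_mem_nil, or_false] at hi ⊢
    omega

end HM

end Pool.OddHC
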