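import Pool.Agent.Work.MP_8f87b2_h60.InAr

/-!
MP_8f87b2_co: inner words of the right windows `W R [q+1] B S` with ALL PARTS of `R` AT LEAST 3 (parts of `B` at least
`q + 3`), i.e. bare windows and windows with markers `3 ≤ c < q + 3`, against the windows with beads (helper33).
Generalizes `NodeM.rinner_G`, `NodeM.rinner_G'` of helper60.
-/

set_option autoImplicit false
set_option linter.unusedSimpArgs false

namespace Pool.OddHC

namespace HM

open BinaryTree H1 List

variable {k q : ℕ} {R B S : BinaryTree Unit} {B1 H s : BinaryTree Unit}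

/-- a right window with all parts of `R` at least 3 -/
structure HvW (k q : ℕ) (R B S : BinaryTree Unit) : Prop where
  q1 : 1 ≤ q
  dat : H1.Dat q R B S
  p3 : ∀ x ∈ cont R, 3 ≤ x
  size : R.numNodes + q + 3 = k

theorem HvW.sq (h : HvW k q R B S) : Tsq.sq R = (S, B) := h.dat.sq

theorem HvW.ne (h : HvW k q R B S) : R ≠ .nil := h.dat.ne

theorem HvW.top (h : HvW k q R B S) : q + 3 ≤ OddHC.ht R := h.dat.big

theorem HvW.eq (h : HvW k q R B S) : cont B + cont S = cont R := h.dat.cont

theorem HvW.pB (h : HvW k q R B S) : ∀ x ∈ cont B, 3 ≤ x := by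
  intro x hx
  apply h.p3
  rw [← h.eq]
  exact Multiset.mem_add.2 (Or.inl hx)

theorem HvW.pS (h : HvW k q R B S) : ∀ x ∈ cont S, 3 ≤ x := by
  intro x hx
  apply h.p3
  rw [← h.eq]
  exact Multiset.mem_add.2 (Or.inr hx)

/-- the data of a window with `c`, in run form -/
theorem HvW.ZY (h : HvW k q R B S) : ∃ ζ η : List ℕ,
    co (H1.cc R) ++ true :: co (wd B) = ex true ζ ∧ false :: co (aa R) = ex false η ∧
    Odd ζ.length ∧ Odd η.length ∧ Ge 3 ζ ∧ Ge 3 η := by
  have hR := h.ne
  have hc : 2 ≤ 3 := by omega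
  have ht := h.top
  have hq1 := h.q1
  have hth : Tsq.ht R = OddHC.ht R := H1.ht_eq R
  obtain ⟨y, l, f1, f2, f3, f4, f5⟩ := aa_runs hc R hR h.p3
  obtain ⟨z, m, g1, g2, g3, g4, g5⟩ := cc_runs hc R hR h.p3
  have hB : ∀ x ∈ cont B, 3 ≤ x := h.pB
  obtain ⟨rB, k1, k2, k3, _⟩ := hv_runs hc B hB
  have hy : 3 ≤ y := by
    by_cases hl : l = []
    · have := f4 hl
      omega
    · exact f5 hl
  have hz : 3 ≤ z := by
    by_cases hl : m = []
    · have := g4 hl
      omega
    · exact g5 hl
  have hodd : Odd (m ++ [z + 1]).length := by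
    rw [List.length_append, List.length_singleton]
    exact g2.add_one
  refine ⟨(m ++ [z + 1]) ++ rB, (y + 1) :: l, ?_, ?_, ?_, ?_, ?_, ?_⟩
  · rw [g1, ex_co, k1, ex_co, ex_odd hodd]
    exact ex_last g2 true z _
  · rw [f1, ex_co]
    exact ex_succ false y l
  · rw [List.length_append]
    exact hodd.add_even k2
  · rw [List.length_cons]
    exact f2.add_one
  · intro w hw
    rw [List.mem_append, List.mem_append, List.mem_singleton] at hw
    rcases hw with (hw | rfl) | hw
    · exact g3 w hw
    · omega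
    · exact k3 w hw
  · intro w hw
    rw [List.mem_cons] at hw
    rcases hw with rfl | hw
    · omega
    · exact f3 w hw

/-- the inner words -/
theorem HvW.inn60 (h : HvW k q R B S) (w0 : X k) {i : ℕ} (hi : i ∈ [0, 1, 3, 6, 8, 9]) :
    wd (TT (wX R B S q w0 i)).1 =
      (co (H1.cc R) ++ true :: co (wd B)) ++ (midM q i ++ (false :: co (aa R))) := by
  have hR := h.ne
  have hth : Tsq.ht R = OddHC.ht R := H1.ht_eq R
  have htop := h.top
  have hQ : Tsq.ht (pc (q + 1)) = q + 1 := by rw [H1.ht_eq, ht_pc]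
  have hn : Tsq.ht (BinaryTree.nil : BinaryTree Unit) = 0 := rfl
  have hsq := h.sq
  have hB : (Tsq.sq R).2 = B := by rw [hsq]
  have hi20 : i < 20 := by
    simp only [List.mem_cons, List.not_mem_nil, or_false] at hi
    omega
  have e0 : (wX R B S q w0 i).1 = W R (pc (q + 1)) B S i := by
    rw [wX_eq h.dat h.size w0 hi20, ch_eq]
  have hne : (wX R B S q w0 i).1 ≠ .nil := by
    intro e
    have h1 := X_num (wX R B S q w0 i)
    rw [e] at h1
    have h2 := h.size
    simp [BinaryTree.numNodes] at h1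
    omega
  rw [TT_ac _ hne, e0]
  change co (H1.cc _) ++ true :: (co (wd _) ++ false :: co (aa _)) = _
  have hQ0 : co (wd (pc (q + 1))) = List.replicate (q + 1) false ++ List.replicate (q + 1) true :=
    co_pc _
  have hQ3 : co (wd (pc (q + 3))) = List.replicate (q + 3) false ++ List.replicate (q + 3) true :=
    co_pc _
  have g1 : aa (R △ .nil) = true :: aa R := aa_ge hR (by rw [hn]; omega)
  have g2 : H1.cc (R △ .nil) = H1.cc R ++ false :: wd B := by
    rw [cc_ge hR (by rw [hn]; omega), hB]
  have g3 : (Tsq.sq (R △ .nil)).2 = .nil := by rw [Tsq.sq_ge hR (by rw [hn]; omega)]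
  simp only [List.mem_cons, List.not_mem_nil, or_false] at hi
  rcases hi with rfl | rfl | rfl | rfl | rfl | rfl
  · -- 0
    have hz : Tsq.ht (pc (q + 3)) ≤ Tsq.ht R := by
      rw [H1.ht_eq, ht_pc]; omega
    change co (H1.cc (app R (pc (q + 3)))) ++
      true :: (co (wd (Tsq.sq (app R (pc (q + 3)))).2) ++ false :: co (aa (app R (pc (q + 3))))) = _
    rw [(ac_app R _ hR hz).1, (ac_app R _ hR hz).2, Tsq.sq_app R _ hR hz]
    change co (H1.cc R) ++ true :: (co (wd (app (Tsq.sq R).2 _)) ++ false :: co (aa R)) = _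
    rw [hB, wd_app, co_app, hQ3]
    simp only [midM, List.append_assoc, List.cons_append]
  · -- 1
    have hz : Tsq.ht (.nil △ app (pc (q + 1)) (.nil △ .nil)) ≤ Tsq.ht R := by
      rw [Tsq.ht_node, Tsq.ht_app, Tsq.ht_node, hQ, hn]; omega
    change co (H1.cc (app R _)) ++ true :: (co (wd (Tsq.sq (app R _)).2) ++ false :: co (aa (app R _))) = _
    rw [(ac_app R _ hR hz).1, (ac_app R _ hR hz).2, Tsq.sq_app R _ hR hz]
    change co (H1.cc R) ++ true :: (co (wd (app (Tsq.sq R).2 _)) ++ false :: co (aa R)) = _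
    rw [hB, wd_app, co_app, wd_node, wd_app, wd_node]
    simp only [co_cons, co_app, hQ0, midM, wd, co_nil, List.append_assoc, List.cons_append,
      List.nil_append, Bool.not_true, Bool.not_false, List.append_nil]
  · -- 3
    have hz : Tsq.ht (.nil △ pc (q + 1)) ≤ Tsq.ht R := by
      rw [Tsq.ht_node, hQ, hn]; omega
    have hA : app R (.nil △ pc (q + 1)) ≠ .nil := Tsq.app_ne_nil hR
    have f1 : aa (app R (.nil △ pc (q + 1)) △ .nil) = true :: aa R := by
      rw [aa_ge hA (by rw [hn]; omega), (ac_app R _ hR hz).1]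
    have f2 : H1.cc (app R (.nil △ pc (q + 1)) △ .nil) =
        H1.cc R ++ false :: wd (app B (.nil △ pc (q + 1))) := by
      rw [cc_ge hA (by rw [hn]; omega), (ac_app R _ hR hz).2, Tsq.sq_app R _ hR hz, hB]
    have f3 : (Tsq.sq (app R (.nil △ pc (q + 1)) △ .nil)).2 = .nil := by
      rw [Tsq.sq_ge hA (by rw [hn]; omega)]
    change co (H1.cc (app R (.nil △ pc (q + 1)) △ .nil)) ++
      true :: (co (wd (Tsq.sq (app R (.nil △ pc (q + 1)) △ .nil)).2) ++
        false :: co (aa (app R (.nil △ pc (q + 1)) △ .nil))) = _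
    rw [f1, f2, f3, wd_app, wd_node]
    simp only [co_cons, co_app, hQ0, midM, wd, co_nil, List.append_assoc, List.cons_append,
      List.nil_append, Bool.not_true, Bool.not_false, List.append_nil]
  · -- 6
    have f1 : aa (R △ (pc (q + 1) △ .nil)) = true :: aa R :=
      aa_ge hR (by rw [Tsq.ht_node, hQ, hn]; omega)
    have f2 : H1.cc (R △ (pc (q + 1) △ .nil)) = H1.cc R ++ false :: wd B := by
      rw [cc_ge hR (by rw [Tsq.ht_node, hQ, hn]; omega), hB]
    have f3 : (Tsq.sq (R △ (pc (q + 1) △ .nil))).2 = pc (q + 1) △ .nil := by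
      rw [Tsq.sq_ge hR (by rw [Tsq.ht_node, hQ, hn]; omega)]
    change co (H1.cc (R △ (pc (q + 1) △ .nil))) ++
      true :: (co (wd (Tsq.sq (R △ (pc (q + 1) △ .nil))).2) ++
        false :: co (aa (R △ (pc (q + 1) △ .nil)))) = _
    rw [f1, f2, f3, wd_node]
    simp only [co_cons, co_app, hQ0, midM, wd, co_nil, List.append_assoc, List.cons_append,
      List.nil_append, Bool.not_true, Bool.not_false, List.append_nil]
  · -- 8
    have hr : Tsq.ht (R △ .nil) = Tsq.ht R + 1 := by
      rw [Tsq.ht_node, hn]; omega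
    have hlt : Tsq.ht (.nil : BinaryTree Unit) + 1 < Tsq.ht (R △ .nil) := by rw [hn, hr]; omega
    have hy : Tsq.ht (.nil △ (R △ .nil)) = Tsq.ht R + 1 := by
      rw [Tsq.ht_node, hn, hr]; omega
    have hp : Tsq.ht (pc (q + 1)) < Tsq.ht (.nil △ (R △ .nil)) := by rw [hQ, hy]; omega
    have f1 : aa (app (pc (q + 1)) (.nil △ (R △ .nil))) =
        wd (pc (q + 1)) ++ true :: false :: true :: aa R := by
      rw [(ac_pre _ _ hp).1, aa_lt hlt, g1]
      rfl
    have f2 : H1.cc (app (pc (q + 1)) (.nil △ (R △ .nil))) = H1.cc R ++ false :: wd B := by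
      rw [(ac_pre _ _ hp).2, cc_lt hlt, g2]
    have f3 : (Tsq.sq (app (pc (q + 1)) (.nil △ (R △ .nil)))).2 = .nil := by
      rw [Tsq.sq_pre _ _ hp]
      change (Tsq.sq (.nil △ (R △ .nil))).2 = _
      cases hS : (Tsq.sq (R △ .nil)).1 with
      | nil => exact absurd hS (Tsq.sq_ne (by simp))
      | node _ Xx Y => rw [Tsq.sq_lt hlt hS]; exact g3
    change co (H1.cc (app (pc (q + 1)) (.nil △ (R △ .nil)))) ++
      true :: (co (wd (Tsq.sq (app (pc (q + 1)) (.nil △ (R △ .nil)))).2) ++
        false :: co (aa (app (pc (q + 1)) (.nil △ (R △ .nil))))) = _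
    rw [f1, f2, f3]
    simp only [co_cons, co_app, hQ0, midM, wd, co_nil, List.append_assoc, List.cons_append,
      List.nil_append, Bool.not_true, Bool.not_false, List.append_nil]
  · -- 9
    have hr : Tsq.ht (R △ .nil) = Tsq.ht R + 1 := by
      rw [Tsq.ht_node, hn]; omega
    have f0 : (R △ .nil : BinaryTree Unit) ≠ .nil := by simp
    have f1 : aa ((R △ .nil) △ pc (q + 1)) = true :: true :: aa R := by
      rw [aa_ge f0 (by rw [hQ, hr]; omega), g1]
    have f2 : H1.cc ((R △ .nil) △ pc (q + 1)) = (H1.cc R ++ false :: wd B) ++ false :: [] := by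
      rw [cc_ge f0 (by rw [hQ, hr]; omega), g2, g3]
      rfl
    have f3 : (Tsq.sq ((R △ .nil) △ pc (q + 1))).2 = pc (q + 1) := by
      rw [Tsq.sq_ge f0 (by rw [hQ, hr]; omega)]
    change co (H1.cc ((R △ .nil) △ pc (q + 1))) ++
      true :: (co (wd (Tsq.sq ((R △ .nil) △ pc (q + 1))).2) ++
        false :: co (aa ((R △ .nil) △ pc (q + 1)))) = _
    rw [f1, f2, f3]
    simp only [co_cons, co_app, hQ0, midM, wd, co_nil, List.append_assoc, List.cons_append,
      List.nil_append, Bool.not_true, Bool.not_false, List.append_nil]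

/-- **the runs of the inner words** -/
theorem HvW.runs (h : HvW k q R B S) (w0 : X k) {i : ℕ} (hi : i ∈ [0, 1, 3, 6, 8, 9]) :
    ∃ ζ η : List ℕ, wd (TT (wX R B S q w0 i)).1 = ex true (ζ ++ (mr q i ++ η)) ∧
      Odd ζ.length ∧ Odd η.length ∧ Ge 3 ζ ∧ Ge 3 η := by
  obtain ⟨ζ, η, e1, e2, h1, h2, h3, h4⟩ := h.ZY
  have hz0 : ζ ≠ [] := by rintro rfl; simp at h1
  obtain ⟨ζ', z, rfl⟩ := exists_snoc hz0
  have hz1 : Even ζ'.length := by
    rw [List.length_append, List.length_singleton] at h1
    by_contra h5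
    rw [Nat.not_even_iff_odd] at h5
    exact (Nat.not_odd_iff_even.2 h5.add_one) h1
  cases η with
  | nil => simp at h2
  | cons e η' =>
    have hw := h.inn60 w0 hi
    rw [e1, e2] at hw
    have hl : ∀ n : ℕ, Odd (ζ' ++ [z + n]).length := by
      intro n
      simpa using h1
    have hl' : ∀ n : ℕ, Odd ((e + n) :: η').length := by
      intro n
      simpa using h2
    have hl0 := hl 0
    have k1 : ∀ n, List.replicate n true ++ [true] = List.replicate (n + 1) true := fun n =>
      (List.replicate_succ').symm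
    have k2 : ∀ n, List.replicate n false ++ [false] = List.replicate (n + 1) false := fun n =>
      (List.replicate_succ').symm
    have nt : (!true) = false := rfl
    simp only [List.mem_cons, List.not_mem_nil, or_false] at hi
    rcases hi with rfl | rfl | rfl | rfl | rfl | rfl
    · refine ⟨ζ' ++ [z], e :: η', ?_, h1, h2, h3, h4⟩
      have em : ∀ l, ex false (mr q 0 ++ l) = ex false (mr q 0) ++ ex false l := fun l =>
        ex_even (by simp [mr]) false l
      rw [hw, ex_odd h1, nt, em]
      simp [mr, midM, ex]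
    · refine ⟨ζ' ++ [z], e :: η', ?_, h1, h2, h3, h4⟩
      have em : ∀ l, ex false (mr q 1 ++ l) = ex false (mr q 1) ++ ex false l := fun l =>
        ex_even (by simp [mr]; decide) false l
      rw [hw, ex_odd h1, nt, em]
      simp [mr, midM, ex]
    · refine ⟨ζ' ++ [z], (e + 1) :: η', ?_, h1, hl' 1, h3, ge_cons h4 1⟩
      have em : ∀ l, ex false (mr q 3 ++ l) = ex false (mr q 3) ++ ex false l := fun l =>
        ex_even (by simp [mr]; decide) false l
      rw [hw, ex_odd h1, nt, em, ← ex_succ]
      simp only [mr, midM, ex, Bool.not_true, Bool.not_false, ← k1 (q + 1)]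
      simp [List.replicate_succ]
    · refine ⟨ζ' ++ [z + 1], (e + 1) :: η', ?_, hl 1, hl' 1, ge_snoc h3 1, ge_cons h4 1⟩
      have em : ∀ l, ex false (mr q 6 ++ l) = ex false (mr q 6) ++ ex false l := fun l =>
        ex_even (by simp [mr]) false l
      rw [hw, ex_odd (hl 1), nt, em, ← ex_succ]
      have k3 := ex_last hz1 true z (false :: (List.replicate (q + 1) false ++
        (List.replicate (q + 1) true ++ [true, false])) ++ ex false (e :: η'))
      simp only [midM, List.cons_append, List.nil_append, List.append_assoc] at k3 ⊢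
      rw [k3]
      simp only [mr, ex, Bool.not_true, Bool.not_false, ← k1 (q + 1)]
      simp [List.replicate_succ]
    · refine ⟨ζ' ++ [z + 1], e :: η', ?_, hl 1, h2, ge_snoc h3 1, h4⟩
      have em : ∀ l, ex false (mr q 8 ++ l) = ex false (mr q 8) ++ ex false l := fun l =>
        ex_even (by simp [mr]; decide) false l
      rw [hw, ex_odd (hl 1), nt, em]
      have k3 := ex_last hz1 true z (false :: (List.replicate (q + 1) false ++
        (List.replicate (q + 1) true ++ [false, true])) ++ ex false (e :: η'))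
      simp only [midM, List.cons_append, List.nil_append, List.append_assoc] at k3 ⊢
      rw [k3]
      simp only [mr, ex, Bool.not_true, Bool.not_false]
      simp [List.replicate_succ]
    · refine ⟨ζ' ++ [z + 1 + 1], (e + 1 + 1) :: η', ?_, hl 2, hl' 2, ge_snoc h3 2, ge_cons h4 2⟩
      have em : ∀ l, ex false (mr q 9 ++ l) = ex false (mr q 9) ++ ex false l := fun l =>
        ex_even (by simp [mr]) false l
      rw [hw, ex_odd (hl 2), nt, em, ← ex_succ, ← ex_succ]
      have k3 := ex_last hz1 true z (true :: (List.replicate (q + 1) false ++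
        (List.replicate (q + 1) true ++ [false, false])) ++ ex false (e :: η'))
      have k4 := ex_last hz1 true (z + 1) ((List.replicate (q + 1) false ++
        (List.replicate (q + 1) true ++ [false, false])) ++ ex false (e :: η'))
      simp only [midM, List.cons_append, List.nil_append, List.append_assoc] at k3 k4 ⊢
      rw [k3, k4]
      simp only [mr, ex, Bool.not_true, Bool.not_false]
      simp [List.replicate_succ]

/-- **the form of the words `j`** which are not ends of links, sharper -/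
theorem HvW.form3 (h : HvW k q R B S) {j : ℕ} (hj : j ∈ [0, 1, 2, 3, 4, 5, 6, 7, 8, 9, 13, 16, 18, 19]) :
    (∃ r N : List ℕ, r ≠ [] ∧ Ge 3 r ∧ N ∈ NS q ∧ wd (W R (pc (q + 1)) B S j) = ex true (r ++ N) ∧
      (N = [q + 3, q + 3] → j = 0) ∧ (N = [q + 1, q + 1] → j = 9 ∨ (j = 19 ∧ B ≠ .nil)) ∧
      (N = [1, 2, q + 1, q + 1] → j = 19 ∧ B = .nil)) ∨
    (∃ r N : List ℕ, Ge 3 r ∧ N ∈ NP q ∧ wd (W R (pc (q + 1)) B S j) = ex true (N ++ r)) ∨
    (∃ l : List ℕ, Ge 1 l ∧ wd (W R (pc (q + 1)) B S j) = ex true (1 :: l)) ∨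
    (∃ l : List ℕ, Ge 1 l ∧ wd (W R (pc (q + 1)) B S j) = ex true (l ++ [1])) := by
  have hc : 2 ≤ 3 := by omega
  have hR := h.ne
  have hSn : S ≠ .nil := by
    rintro rfl
    have h1 := h.dat.htS
    have h2 := h.top
    rw [ht] at h1
    omega
  have hB : ∀ x ∈ cont B, 3 ≤ x := h.pB
  have hS : ∀ x ∈ cont S, 3 ≤ x := h.pS
  obtain ⟨⟨r0, a1, a2, a3, a4⟩, ⟨r1, b1, b2, b3, b4⟩, ⟨r2, c1, c2, c3, c4⟩, ⟨r3, d1, d2, d3, d4⟩, _,
    ⟨r5, f1, f2, f3, f4⟩⟩ := runs_of hc hR h.p3
  obtain ⟨⟨s0, g1, g2, g3, g4⟩, ⟨s1, k1, k2, k3, k4⟩, _, _, _, _⟩ := runs_of hc hSn hS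
  have one : ∀ {r : List ℕ}, Ge 3 r → Ge 1 r := fun h x hx => by
    have := h x hx; omega
  simp only [List.mem_cons, List.not_mem_nil, or_false] at hj
  rcases hj with rfl | rfl | rfl | rfl | rfl | rfl | rfl | rfl | rfl | rfl | rfl | rfl | rfl | rfl
  · -- 0
    left
    refine ⟨r0, [q + 3, q + 3], a1, a3, by simp [NS], ?_, fun _ => rfl, by intro e; simp at e, by intro e; simp at e⟩
    change wd (app R (pc (q + 3))) = _
    rw [wd_app, a4, wd_pc, ex_even a2]
    simp [ex]
  · -- 1
    right; right; right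
    refine ⟨r0 ++ [1, 1, q + 1, q + 1, 1], ?_, ?_⟩
    · intro x hx
      rcases List.mem_append.1 hx with hx | hx
      · exact one a3 x hx
      · simp at hx; omega
    · change wd (app R (.nil △ app (pc (q + 1)) (.nil △ .nil))) = _
      rw [wd_app, wd_node, wd_app, wd_node, a4, wd_q, List.append_assoc, List.append_assoc, ex_even a2]
      simp [ex, wd]
  · -- 2
    right; right; left
    refine ⟨1 :: (r0 ++ [1, 1, q + 1, q + 1]), ?_, ?_⟩
    · intro x hx
      rcases List.mem_cons.1 hx with rfl | hx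
      · exact le_rfl
      · rcases List.mem_append.1 hx with hx | hx
        · exact one a3 x hx
        · simp at hx; omega
    · change wd (.nil △ app R (.nil △ pc (q + 1))) = _
      rw [wd_node, wd_app, wd_node, a4, wd_q, ex_cons, ex_cons, Bool.not_not, ex_even a2]
      simp [ex, wd]
  · -- 3
    left
    refine ⟨r1, [1, 1, q + 1, q + 2], b1, b3, by simp [NS], ?_, by intro e; simp at e, by intro e; simp at e, by intro e; simp at e⟩
    change wd (app R (.nil △ pc (q + 1)) △ .nil) = _
    rw [wd_node, wd_app, wd_node, wd_q, List.append_assoc, b4, ex_even b2]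
    simp [ex, wd, rep1, List.replicate_succ]
  · -- 4
    right; left
    refine ⟨r0, [q + 2, q + 1, 1, 2], a3, by simp [NP], ?_⟩
    change wd (app (pc (q + 1)) (.nil △ .nil) △ R) = _
    rw [wd_node, wd_app, wd_node, wd_q, a4]
    simp [ex, wd, rep1, List.replicate_succ]
  · -- 5
    right; left
    refine ⟨r0, [q + 2, q + 2, 1, 1], a3, by simp [NP], ?_⟩
    change wd (pc (q + 1) △ (.nil △ R)) = _
    rw [wd_node, wd_node, wd_q, a4]
    simp [ex, wd, rep1, List.replicate_succ]
  · -- 6
    left
    refine ⟨r3, [q + 2, q + 2], d1, d3, by simp [NS], ?_, by intro e; simp at e, by intro e; simp at e, by intro e; simp at e⟩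
    change wd (R △ (pc (q + 1) △ .nil)) = _
    rw [wd_node, wd_node, wd_q, d4, ex_even d2]
    simp [ex, wd, rep1, List.replicate_succ]
  · -- 7
    right; left
    refine ⟨r2, [q + 1, q + 1, 2, 1], c3, by simp [NP], ?_⟩
    change wd (app (pc (q + 1)) ((.nil △ R) △ .nil)) = _
    rw [wd_app, wd_node, wd_node, wd_q]
    have := c4 []
    rw [List.append_nil] at this
    simp [ex, wd, ← this]
  · -- 8
    right; left
    refine ⟨r3, [q + 1, q + 1, 1, 1], d3, by simp [NP], ?_⟩
    change wd (app (pc (q + 1)) (.nil △ (R △ .nil))) = _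
    rw [wd_app, wd_node, wd_node, wd_q]
    have := d4 []
    rw [List.append_nil] at this
    simp [ex, wd, ← this]
  · -- 9
    left
    refine ⟨r5, [q + 1, q + 1], f1, f3, by simp [NS], ?_, by intro e; simp at e, fun _ => Or.inl rfl, by intro e; simp at e⟩
    change wd ((R △ .nil) △ pc (q + 1)) = _
    rw [wd_node, wd_node, wd_q, ex_even f2, ← f4]
    simp [ex, wd]
  · -- 13
    left
    by_cases hBn : B = .nil
    · subst hBn
      refine ⟨s0, [2, 1, q + 1, q + 2], g1, g3, by simp [NS], ?_, by intro e; simp at e, by intro e; simp at e, by intro e; simp at e⟩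
      change wd (app S (app .nil (.nil △ pc (q + 1)) △ .nil)) = _
      rw [wd_app, wd_node, app, wd_node, wd_q, g4, ex_even g2]
      simp [ex, wd, rep1, List.replicate_succ]
    · obtain ⟨_, ⟨t1, l1, l2, l3, l4⟩, _, _, _, _⟩ := runs_of hc hBn hB
      refine ⟨s0 ++ t1, [1, 1, q + 1, q + 2], by simp [g1], ?_, by simp [NS], ?_, by intro e; simp at e, by intro e; simp at e, by intro e; simp at e⟩
      · intro x hx
        rcases List.mem_append.1 hx with hx | hx
        · exact g3 x hx
        · exact l3 x hx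
      · change wd (app S (app B (.nil △ pc (q + 1)) △ .nil)) = _
        rw [wd_app, wd_node, wd_app, wd_node, wd_q, g4, List.append_assoc, l4, List.append_assoc,
          ex_even g2, ex_even l2]
        simp [ex, wd, rep1, List.replicate_succ]
  · -- 16
    left
    by_cases hBn : B = .nil
    · subst hBn
      refine ⟨s0, [1, 1, q + 2, q + 2], g1, g3, by simp [NS], ?_, by intro e; simp at e, by intro e; simp at e, by intro e; simp at e⟩
      change wd (app S (.nil △ (pc (q + 1) △ .nil))) = _
      rw [wd_app, wd_node, wd_node, wd_q, g4, ex_even g2]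
      simp [ex, wd, rep1, List.replicate_succ]
    · obtain ⟨_, _, _, ⟨t3, l1, l2, l3, l4⟩, _, _⟩ := runs_of hc hBn hB
      refine ⟨s0 ++ t3, [q + 2, q + 2], by simp [g1], ?_, by simp [NS], ?_, by intro e; simp at e, by intro e; simp at e, by intro e; simp at e⟩
      · intro x hx
        rcases List.mem_append.1 hx with hx | hx
        · exact g3 x hx
        · exact l3 x hx
      · change wd (app S (B △ (pc (q + 1) △ .nil))) = _
        rw [wd_app, wd_node, wd_node, wd_q, g4, l4,
          show s0 ++ t3 ++ [q + 2, q + 2] = s0 ++ (t3 ++ [q + 2, q + 2]) from List.append_assoc _ _ _,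
          ex_even g2, ex_even l2]
        simp [ex, wd, rep1, List.replicate_succ]
  · -- 18
    by_cases hBn : B = .nil
    · subst hBn
      right; right; right
      refine ⟨[q + 1, q + 1, 1, 1] ++ (s0 ++ [1]), ?_, ?_⟩
      · intro x hx
        simp only [List.mem_append, List.mem_cons, List.not_mem_nil, or_false] at hx
        rcases hx with (rfl | rfl | rfl | rfl) | hx | rfl <;> first | omega | skip
        exact one g3 x hx
      · change wd (app (pc (q + 1)) (.nil △ app S (.nil △ .nil))) = _
        rw [wd_app, wd_node, wd_app, wd_node, wd_q, g4]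
        have e1 := ex_even g2 true [1, 1]
        simp [ex, wd] at e1 ⊢
        rw [e1]
    · right; left
      obtain ⟨_, _, _, ⟨t3, l1, l2, l3, l4⟩, _, _⟩ := runs_of hc hBn hB
      refine ⟨s0 ++ t3, [q + 1, q + 1, 1, 1], ?_, by simp [NP], ?_⟩
      · intro x hx
        rcases List.mem_append.1 hx with hx | hx
        · exact g3 x hx
        · exact l3 x hx
      · change wd (app (pc (q + 1)) (.nil △ app S (B △ .nil))) = _
        have l5 := l4 []
        rw [wd_app, wd_node, wd_app, wd_node, wd_q, g4]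
        have e1 := ex_even g2 true t3
        simp [ex, wd] at l5 e1 ⊢
        rw [e1, l5]
  · -- 19
    left
    by_cases hBn : B = .nil
    · subst hBn
      refine ⟨s1, [1, 2, q + 1, q + 1], k1, k3, by simp [NS], ?_, by intro e; simp at e, by intro e; simp at e, fun _ => ⟨rfl, rfl⟩⟩
      change wd (app S (.nil △ .nil) △ pc (q + 1)) = _
      rw [wd_node, wd_app, wd_node, wd_q, List.append_assoc, k4, ex_even k2]
      simp [ex, wd, rep1, List.replicate_succ]
    · obtain ⟨_, _, _, _, ⟨t4, l1, l2, l3, l4⟩, _⟩ := runs_of hc hBn hB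
      refine ⟨s1 ++ t4, [q + 1, q + 1], by simp [k1], ?_, by simp [NS], ?_, by intro e; simp at e, fun _ => Or.inr ⟨rfl, hBn⟩,
        by intro e; simp at e⟩
      · intro x hx
        rcases List.mem_append.1 hx with hx | hx
        · exact k3 x hx
        · exact l3 x hx
      · change wd (app S (B △ .nil) △ pc (q + 1)) = _
        rw [wd_node, wd_app, wd_node, wd_q, List.append_assoc, k4, List.append_assoc, ex_even k2,
          ex_even l2]
        have l5 := l4 (ex true [q + 1, q + 1])
        simp [ex, wd] at l5 ⊢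
        rw [l5]

end HM

end Pool.OddHC
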