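import Pool.Agent.Work.MP_8f87b2_h33.InJV
import Pool.Agent.Work.MP_8f87b2_h2.KHi

/-!
MP_8f87b2_co: the inner words of the windows `TyA` WITHOUT a part 1 (`m = 0`, `H = (())^a`) against JV = `Is9 nil nil S`
(helper33). The exact list of the possible hits: `H1.NodeG.hits0`.
-/

set_option autoImplicit false

namespace Pool.OddHC

open Finset Equiv BinaryTree Pool.Agent.Work.MP_8f87b2_co

open H1

variable {k : ℕ} {S : BinaryTree Unit} {F F' : Set (Cyc k)} {g g' : DG k}

/-- the word of `T (((S)))` starts with `[n]` -/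
theorem JVthree_b {a b : List Bool} (h3 : FM S a b) {v : X k} (hv : v.1 = (S △ .nil) △ .nil) {n : ℕ}
    (hn : n ≤ ht S) {t : List Bool}
    (e : wd (TT v).1 = List.replicate n true ++ (List.replicate n false ++ t)) :
    ∃ u, b = List.replicate n false ++ (List.replicate n true ++ u) := by
  have h4 := h3.len_b
  rw [wdT_three hv h3] at e
  obtain ⟨v, hv'⟩ := pre_twoJV (x := true) (n := n) (b := b.map not)
    (r := true :: false :: false :: false :: a.map not) (by rw [e]; rfl)
    (by rw [List.length_map]; omega)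
  refine ⟨v.map not, ?_⟩
  have := congrArg (List.map not) hv'
  rw [List.map_map] at this
  have hn : (not ∘ not) = id := by funext x; cases x <;> rfl
  rw [hn, List.map_id] at this
  rw [this]
  simp

/-- the word of `T (((S)))` ends with `[n]` -/
theorem JVsix_a {a b : List Bool} (h3 : FM S a b) {v : X k} (hv : v.1 = (S △ .nil) △ .nil) {n : ℕ}
    (hn : n + 1 ≤ ht S) {t : List Bool}
    (e : wd (TT v).1 = t ++ (List.replicate n true ++ List.replicate n false)) :
    ∃ u, a = u ++ (List.replicate n false ++ List.replicate n true) := by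
  have h4 := h3.len_a
  rw [wdT_three hv h3] at e
  have e1 := congrArg List.reverse e
  obtain ⟨v, hv'⟩ := pre_twoJV (x := false) (n := n) (b := (a.map not).reverse) (t := t.reverse)
    (r := false :: false :: true :: true :: (b.map not).reverse) (by
      have : List.replicate n (!false) = List.replicate n true := rfl
      rw [this]
      rw [List.reverse_append, List.reverse_append, List.reverse_append, List.reverse_replicate,
        List.reverse_replicate] at e1
      rw [← List.append_assoc, ← e1]
      simp) (by rw [List.length_reverse, List.length_map]; omega)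
  refine ⟨v.reverse.map not, ?_⟩
  have := congrArg List.reverse hv'
  rw [List.reverse_reverse] at this
  have h6 := congrArg (List.map not) this
  rw [List.map_map] at h6
  have hn : (not ∘ not) = id := by funext x; cases x <;> rfl
  rw [hn, List.map_id] at h6
  rw [h6]
  simp

/-- a word `a 1 b` with `b` below the last letter of `a 1`: the first maximum -/
theorem FM_ofh {t : BinaryTree Unit} {a b : List Bool} {h : ℕ} (e : wd t = a ++ true :: b)
    (ht : Tsq.ht t = h + 1) (h1 : ∀ m, (a.take m).count true ≤ (a.take m).count false + h)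
    (h2 : a.count true = a.count false + h) : FM t a b := by
  refine ⟨e, ?_, by rw [ht]; omega⟩
  intro m
  have := h1 m
  rw [ht]
  omega

theorem upJV_append {A C : List Bool} {h d : ℕ} (hA : ∀ m, (A.take m).count true ≤ (A.take m).count false + h)
    (hd : A.count true = A.count false + d)
    (hC : ∀ m, (C.take m).count true + d ≤ (C.take m).count false + h) (m : ℕ) :
    ((A ++ C).take m).count true ≤ ((A ++ C).take m).count false + h := by
  rw [List.take_append, List.count_append, List.count_append]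
  rcases le_or_gt m A.length with hm | hm
  · have e : m - A.length = 0 := by omega
    rw [e]
    simp only [List.take_zero, List.count_nil]
    have := hA m
    omega
  · rw [List.take_of_length_le hm.le]
    have := hC (m - A.length)
    omega

theorem upJV_co (t : BinaryTree Unit) (m : ℕ) : ((co (wd t)).take m).count true ≤ ((co (wd t)).take m).count false := by
  have e : (co (wd t)).take m = ((wd t).take m).map not := by
    rw [List.map_take]
    rfl
  rw [e, Tsq.count_not_true, Tsq.count_not_false]
  exact wd_take t m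

theorem coJV_bal (t : BinaryTree Unit) : (co (wd t)).count true = (co (wd t)).count false := by
  have h := wd_counts t
  rw [show (co (wd t)).count true = (wd t).count false from Tsq.count_not_true _,
    show (co (wd t)).count false = (wd t).count true from Tsq.count_not_false _]
  omega

/-- the part before the first maximum of `T` of a word of a window of height 4 -/
theorem upJV_A (p : ℕ) (B : BinaryTree Unit) {h : ℕ} (hh : 4 ≤ h) :
    (∀ m, ((([true, true, true] ++ co (wd (lv3' p .nil))) ++ [true] ++ co (wd B)).take m).count true ≤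
      ((([true, true, true] ++ co (wd (lv3' p .nil))) ++ [true] ++ co (wd B)).take m).count false + h) ∧
    (([true, true, true] ++ co (wd (lv3' p .nil))) ++ [true] ++ co (wd B)).count true =
      (([true, true, true] ++ co (wd (lv3' p .nil))) ++ [true] ++ co (wd B)).count false + 4 := by
  have b1 := coJV_bal (lv3' p .nil)
  have b2 := coJV_bal B
  have u1 := upJV_co (lv3' p .nil)
  have u2 := upJV_co B
  have t1 : ∀ m, (([true, true, true] : List Bool).take m).count true ≤
      (([true, true, true] : List Bool).take m).count false + h := by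
    intro m
    rcases m with _ | _ | _ | m <;> simp <;> omega
  have t2 : ∀ m, (([true] : List Bool).take m).count true + 3 ≤
      (([true] : List Bool).take m).count false + h := by
    intro m
    rcases m with _ | m <;> simp <;> omega
  refine ⟨fun m => upJV_append (upJV_append (upJV_append t1 (d := 3) (by simp) (fun m => by
    have := u1 m
    omega)) (d := 3) (by
      rw [List.count_append, List.count_append, b1]
      simp
      omega) t2) (d := 4) (by
      rw [List.count_append, List.count_append, List.count_append, List.count_append, b1]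
      simp
      omega) (fun m => by
      have := u2 m
      omega) m, ?_⟩
  rw [List.count_append, List.count_append, List.count_append, List.count_append, List.count_append,
    List.count_append, b1, b2]
  simp
  omega

/-- the new word `S(())` -/
theorem Is9.w0F (h : Is9 .nil .nil S F g) {w : X k} (e : w.1 = app S ((.nil △ .nil) △ .nil)) : cyc w ∈ F := by
  obtain ⟨u, h1, rfl, rfl⟩ := h
  have h2 : (u 0).1 = app S ((.nil △ .nil) △ .nil) := h1.word 0 (by norm_num)
  have h3 : w = u 0 := Subtype.ext (e.trans h2.symm)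
  rw [h3]
  exact Or.inl rfl

namespace H1

variable {q : ℕ} {B1 H s B : BinaryTree Unit}

/-- a light `H` without a part 1 ends with `(())` -/
theorem NodeG.H_two (h : NodeG k q B1 H s B) (h1 : 1 ∉ cont (gR B1 H s B)) : ∃ H', H = app H' two := by
  rcases bl_snoc h.light h.H0 with ⟨H', rfl | rfl⟩
  · exfalso
    apply h1
    have e : cont (gR B1 (app H' (.nil △ .nil)) s B) =
        cont B1 + (raise (cont (app (app H' (.nil △ .nil)) s)) + cont B) := by
      unfold gR
      rw [cont_app, cont_node]
    rw [e]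
    refine Multiset.mem_add.2 (Or.inr (Multiset.mem_add.2 (Or.inl ?_)))
    have hs : 3 ≤ OddHC.ht s := h.hs3
    have h4 : 3 ≤ (cont (app (app H' (.nil △ .nil)) s)).sup := by
      rw [← OddHC.ht_eq, OddHC.ht_app]
      exact le_trans hs (le_max_right _ _)
    rw [one_raise_iff (by omega), cont_app, cont_app]
    exact Multiset.mem_add.2 (Or.inl (Multiset.mem_add.2 (Or.inr (by decide))))
  · exact ⟨H', rfl⟩

/-- the end of the inner words of a window of height 4 without a part 1 -/
theorem NodeG.end0 (h : NodeG k q B1 H s B) (h3 : OddHC.ht s ≤ 3) (h1 : 1 ∉ cont (gR B1 H s B))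
    (w0 : X k) {i : ℕ} (hi : i ∈ [0, 1, 3, 6, 8, 9]) :
    ∃ v, wd (TT (gX q B1 H s B w0 i)).1 = v ++ [true, true, false, false] := by
  obtain ⟨H', rfl⟩ := h.H_two h1
  obtain ⟨b, p, rfl, rfl, -⟩ := h.four h3
  rw [h.TW w0 hi]
  have hE : El b (app H' two) = (co (wd (lv3' b .nil)) ++ false :: (co (wd H') ++ [false, false])) ++
      [true, true, false, false] := by
    unfold El
    rw [wd_app]
    simp [co, wd]
  obtain ⟨e0, e1, e3, e6, e8, e9⟩ := Yl_eq q b (app H' two)
  have hY : ∃ v, Yl q b (app H' two) i = v ++ [true, true, false, false] := by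
    simp only [List.mem_cons, List.not_mem_nil, or_false] at hi
    rcases hi with rfl | rfl | rfl | rfl | rfl | rfl
    · rw [e0, hE]
      exact ⟨false :: false :: (co (wd (ch (q + 1))) ++ true :: true :: false ::
        (co (wd (lv3' b .nil)) ++ false :: (co (wd H') ++ [false, false]))), by simp⟩
    · rw [e1, hE]
      exact ⟨false :: true :: (co (wd (ch (q + 1))) ++ false :: true :: false ::
        (co (wd (lv3' b .nil)) ++ false :: (co (wd H') ++ [false, false]))), by simp⟩
    · rw [e3, hE]
      exact ⟨false :: true :: (co (wd (ch (q + 1))) ++ true :: false :: false ::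
        (co (wd (lv3' b .nil)) ++ false :: (co (wd H') ++ [false, false]))), by simp⟩
    · rw [e6, hE]
      exact ⟨true :: false :: (co (wd (ch (q + 1))) ++ true :: false :: false ::
        (co (wd (lv3' b .nil)) ++ false :: (co (wd H') ++ [false, false]))), by simp⟩
    · rw [e8, hE]
      exact ⟨true :: false :: (co (wd (ch (q + 1))) ++ false :: true :: false ::
        (co (wd (lv3' b .nil)) ++ false :: (co (wd H') ++ [false, false]))), by simp⟩
    · rw [e9, hE]
      exact ⟨true :: true :: (co (wd (ch (q + 1))) ++ false :: false :: false ::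
        (co (wd (lv3' b .nil)) ++ false :: (co (wd H') ++ [false, false]))), by simp⟩
  obtain ⟨v, hv⟩ := hY
  refine ⟨true :: true :: true :: (co (wd (lv3' p .nil)) ++ true :: (co (wd B) ++ v)), ?_⟩
  rw [hv]
  simp

/-- **the possible hits** -/
theorem NodeG.hits0 (h : NodeG k q B1 H s B) (h1 : 1 ∉ cont (gR B1 H s B)) (w0 : X k) {i : ℕ}
    (hi : i ∈ [0, 1, 3, 6, 8, 9]) (h' : Is9 .nil .nil S F' g') (hone : 1 ∉ cont S) (hS3 : 3 ≤ OddHC.ht S)
    (hd : cyc (gX q B1 H s B w0 0) ∉ F') (hh : OddHC.ht (gR B1 H s B) ≤ OddHC.ht S)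
    (hm : TT (gX q B1 H s B w0 i) ∈ g'.B) :
    ∃ a b, FM S a b ∧ (
      (i = 6 ∧ OddHC.ht s = 3 ∧ q ≤ 1 ∧ OddHC.ht S = 5 ∧
        ∃ u, b = List.replicate (q + 2) false ++ (List.replicate (q + 2) true ++ u)) ∨
      (i = 9 ∧ OddHC.ht s = 3 ∧ q = 1 ∧ OddHC.ht S = 6 ∧
        ∃ u, b = List.replicate (q + 1) false ++ (List.replicate (q + 1) true ++ u)) ∨
      (i = 9 ∧ 1 ≤ q ∧ OddHC.ht S = OddHC.ht (gR B1 H s B) ∧
        raise (raise (cont S)) = raise (raise (cont (gR B1 H s B))) + {q + 1} ∧
        ((∃ u, a = u ++ (List.replicate (q + 1) false ++ List.replicate (q + 1) true)) ∨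
          ∃ u, b = List.replicate (q + 1) false ++ (List.replicate (q + 1) true ++ u)))) := by
  have hi' : i < 20 := by
    simp only [List.mem_cons, List.not_mem_nil, or_false] at hi
    omega
  have hht := h.ht
  have hs3 := h.hs3
  have hbig := h.big
  have hsupS : (cont S).sup = OddHC.ht S := (OddHC.ht_eq S).symm
  have hsupR : (cont (gR B1 H s B)).sup = OddHC.ht (gR B1 H s B) := (OddHC.ht_eq _).symm
  have h00 : OddHC.ht (BinaryTree.nil : BinaryTree Unit) = 0 := rfl
  have r0 : (raise (cont (BinaryTree.nil : BinaryTree Unit))).count 1 = 1 := by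
    rw [cont_nil, raise_zero]; rfl
  have hQ := ch_ht (q + 1)
  have hQ1 : OddHC.ht (ch (q + 1) △ .nil) = q + 2 := by rw [ht_node, hQ, h00]; omega
  have hSne : S ≠ .nil := by
    rintro rfl
    rw [h00] at hS3
    omega
  obtain ⟨a, b, hFM⟩ := exFMJV hSne
  refine ⟨a, b, hFM, ?_⟩
  have hcW : cont (TT (gX q B1 H s B w0 i)).1 =
      cont (W (gR B1 H s B) (ch (q + 1)) B (Tsq.sq (gR B1 H s B)).1 i) := by
    rw [cont_TT, h.word w0 hi']
  have hhW : OddHC.ht (TT (gX q B1 H s B w0 i)).1 =
      OddHC.ht (W (gR B1 H s B) (ch (q + 1)) B (Tsq.sq (gR B1 H s B)).1 i) := by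
    rw [OddHC.ht_eq, hcW, ← OddHC.ht_eq]
  have hlp := fun (hw : (∃ v, wd (TT (gX q B1 H s B w0 i)).1 = true :: false :: v) ∨
      (∃ v, wd (TT (gX q B1 H s B w0 i)).1 = true :: true :: false :: v) ∨
      ∃ v, wd (TT (gX q B1 H s B w0 i)).1 = v ++ [true, false]) => h.inner_lp w0 hi hw rfl
  -- the content of `R` has no part 1
  have hR1 : (cont (gR B1 H s B)).count 1 = 0 := Multiset.count_eq_zero_of_notMem h1
  have hS1 : (cont S).count 1 = 0 := Multiset.count_eq_zero_of_notMem hone
  -- `S (())` is only possible for `ht s = 3`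
  have hs4 : ∀ v, wd (TT (gX q B1 H s B w0 i)).1 = v ++ [true, true, false, false] →
      OddHC.ht s = 3 := by
    intro v hv
    by_contra hne
    obtain ⟨v', hv'⟩ := NodeG.end5 h (by omega) w0 hi
    rw [hv] at hv'
    have := congrArg List.reverse hv'
    simp at this
  have h20 : (cont ((BinaryTree.nil △ .nil : BinaryTree Unit) △ .nil)) = {2} := rfl
  -- words with a part 1
  have one_mem : i = 1 ∨ i = 3 ∨ i = 8 ∨ (i = 9 ∧ q = 0) →
      1 ≤ (cont (TT (gX q B1 H s B w0 i)).1).count 1 := by
    rw [hcW]
    rintro (rfl | rfl | rfl | ⟨rfl, rfl⟩)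
    · simp only [W, cont_app, cont_node, Multiset.count_add, r0]
      omega
    · simp only [W, cont_node, cont_nil, add_zero]
      rw [count_raise_lt (by
        rw [cont_app, Multiset.sup_add, hsupR]
        exact lt_of_lt_of_le (show 1 < OddHC.ht (gR B1 H s B) by omega) le_sup_left), cont_app,
        Multiset.count_add, cont_node, Multiset.count_add, r0]
      omega
    · simp only [W, cont_app, cont_node, Multiset.count_add, r0]
      omega
    · simp only [W, cont_node, cont_nil, add_zero, ch_cont, Multiset.count_add, zero_add,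
        Multiset.count_singleton_self]
      omega
  -- heights
  have hW01 : i = 0 ∨ i = 1 → OddHC.ht (TT (gX q B1 H s B w0 i)).1 = OddHC.ht (gR B1 H s B) := by
    rw [hhW]
    rintro (rfl | rfl)
    · simp only [W, ht_app, ht_node, hQ, h00]
      omega
    · simp only [W, ht_app, ht_node, hQ, h00]
      omega
  have hW6 : i = 6 → OddHC.ht (TT (gX q B1 H s B w0 i)).1 = OddHC.ht (gR B1 H s B) + 1 := by
    rw [hhW]
    rintro rfl
    simp only [W, ht_node, hQ, h00]
    omega
  have hW9 : i = 9 → OddHC.ht (TT (gX q B1 H s B w0 i)).1 = OddHC.ht (gR B1 H s B) + 2 := by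
    rw [hhW]
    rintro rfl
    simp only [W, ht_node, hQ, h00]
    omega
  have hi2 : i = 0 ∨ i = 6 ∨ (i = 9 ∧ 1 ≤ q) ∨ (i = 1 ∨ i = 3 ∨ i = 8 ∨ (i = 9 ∧ q = 0)) := by
    simp only [List.mem_cons, List.not_mem_nil, or_false] at hi
    omega
  -- the words with the content of `((S))`
  have key36 : cont (TT (gX q B1 H s B w0 i)).1 = raise (raise (cont S)) → i = 9 ∧ 1 ≤ q ∧
      OddHC.ht S = OddHC.ht (gR B1 H s B) ∧
      raise (raise (cont S)) = raise (raise (cont (gR B1 H s B))) + {q + 1} := by
    intro hc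
    have hc1 : (cont (TT (gX q B1 H s B w0 i)).1).count 1 = 0 := by
      rw [hc, count_raise2 (by omega), hS1]
    have hc2 : OddHC.ht (TT (gX q B1 H s B w0 i)).1 = OddHC.ht S + 2 := by
      rw [OddHC.ht_eq, hc, sup_raise, sup_raise, hsupS]
    rcases hi2 with h0 | h6 | ⟨h9, hq⟩ | h1'
    · have := hW01 (Or.inl h0)
      omega
    · have := hW6 h6
      omega
    · refine ⟨h9, hq, ?_, ?_⟩
      · have := hW9 h9
        omega
      · rw [← hc, hcW, h9]
        simp only [W, cont_node, cont_nil, add_zero, ch_cont]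
    · have := one_mem h1'
      omega
  have hl17 : TT (TT (gX q B1 H s B w0 9)) = gX q B1 H s B w0 17 := h.link w0 (by simp)
  rcases h'.cases9 hm with e | e | e | e | e | e | ⟨v, e, e1⟩ | ⟨⟨Z, e⟩, _⟩ | ⟨⟨Z, e⟩, _⟩
  · -- `S(())`
    have hwd : wd (TT (gX q B1 H s B w0 i)).1 = wd S ++ [true, true, false, false] := by
      rw [e, wd_app, wd_node, wd_node]
      simp [wd]
    have hs3' := hs4 _ hwd
    have hc1 : (cont (TT (gX q B1 H s B w0 i)).1).count 1 = 0 := by
      rw [e, cont_app, h20, Multiset.count_add, hS1]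
      rfl
    have hhS : OddHC.ht (TT (gX q B1 H s B w0 i)).1 = OddHC.ht S := by
      rw [e, ht_app]
      have : OddHC.ht ((BinaryTree.nil △ .nil : BinaryTree Unit) △ .nil) = 2 := rfl
      omega
    have heT : Tsq.ht (TT (gX q B1 H s B w0 i)).1 = OddHC.ht (TT (gX q B1 H s B w0 i)).1 := H1.ht_eq _
    have hFM2 : FM (TT (gX q B1 H s B w0 i)).1 a (b ++ [true, true, false, false]) := by
      rw [e]
      have h5 := hFM.app_right (Z := (.nil △ .nil) △ .nil) (by
        rw [H1.ht_eq, H1.ht_eq]
        have : OddHC.ht ((BinaryTree.nil △ .nil : BinaryTree Unit) △ .nil) = 2 := rfl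
        omega)
      have e6 : wd ((BinaryTree.nil △ .nil : BinaryTree Unit) △ .nil) = [true, true, false, false] := rfl
      rw [e6] at h5
      exact h5
    obtain ⟨H', hH'⟩ := h.H_two h1
    obtain ⟨b', p, hB1, hs', -⟩ := h.four (by omega)
    subst hB1 hs' hH'
    have hTW := h.TW w0 hi
    obtain ⟨e0, e1, e3, e6, e8, e9⟩ := Yl_eq q b' (app H' two)
    have hE : El b' (app H' two) = (co (wd (lv3' b' .nil)) ++ false :: (co (wd H') ++ [false, false])) ++
        [true, true, false, false] := by
      unfold El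
      rw [wd_app]
      simp [co, wd]
    have hcoQ : co (wd (ch (q + 1))) = List.replicate (q + 1) false ++ List.replicate (q + 1) true := by
      rw [wd_ch]
      simp [co]
    rcases hi2 with h0 | h6 | ⟨h9, hq⟩ | h1'
    · exfalso
      subst h0
      apply hd
      have h7 := h'.w0F e
      have h8 : cyc (TT (gX q (lv3' b' .nil) (app H' two) (lv3' (p + 1) .nil) B w0 0)) =
          cyc (gX q (lv3' b' .nil) (app H' two) (lv3' (p + 1) .nil) B w0 0) := cyc_eq.2 ⟨-1, by simp⟩
      rw [h8] at h7
      exact h7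
    · subst h6
      have h7 := hW6 rfl
      rw [e6, hE, hcoQ] at hTW
      obtain ⟨v1, v2⟩ := upJV_A p B (h := 4) le_rfl
      have h8 := FM_ofh (t := (TT (gX q (lv3' b' .nil) (app H' two) (lv3' (p + 1) .nil) B w0 6)).1)
        (a := ([true, true, true] ++ co (wd (lv3' p .nil))) ++ [true] ++ co (wd B))
        (b := (List.replicate (q + 2) false ++ (List.replicate (q + 2) true ++ ([false, false] ++
          (co (wd (lv3' b' .nil)) ++ false :: (co (wd H') ++ [false, false]))))) ++ [true, true, false, false])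
        (h := 4) (by
          have r1 : List.replicate (q + 2) false = false :: List.replicate (q + 1) false := rfl
          have r2 : List.replicate (q + 2) true = List.replicate (q + 1) true ++ [true] :=
            List.replicate_succ'
          rw [hTW, r1, r2]
          simp) (by omega) v1 v2
      obtain ⟨-, h9⟩ := hFM2.uniq h8
      left
      exact ⟨rfl, hs3', by omega, by omega, _, List.append_cancel_right h9⟩
    · subst h9
      have h7 := hW9 rfl
      rw [e9, hE, hcoQ] at hTW
      obtain ⟨A, hA, v1, v2⟩ : ∃ A, A = (([true, true, true] ++ co (wd (lv3' p .nil))) ++ [true] ++ co (wd B)) ∧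
          (∀ m, (A.take m).count true ≤ (A.take m).count false + 5) ∧ A.count true = A.count false + 4 :=
        ⟨_, rfl, upJV_A p B (by norm_num)⟩
      have h8 := FM_ofh (t := (TT (gX q (lv3' b' .nil) (app H' two) (lv3' (p + 1) .nil) B w0 9)).1)
        (a := A ++ [true])
        (b := (List.replicate (q + 1) false ++ (List.replicate (q + 1) true ++ ([false, false, false] ++
          (co (wd (lv3' b' .nil)) ++ false :: (co (wd H') ++ [false, false]))))) ++ [true, true, false, false])
        (h := 5) (by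
          rw [hTW, hA]
          simp) (by omega)
        (fun m => upJV_append v1 v2 (fun m => by
          rcases m with _ | m <;> simp) m) (by
          rw [List.count_append, List.count_append, v2]
          simp)
      obtain ⟨-, h9⟩ := hFM2.uniq h8
      right; left
      exact ⟨rfl, hs3', by omega, by omega, _, List.append_cancel_right h9⟩
    · exfalso
      have := one_mem h1'
      omega
  · exfalso
    refine hlp (Or.inr (Or.inl ⟨false :: wd S, ?_⟩))
    rw [e, wd_node, wd_node]; simp [wd]
  · exfalso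
    refine hlp (Or.inr (Or.inl ⟨wd S ++ [false], ?_⟩))
    rw [e, wd_node, wd_node]; simp [wd]
  · -- `((S))`
    obtain ⟨rfl, hq, hts, hce⟩ := key36 (cont_three e)
    right; right
    refine ⟨rfl, hq, hts, hce, Or.inr ?_⟩
    refine JVthree_b hFM e (n := q + 1) (by omega) (t := true :: (wd ((Tsq.sq (gR B1 H s B)).1 △ B) ++ [false])) ?_
    rw [hl17, h.word w0 (by norm_num)]
    simp only [W, wd_app, wd_node, wd_ch]
    simp [wd]
  · exfalso
    have hwd : wd (TT (gX q B1 H s B w0 i)).1 = true :: (wd S ++ [true, false, false]) := by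
      rw [e, wd_node, wd_app, wd_node]
      simp [wd]
    by_cases h4 : 4 ≤ OddHC.ht s
    · obtain ⟨v, hv⟩ := NodeG.end5 h h4 w0 hi
      rw [hwd] at hv
      have := congrArg List.reverse hv
      simp at this
    · obtain ⟨v, hv⟩ := h.end0 (by omega) h1 w0 hi
      obtain ⟨r, hr⟩ := wd_last hSne
      rw [hwd, hr] at hv
      have := congrArg List.reverse hv
      simp at this
  · exfalso
    refine hlp (Or.inr (Or.inr ⟨true :: (wd S ++ [false]), ?_⟩))
    rw [e, wd_node, wd_node]; simp [wd]
  · -- `T² ((S))`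
    obtain ⟨rfl, hq, hts, hce⟩ := key36 (cont_six e e1)
    right; right
    refine ⟨rfl, hq, hts, hce, Or.inl ?_⟩
    have h5 : TT v = gX q B1 H s B w0 9 := TT.injective e1
    refine JVsix_a hFM e (n := q + 1) (by omega) (t := true :: true :: (wd (gR B1 H s B) ++ [false, false])) ?_
    rw [h5, h.word w0 (by norm_num)]
    simp only [W, wd_node, wd_ch]
    simp [wd]
  · exfalso
    refine hlp (Or.inr (Or.inr ⟨wd Z, ?_⟩))
    rw [e, wd_app, wd_node]; simp [wd]
  · exfalso
    refine hlp (Or.inl ⟨wd Z, ?_⟩)
    rw [e, wd_node]; simp [wd]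

/-- the part 2 of `R` -/
theorem NodeG.two_mem (h : NodeG k q B1 H s B) (h1 : 1 ∉ cont (gR B1 H s B)) : 1 ≤ (cont (gR B1 H s B)).count 2 := by
  obtain ⟨H', rfl⟩ := h.H_two h1
  have hs : 3 ≤ OddHC.ht s := h.hs3
  have e : cont (gR B1 (app H' two) s B) = cont B1 + (raise (cont (app (app H' two) s)) + cont B) := by
    unfold gR
    rw [cont_app, cont_node]
  have h4 : 3 ≤ (cont (app (app H' two) s)).sup := by
    rw [← OddHC.ht_eq, OddHC.ht_app]
    exact le_trans hs (le_max_right _ _)
  have h5 := two_le_count (H' := H')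
  rw [e, Multiset.count_add, Multiset.count_add, count_raise_lt (by omega), cont_app, Multiset.count_add]
  omega

end H1

/-- the hits of a window with the data `q, R = B1 (H s) B, s` against JV over `S = a 1 b` (first maximum) -/
def Hit0 (q : ℕ) (R s S : BinaryTree Unit) (a b : List Bool) : Prop :=
  (ht s = 3 ∧ q ≤ 1 ∧ ht S = 5 ∧ ∃ u, b = List.replicate (q + 2) false ++ (List.replicate (q + 2) true ++ u)) ∨
  (ht s = 3 ∧ q = 1 ∧ ht S = 6 ∧ ∃ u, b = List.replicate (q + 1) false ++ (List.replicate (q + 1) true ++ u)) ∨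
  (1 ≤ q ∧ ht S = ht R ∧ raise (raise (cont S)) = raise (raise (cont R)) + {q + 1} ∧
    ((∃ u, a = u ++ (List.replicate (q + 1) false ++ List.replicate (q + 1) true)) ∨
      ∃ u, b = List.replicate (q + 1) false ++ (List.replicate (q + 1) true ++ u)))

/-- **I-A-JV, `m = 0`, exact form** -/
theorem TyA.inner_JV0 (h : TyA F g) (h' : Is9 .nil .nil S F' g') (hone : 1 ∉ cont S) (hS3 : 3 ≤ ht S)
    (hb : ∀ c ∈ F, 1 ∉ contc c) (hd : ∀ c ∈ F, c ∉ F') (hh : ∀ c ∈ F, ∀ d ∈ F', htc c ≤ htc d)
    (hx : ∀ (q : ℕ) (B1 H s B : BinaryTree Unit) (w0 : X k), H1.NodeG k q B1 H s B →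
      F = {cyc (H1.gX q B1 H s B w0 0)} → ∀ a b, FM S a b → ¬ Hit0 q (gR B1 H s B) s S a b)
    {p : X k × X k} (hp : p ∈ g.arcs) : ∀ w ∈ innA p, w ∉ g'.B := by
  intro w hw hm
  obtain ⟨q, B1, H, s, B, w0, hG, rfl, rfl⟩ := h
  obtain ⟨i, hi, e⟩ := arcs_cases hp
  rw [e] at hw
  obtain rfl : w = _ := hw
  have h2 := hG.cont0 w0
  have h3 : 1 ∉ cont (gX q B1 H s B w0 0).1 := hb _ rfl
  rw [h2, Multiset.mem_add, not_or] at h3
  obtain ⟨d, hd', e1⟩ := h'.exF
  have h5 := hh _ rfl d hd'
  rw [e1, htc_cyc, OddHC.ht_eq (gX q B1 H s B w0 0).1, h2, Multiset.sup_add] at h5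
  have h6 : ht (gR B1 H s B) ≤ ht S := by
    rw [OddHC.ht_eq]
    exact le_trans le_sup_left h5
  obtain ⟨a, b, hF, h7⟩ := hG.hits0 h3.1 w0 hi h' hone hS3 (hd _ rfl) h6 hm
  refine hx q B1 H s B w0 hG rfl a b hF ?_
  rcases h7 with ⟨-, h7⟩ | ⟨-, h7⟩ | ⟨-, h7⟩
  · exact Or.inl h7
  · exact Or.inr (Or.inl h7)
  · exact Or.inr (Or.inr h7)

/-- a condition on the phase `S` only -/
structure JVz (S : BinaryTree Unit) : Prop where
  b5 : ht S = 5 → ∀ a b, FM S a b → (∀ u, b ≠ false :: false :: true :: true :: u) ∧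
    ∀ u, b ≠ false :: false :: false :: true :: true :: true :: u
  b6 : ht S = 6 → ∀ a b, FM S a b → ∀ u, b ≠ false :: false :: true :: true :: u
  ab : ∀ n, 2 ≤ n → n + 2 ≤ ht S → n ∈ cont S → 2 ∈ cont S → (n = 2 → 2 ≤ (cont S).count 2) →
    ∀ a b, FM S a b → (∀ u, a ≠ u ++ (List.replicate n false ++ List.replicate n true)) ∧
      ∀ u, b ≠ List.replicate n false ++ (List.replicate n true ++ u)

/-- **I-A-JV, `m = 0`** -/
theorem TyA.inner_JVz (h : TyA F g) (h' : Is9 .nil .nil S F' g') (hone : 1 ∉ cont S) (hS3 : 3 ≤ ht S)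
    (hz : JVz S) (hb : ∀ c ∈ F, 1 ∉ contc c) (hd : ∀ c ∈ F, c ∉ F')
    (hh : ∀ c ∈ F, ∀ d ∈ F', htc c ≤ htc d) {p : X k × X k} (hp : p ∈ g.arcs) :
    ∀ w ∈ innA p, w ∉ g'.B := by
  refine h.inner_JV0 h' hone hS3 hb hd hh ?_ hp
  rintro q B1 H s B w0 hG rfl a b hF (⟨h1, h2, h3, u, h4⟩ | ⟨h1, h2, h3, u, h4⟩ | ⟨h1, h2, h3, h4⟩)
  · obtain ⟨z1, z2⟩ := hz.b5 h3 a b hF
    rcases q with _ | _ | q
    · exact z1 _ h4
    · exact z2 _ h4
    · omega
  · subst h2
    exact hz.b6 h3 a b hF _ h4
  · have hc0 := hG.cont0 w0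
    have h5 : 1 ∉ cont (gX q B1 H s B w0 0).1 := hb _ rfl
    rw [hc0, Multiset.mem_add, not_or] at h5
    have h6 := hG.two_mem h5.1
    have hbig := hG.big
    have hht := hG.ht
    have hsupS : (cont S).sup = ht S := (OddHC.ht_eq S).symm
    have hsupR : (cont (gR B1 H s B)).sup = ht (gR B1 H s B) := (OddHC.ht_eq _).symm
    have hcn : ∀ x, x < q + 3 → (cont S).count x = (cont (gR B1 H s B)).count x +
        ({q + 1} : Multiset ℕ).count x := by
      intro x hx
      have e1 := congrArg (Multiset.count x) h3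
      rw [Multiset.count_add, count_raise2 (by omega), count_raise2 (by omega)] at e1
      exact e1
    have c1 := hcn (q + 1) (by omega)
    have c2 := hcn 2 (by omega)
    rw [Multiset.count_singleton_self] at c1
    obtain ⟨z1, z2⟩ := hz.ab (q + 1) (by omega) (by omega) (Multiset.count_pos.1 (by omega))
      (Multiset.count_pos.1 (by omega)) (by
        intro h7
        rw [← h7, c1, h7]
        omega) a b hF
    rcases h4 with ⟨u, h4⟩ | ⟨u, h4⟩
    · exact z1 u h4
    · exact z2 u h4

end Pool.OddHC
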